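import Pool.Agent.Lib.MP_391708_nt.X3.SpecD
import Pool.Agent.Lib.MP_391708_nt.MR.Basic

/-!
# THEOREM X for `k = 3`, part D: CNE (the number of exceptional elements)
-/

set_option autoImplicit false

namespace Pool.Agent.Lib.MP391708.XD3

open Finset Filter Topology Pool.Agent.Lib.MP391708.MR
open Pool.Agent.Lib.MP391708.X

namespace CNEM

lemma chi_one : ChiG (((1 : ℕ) : Gi)) (fun _ => (1 : ℂ)) where
  ne := by
    rw [Nat.cast_one]
    exact one_ne_zero
  one := rfl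
  mul := fun _ _ => (one_mul 1).symm
  period := fun _ _ => rfl
  supp := fun x => by
    constructor
    · intro _
      rw [Nat.cast_one]
      exact isCoprime_one_right
    · intro _
      exact one_ne_zero

lemma uok_one {Q F W : ℝ} (hQ : 1 ≤ Q) (hF : 0 ≤ F) (hW : 1 ≤ W) : UOK Q F W {ix1} where
  ch := by
    intro i hi
    rw [mem_singleton] at hi
    subst hi
    refine ⟨le_refl 1, ?_, chi_one⟩
    show ((1 : ℕ) : ℝ) ≤ Q
    rw [Nat.cast_one]
    exact hQ
  frq := by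
    intro i hi
    rw [mem_singleton] at hi
    subst hi
    show |((0 : ℤ) : ℝ)| ≤ F
    rw [Int.cast_zero, abs_zero]
    exact hF
  adm := by
    intro i hi
    rw [mem_singleton] at hi
    subst hi
    show (1 : ℂ) * dir (⟨0, 1⟩ : Gi) ^ (0 : ℤ) = 1
    rw [zpow_zero, one_mul]
  dif := by
    intro i hi j hj hij
    rw [mem_singleton] at hi hj
    exact absurd (hi.trans hj.symm) hij
  one := mem_singleton_self _
  card := by
    rw [card_singleton, Nat.cast_one]
    exact hW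

lemma mem_RZ {w z y y' : ℝ} {n : Gi} :
    n ∈ RZ w z y y' ↔ (n ≠ 0 ∧ y < (nm n : ℝ) ∧ (nm n : ℝ) ≤ y') ∧ rz w z n := by
  classical
  unfold RZ
  rw [mem_filter, mem_ann]

/-- a power of `x` with exponent less than one is small against `x / log x` -/
lemma pow_small {c κ : ℝ} (hc : 0 < c) (hκ : 0 < κ) :
    ∀ᶠ x : ℝ in atTop, (8 * x) ^ (1 - c) ≤ κ * (x / Real.log x) := by
  have h1 : ∀ᶠ x : ℝ in atTop, ‖Real.log x‖ ≤ (κ / 8) * ‖x ^ c‖ :=
    (isLittleO_log_rpow_atTop hc).bound (by positivity)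
  filter_upwards [h1, eventually_ge_atTop (Real.exp 1)] with x hx hx1
  have hx0 : 0 < x := lt_of_lt_of_le (Real.exp_pos 1) hx1
  have hl : 1 ≤ Real.log x := by
    rw [← Real.log_exp 1]
    exact Real.log_le_log (Real.exp_pos 1) hx1
  have hl0 : 0 < Real.log x := lt_of_lt_of_le one_pos hl
  have hxc : 0 < x ^ c := Real.rpow_pos_of_pos hx0 c
  rw [Real.norm_of_nonneg hl0.le, Real.norm_of_nonneg hxc.le] at hx
  have h8 : (8 : ℝ) ^ (1 - c) ≤ 8 := by
    calc (8 : ℝ) ^ (1 - c) ≤ (8 : ℝ) ^ (1 : ℝ) :=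
          Real.rpow_le_rpow_of_exponent_le (by norm_num) (by linarith)
      _ = 8 := Real.rpow_one 8
  have hxs : x ^ (1 - c) = x / x ^ c := by
    rw [Real.rpow_sub hx0, Real.rpow_one]
  rw [Real.mul_rpow (by norm_num) hx0.le, hxs]
  have hq : 0 ≤ x / x ^ c := by positivity
  calc (8 : ℝ) ^ (1 - c) * (x / x ^ c) ≤ 8 * (x / x ^ c) :=
        mul_le_mul_of_nonneg_right h8 hq
    _ ≤ κ * (x / Real.log x) := by
        rw [mul_div_assoc', mul_div_assoc', div_le_div_iff₀ hxc hl0]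
        nlinarith [mul_le_mul_of_nonneg_left hx hx0.le]

end CNEM

open CNEM in
theorem specCNE (hHMZ : SpecHMZ) (hTWO : SpecTWO) : SpecCNE := by
  classical
  obtain ⟨C₁, hC₁, hH⟩ := hHMZ
  obtain ⟨C₂, hC₂, hT⟩ := hTWO
  refine ⟨6 * C₁ + C₂ + 2, by positivity, ?_⟩
  intro A hA
  obtain ⟨c, hc0, hc1, hH⟩ := hH A hA
  refine ⟨c, hc0, hc1, ?_⟩
  intro e κ he he16 hκ hκ1
  have he1 : e ≤ 1 := by linarith
  have hH' := hH 0 e he (by push_cast; linarith)
  have hT' := hT A e κ hA he he1 hκ hκ1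
  filter_upwards [hH', hT', pow_small hc0 hκ, eventually_ge_atTop (Real.exp 1)] with x hxH hxT hxP hx1 x' hxx' hx'
  have hx0 : 0 < x := lt_of_lt_of_le (Real.exp_pos 1) hx1
  have hx1' : 1 ≤ x := by
    have := Real.add_one_le_exp (1 : ℝ)
    linarith
  have hl : 1 ≤ Real.log x := by
    rw [← Real.log_exp 1]
    exact Real.log_le_log (Real.exp_pos 1) hx1
  have hl0 : 0 < Real.log x := lt_of_lt_of_le one_pos hl
  have hk1 : Real.exp κ ≤ 1 + 2 * κ := by
    have := Real.abs_exp_sub_one_le (x := κ) (by rw [abs_of_pos hκ]; exact hκ1)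
    rw [abs_of_pos hκ] at this
    have h2 := (abs_le.mp this).2
    linarith
  have hk0 : 1 ≤ Real.exp κ := Real.one_le_exp hκ.le
  have hU : UOK (Real.log x ^ A) (x ^ A) (Real.log x ^ A) {ix1} := by
    refine uok_one ?_ ?_ ?_
    · exact Real.one_le_rpow hl (by linarith)
    · exact (Real.rpow_pos_of_pos hx0 A).le
    · exact Real.one_le_rpow hl (by linarith)
  have h13 : x ^ (1 / 3 : ℝ) ≤ 8 * x := by
    calc x ^ (1 / 3 : ℝ) ≤ x ^ (1 : ℝ) := Real.rpow_le_rpow_of_exponent_le hx1' (by norm_num)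
      _ = x := Real.rpow_one x
      _ ≤ 8 * x := by linarith
  have hcnt := fun (y : ℝ) (hy1 : x ≤ y) (hy2 : y ≤ 2 * x) =>
    (hxH {ix1} hU (8 * x) y (y * Real.exp κ) h13 le_rfl (by linarith)
      (by nlinarith) (by nlinarith)).2.2
  set L := κ / e ^ 2 * (x / Real.log x) with hL
  have hq0 : 0 < x / Real.log x := div_pos hx0 hl0
  have hee : e ^ 2 ≤ e := by nlinarith
  have hee0 : 0 < e ^ 2 := by positivity
  have hkL : κ * (x / Real.log x) ≤ L := by
    rw [hL]
    refine mul_le_mul_of_nonneg_right ?_ hq0.le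
    rw [le_div_iff₀ hee0]
    nlinarith
  have hkL' : κ / e * (x / Real.log x) ≤ L := by
    rw [hL]
    refine mul_le_mul_of_nonneg_right ?_ hq0.le
    exact div_le_div_of_nonneg_left hκ.le hee0 hee
  have hcnt1 : ∀ y : ℝ, x ≤ y → y ≤ 2 * x → ∀ m : ℝ, 0 ≤ m → y ≤ m * x →
      ((RZ (ww A x) (x ^ e) y (y * Real.exp κ)).card : ℝ) ≤ (2 * m * C₁ + 1) * L := by
    intro y hy1 hy2 m hm hym
    have h := hcnt y hy1 hy2
    have h2 : (y * Real.exp κ - y) / (e * Real.log x) ≤ 2 * m * (κ / e * (x / Real.log x)) := by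
      have h3 : y * Real.exp κ - y ≤ 2 * m * κ * x := by
        have : y * Real.exp κ - y = y * (Real.exp κ - 1) := by ring
        rw [this]
        calc y * (Real.exp κ - 1) ≤ y * (2 * κ) :=
              mul_le_mul_of_nonneg_left (by linarith) (by linarith)
          _ ≤ (m * x) * (2 * κ) := mul_le_mul_of_nonneg_right hym (by linarith)
          _ = 2 * m * κ * x := by ring
      calc (y * Real.exp κ - y) / (e * Real.log x) ≤ (2 * m * κ * x) / (e * Real.log x) :=
            div_le_div_of_nonneg_right h3 (by positivity)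
        _ = 2 * m * (κ / e * (x / Real.log x)) := by
            field_simp
    have h4 : C₁ * ((y * Real.exp κ - y) / (e * Real.log x)) ≤ 2 * m * C₁ * L := by
      calc C₁ * ((y * Real.exp κ - y) / (e * Real.log x))
            ≤ C₁ * (2 * m * (κ / e * (x / Real.log x))) := mul_le_mul_of_nonneg_left h2 hC₁.le
        _ ≤ C₁ * (2 * m * L) := by
            refine mul_le_mul_of_nonneg_left ?_ hC₁.le
            exact mul_le_mul_of_nonneg_left hkL' (by linarith)
        _ = 2 * m * C₁ * L := by ring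
    calc ((RZ (ww A x) (x ^ e) y (y * Real.exp κ)).card : ℝ)
          ≤ C₁ * ((y * Real.exp κ - y) / (e * Real.log x)) + (8 * x) ^ (1 - c) := h
      _ ≤ 2 * m * C₁ * L + L := add_le_add h4 (hxP.trans hkL)
      _ = (2 * m * C₁ + 1) * L := by ring
  -- the third set
  set P : Gi → Prop := fun n => (∃ q : ℕ, q.Prime ∧ q % 4 = 3 ∧ (q : Gi) ∣ n) ∨
      ∃ (v : ℕ) (π π' : Gi), π ∈ cl (x ^ e) κ v ∧ π' ∈ cl (x ^ e) κ v ∧ π * π' ∣ n with hP
  set S : Finset Gi := (EE (ww A x) (x ^ e) κ x x').filter P with hS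
  have hSc : (S.card : ℝ) ≤ C₂ * (κ / e ^ 2) * (x / Real.log x) := by
    refine hxT S ?_
    intro n hn
    rw [hS, mem_filter] at hn
    obtain ⟨hn1, hn2⟩ := hn
    unfold EE at hn1
    rw [mem_filter, mem_RZ] at hn1
    obtain ⟨⟨⟨h1, h2, h3⟩, h4, h5⟩, h6⟩ := hn1
    refine ⟨h1, ?_, h4, hn2⟩
    calc (nm n : ℝ) ≤ x' * Real.exp κ := h3
      _ ≤ 6 * x := by nlinarith
  have hsub : EE (ww A x) (x ^ e) κ x x' ⊆
      RZ (ww A x) (x ^ e) x (x * Real.exp κ) ∪ RZ (ww A x) (x ^ e) x' (x' * Real.exp κ) ∪ S := by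
    intro n hn
    have hn1 := hn
    unfold EE at hn1
    rw [mem_filter, mem_RZ] at hn1
    obtain ⟨⟨⟨h1, h2, h3⟩, h4⟩, h6⟩ := hn1
    rw [mem_union, mem_union]
    rcases h6 with h6 | h6 | h6
    · left
      left
      rw [mem_RZ]
      exact ⟨⟨h1, h2, h6⟩, h4⟩
    · left
      right
      rw [mem_RZ]
      exact ⟨⟨h1, h6, h3⟩, h4⟩
    · right
      rw [hS, mem_filter]
      exact ⟨hn, h6⟩
  have hcard : ((EE (ww A x) (x ^ e) κ x x').card : ℝ) ≤
      ((RZ (ww A x) (x ^ e) x (x * Real.exp κ)).card : ℝ) +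
        ((RZ (ww A x) (x ^ e) x' (x' * Real.exp κ)).card : ℝ) + (S.card : ℝ) := by
    have h1 := card_le_card hsub
    have h2 := card_union_le (RZ (ww A x) (x ^ e) x (x * Real.exp κ) ∪
      RZ (ww A x) (x ^ e) x' (x' * Real.exp κ)) S
    have h3 := card_union_le (RZ (ww A x) (x ^ e) x (x * Real.exp κ))
      (RZ (ww A x) (x ^ e) x' (x' * Real.exp κ))
    exact_mod_cast h1.trans (h2.trans (Nat.add_le_add_right h3 _))
  have hA1 := hcnt1 x le_rfl (by linarith) 1 zero_le_one (by linarith)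
  have hA2 := hcnt1 x' hxx' hx' 2 zero_le_two hx'
  calc ((EE (ww A x) (x ^ e) κ x x').card : ℝ)
        ≤ (2 * 1 * C₁ + 1) * L + (2 * 2 * C₁ + 1) * L + C₂ * (κ / e ^ 2) * (x / Real.log x) :=
          hcard.trans (add_le_add (add_le_add hA1 hA2) hSc)
    _ = (6 * C₁ + C₂ + 2) * (κ / e ^ 2) * (x / Real.log x) := by
        rw [hL]
        ring

end Pool.Agent.Lib.MP391708.XD3
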