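import Pool.Agent.Lib.MP_391708_nt.X3.SpecD

/-!
# THEOREM D, module DCP: the decomposition of the rough numbers by the least prime factor
-/

set_option autoImplicit false

namespace Pool.Agent.Lib.MP391708.XD3

open Finset Filter Topology Pool.Agent.Lib.MP391708.MR
open Pool.Agent.Lib.MP391708.X
open Pool.Agent.Lib.MP391708.QPA (PB)
open scoped ComplexConjugate

namespace DCPM

lemma mem_RZ {w z y y' : ℝ} {n : Gi} : n ∈ RZ w z y y' ↔
    (n ≠ 0 ∧ y < (nm n : ℝ) ∧ (nm n : ℝ) ≤ y') ∧ rz w z n := by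
  classical
  unfold RZ
  rw [Finset.mem_filter, mem_ann]

lemma mem_EE {w z κ y y' : ℝ} {n : Gi} : n ∈ EE w z κ y y' ↔
    n ∈ RZ w z y (y' * Real.exp κ) ∧ exc z κ y y' n := by
  classical
  unfold EE
  rw [Finset.mem_filter]

/-- the sum over the representations -/
lemma sum_rep {w z κ y y' : ℝ} {V : ℕ} (f : Gi → ℂ) (R : Finset Gi)
    (hR : ∀ n, rr w z κ y y' V n ≠ 0 → n ∈ R) :
    ∑ v ∈ range V, ∑ π ∈ cl z κ v, ∑ m ∈ MS w z κ y y' v, f (π * m) =
      ∑ n ∈ R, (rr w z κ y y' V n : ℂ) * f n := by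
  classical
  have h1 : ∀ v ∈ range V, ∑ π ∈ cl z κ v, ∑ m ∈ MS w z κ y y' v, f (π * m) =
      ∑ n ∈ R, ((((cl z κ v ×ˢ MS w z κ y y' v).filter (fun q => q.1 * q.2 = n)).card : ℕ) : ℂ)
        * f n := by
    intro v hv
    rw [← Finset.sum_product' (cl z κ v) (MS w z κ y y' v) (fun π m => f (π * m))]
    have hm : ∀ q ∈ cl z κ v ×ˢ MS w z κ y y' v, q.1 * q.2 ∈ R := by
      intro q hq
      apply hR
      unfold rr
      have hpos : 0 < ∑ v ∈ range V,
          ((cl z κ v ×ˢ MS w z κ y y' v).filter (fun q' => q'.1 * q'.2 = q.1 * q.2)).card := by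
        refine lt_of_lt_of_le ?_ (Finset.single_le_sum
          (f := fun v => ((cl z κ v ×ˢ MS w z κ y y' v).filter
            (fun q' => q'.1 * q'.2 = q.1 * q.2)).card) (fun i _ => Nat.zero_le _) hv)
        exact Finset.card_pos.2 ⟨q, Finset.mem_filter.2 ⟨hq, rfl⟩⟩
      intro h0
      have h0' : ∑ v ∈ range V,
          ((cl z κ v ×ˢ MS w z κ y y' v).filter (fun q' => q'.1 * q'.2 = q.1 * q.2)).card = 0 := by
        convert h0 using 2
      omega
    rw [← Finset.sum_fiberwise_of_maps_to hm]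
    refine Finset.sum_congr rfl fun n _ => ?_
    rw [Finset.sum_congr rfl (g := fun _ => f n)
      (fun q hq => by rw [(Finset.mem_filter.1 hq).2])]
    rw [Finset.sum_const, nsmul_eq_mul]
  rw [Finset.sum_congr rfl h1, Finset.sum_comm]
  refine Finset.sum_congr rfl fun n _ => ?_
  rw [← Finset.sum_mul]
  congr 1
  unfold rr
  push_cast
  refine Finset.sum_congr rfl fun v _ => ?_
  congr 2

end DCPM

/-- DCP -/
theorem specDCP (hRLE : SpecRLE) (hSPL : SpecSPL) : SpecDCP := by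
  classical
  intro w z κ y y' V hw hwz hz hκ hκ1 hzy hyy hV
  have hy1 : 1 ≤ y := by linarith
  have hR := hRLE w z κ y y' V hw hwz hz hκ hκ1 hy1 hyy hV
  have hwy : w ≤ y := by linarith
  have hexp : 1 ≤ Real.exp κ := Real.one_le_exp hκ.le
  have hy'exp : y' ≤ y' * Real.exp κ := by nlinarith
  set R' := RZ w z y (y' * Real.exp κ) with hR'
  set a0 : Gi → ℝ := fun n => (if n ∈ RZ w z y y' then 1 else 0) -
    (if n ∈ RZ w z y y' ∧ (nm n).Prime then 1 else 0) - (rr w z κ y y' V n : ℝ) with ha0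
  have hsub : RZ w z y y' ⊆ R' := by
    intro n hn
    rw [DCPM.mem_RZ] at hn
    rw [hR', DCPM.mem_RZ]
    exact ⟨⟨hn.1.1, hn.1.2.1, hn.1.2.2.trans hy'exp⟩, hn.2⟩
  have hrr1 : ∀ n, (rr w z κ y y' V n : ℝ) ≤ 1 := fun n => by exact_mod_cast (hR n).1
  have hrr0 : ∀ n, (0 : ℝ) ≤ (rr w z κ y y' V n : ℝ) := fun n => Nat.cast_nonneg _
  -- bound
  have hb : ∀ n, |a0 n| ≤ 1 := by
    intro n
    have h1 := hrr1 n
    have h2 := hrr0 n
    simp only [ha0]
    by_cases hn : n ∈ RZ w z y y'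
    · by_cases hp : (nm n).Prime
      · have h3 : rr w z κ y y' V n = 0 := by
          by_contra h
          exact ((hR n).2.1 h).2 hp
        rw [if_pos hn, if_pos ⟨hn, hp⟩, h3]
        norm_num
      · rw [if_pos hn, if_neg (fun h => hp h.2), abs_le]
        constructor <;> linarith
    · rw [if_neg hn, if_neg (fun h => hn h.1), abs_le]
      constructor <;> linarith
  -- vanishing outside the exceptional set
  have hv : ∀ n ∈ R', ¬ exc z κ y y' n → a0 n = 0 := by
    intro n hn he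
    have hle : (nm n : ℝ) ≤ y' := by
      by_contra h
      exact he (Or.inr (Or.inl (not_le.1 h)))
    have hnR : n ∈ RZ w z y y' := by
      rw [hR', DCPM.mem_RZ] at hn
      rw [DCPM.mem_RZ]
      exact ⟨⟨hn.1.1, hn.1.2.1, hle⟩, hn.2⟩
    simp only [ha0]
    by_cases hp : (nm n).Prime
    · have h3 : rr w z κ y y' V n = 0 := by
        by_contra h
        exact ((hR n).2.1 h).2 hp
      rw [if_pos hnR, if_pos ⟨hnR, hp⟩, h3]
      norm_num
    · have h3 := (hR n).2.2 hnR hp he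
      rw [if_pos hnR, if_neg (fun h => hp h.2), h3]
      norm_num
  refine ⟨a0, hb, ?_⟩
  intro f hf
  have hspl := hSPL w z y y' hw hwy hzy hyy f hf
  have hrep := DCPM.sum_rep (w := w) (z := z) (κ := κ) (y := y) (y' := y') (V := V) f R'
    (fun n hn => ((hR n).2.1 hn).1)
  have hEE : ∑ n ∈ EE w z κ y y', (a0 n : ℂ) * f n = ∑ n ∈ R', (a0 n : ℂ) * f n := by
    apply Finset.sum_subset
    · intro n hn
      exact (DCPM.mem_EE.1 hn).1
    · intro n hn hne
      have : ¬ exc z κ y y' n := fun h => hne (DCPM.mem_EE.2 ⟨hn, h⟩)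
      rw [hv n hn this]
      simp
  have h1 : ∑ n ∈ R', (if n ∈ RZ w z y y' then (1 : ℂ) else 0) * f n =
      ∑ n ∈ RZ w z y y', f n := by
    rw [← Finset.sum_subset hsub (f := fun n => (if n ∈ RZ w z y y' then (1 : ℂ) else 0) * f n)]
    · exact Finset.sum_congr rfl fun n hn => by rw [if_pos hn, one_mul]
    · intro n _ hn
      rw [if_neg hn, zero_mul]
  have h2 : ∑ n ∈ R', (if n ∈ RZ w z y y' ∧ (nm n).Prime then (1 : ℂ) else 0) * f n =
      ∑ n ∈ (RZ w z y y').filter (fun n => (nm n).Prime), f n := by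
    rw [← Finset.sum_subset ((Finset.filter_subset (fun n => (nm n).Prime) (RZ w z y y')).trans hsub)
      (f := fun n => (if n ∈ RZ w z y y' ∧ (nm n).Prime then (1 : ℂ) else 0) * f n)]
    · exact Finset.sum_congr rfl fun n hn => by rw [if_pos (Finset.mem_filter.1 hn), one_mul]
    · intro n _ hn
      rw [if_neg (fun h => hn (Finset.mem_filter.2 h)), zero_mul]
  have h3 : ∑ n ∈ R', (a0 n : ℂ) * f n =
      ∑ n ∈ R', (if n ∈ RZ w z y y' then (1 : ℂ) else 0) * f n -
      ∑ n ∈ R', (if n ∈ RZ w z y y' ∧ (nm n).Prime then (1 : ℂ) else 0) * f n -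
      ∑ n ∈ R', (rr w z κ y y' V n : ℂ) * f n := by
    rw [← Finset.sum_sub_distrib, ← Finset.sum_sub_distrib]
    refine Finset.sum_congr rfl fun n _ => ?_
    rw [← sub_mul, ← sub_mul]
    congr 1
    simp only [ha0]
    push_cast
    split_ifs <;> simp
  rw [hEE, h3, h1, h2, hspl, hrep]
  ring

end Pool.Agent.Lib.MP391708.XD3
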