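import Pool.Agent.Lib.MP_391708_nt.X3.SpecD

/-!
# THEOREM X for `k = 3` (MP_391708), part D, module GRZ: the Gram matrix of the rough numbers (helper45)
-/

set_option autoImplicit false

namespace Pool.Agent.Lib.MP391708.XD3

open Finset Filter Topology Pool.Agent.Lib.MP391708.MR
open Pool.Agent.Lib.MP391708.X
open Pool.Agent.Lib.MP391708.QPA (PB)
open scoped ComplexConjugate

namespace GRZM

lemma rgh_mul {w : ℝ} {d m : Gi} : rgh w (d * m) ↔ rgh w d ∧ rgh w m := by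
  constructor
  · intro h
    exact ⟨fun π hπ hd => h π hπ (Dvd.dvd.mul_right hd m), fun π hπ hd => h π hπ (Dvd.dvd.mul_left hd d)⟩
  · rintro ⟨h1, h2⟩ π hπ hd
    rcases hπ.dvd_or_dvd hd with h | h
    · exact h1 π hπ h
    · exact h2 π hπ h

open scoped Classical in
/-- the multiples of `d` -/
lemma sum_dvd (w y y' : ℝ) (d : Gi) (hd : d ≠ 0) (hdw : rgh w d) (f : Gi → ℝ) :
    ∑ n ∈ ((ann y y').filter (rgh w)).filter (fun n => d ∣ n), f n =
      ∑ m ∈ (ann (y / nm d) (y' / nm d)).filter (rgh w), f (d * m) := by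
  symm
  have hN : (0 : ℝ) < nm d := nm_posR hd
  refine Finset.sum_nbij (fun m => d * m) ?_ ?_ ?_ (fun _ _ => rfl)
  · intro m hm
    rw [mem_filter, mem_ann] at hm
    obtain ⟨⟨hm0, h1, h2⟩, h3⟩ := hm
    rw [mem_filter, mem_filter, mem_ann, nm_mul]
    rw [div_lt_iff₀ hN] at h1
    rw [le_div_iff₀ hN] at h2
    push_cast
    exact ⟨⟨⟨mul_ne_zero hd hm0, by linarith, by linarith⟩, rgh_mul.2 ⟨hdw, h3⟩⟩, dvd_mul_right d m⟩
  · intro m _ m' _ h
    exact mul_left_cancel₀ hd h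
  · intro n hn
    rw [mem_coe, mem_filter, mem_filter, mem_ann] at hn
    obtain ⟨⟨⟨hn0, h1, h2⟩, h3⟩, m, rfl⟩ := hn
    rw [nm_mul] at h1 h2
    push_cast at h1 h2
    refine ⟨m, ?_, rfl⟩
    rw [mem_coe, mem_filter, mem_ann, div_lt_iff₀ hN, le_div_iff₀ hN]
    exact ⟨⟨right_ne_zero_of_mul hn0, by linarith, by linarith⟩, (rgh_mul.1 h3).2⟩

lemma VP_nonneg (w : ℝ) : 0 ≤ VP w := by
  classical
  unfold VP
  refine prod_nonneg fun π hπ => ?_
  have h0 : π ≠ 0 := by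
    unfold PI at hπ
    exact (mem_disc.1 (Finset.mem_filter.1 hπ).1).1
  have h1 : (1 : ℝ) ≤ nm π := one_le_nm h0
  have h2 : 1 / (nm π : ℝ) ≤ 1 := by
    rw [div_le_one (by linarith)]
    exact h1
  linarith

lemma gp_bd {w : ℝ} (hw : 2 ≤ w) (p : ℕ) (hp : p.Prime) :
    0 ≤ gp w p ∧ gp w p ≤ 2 / (p : ℝ) ∧ gp w p ≤ 2 / 3 := by
  have hp2 : (2 : ℝ) ≤ p := by exact_mod_cast hp.two_le
  unfold gp
  by_cases h : w < (p : ℝ)
  · rw [if_pos h]
    have h3 : (3 : ℝ) ≤ p := by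
      have h4 : (2 : ℝ) < p := by linarith
      have h5 : 2 < p := by exact_mod_cast h4
      exact_mod_cast h5
    have q0 : 0 < 1 / (p : ℝ) := by positivity
    have q1 : 1 / (p : ℝ) ≤ 1 / 3 := one_div_le_one_div_of_le (by norm_num) h3
    have e1 : 2 / (p : ℝ) = 2 * (1 / (p : ℝ)) := by ring
    have e2 : 1 / (p : ℝ) ^ 2 = (1 / (p : ℝ)) ^ 2 := by rw [one_div, one_div, inv_pow]
    rw [e1, e2]
    set q := 1 / (p : ℝ)
    by_cases h6 : p % 4 = 1
    · rw [if_pos h6]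
      refine ⟨by nlinarith, by nlinarith, by nlinarith⟩
    · rw [if_neg h6]
      refine ⟨by positivity, by nlinarith, by nlinarith⟩
  · rw [if_neg h]
    exact ⟨le_rfl, by positivity, by norm_num⟩

lemma mem_PB' {z : ℝ} {p : ℕ} : p ∈ PB z ↔ p.Prime ∧ (p : ℝ) < z := by
  unfold PB
  rw [mem_filter, mem_range, Nat.lt_ceil]
  exact and_comm

open scoped Classical in
/-- the weight of a prime -/
noncomputable def al (w : ℝ) (p : ℕ) (n : Gi) : ℝ := if w < (p : ℝ) ∧ p ∣ nm n then 1 else 0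

open scoped Classical in
lemma prod_al (w z : ℝ) (n : Gi) : ∏ p ∈ PB z, (1 - al w p n) =
    if (∀ p : ℕ, p.Prime → w < (p : ℝ) → (p : ℝ) < z → ¬ p ∣ nm n) then 1 else 0 := by
  by_cases h : ∀ p : ℕ, p.Prime → w < (p : ℝ) → (p : ℝ) < z → ¬ p ∣ nm n
  · rw [if_pos h]
    refine prod_eq_one fun p hp => ?_
    obtain ⟨h1, h2⟩ := mem_PB'.1 hp
    unfold al
    rw [if_neg, sub_zero]
    rintro ⟨h3, h4⟩
    exact h p h1 h3 h2 h4
  · rw [if_neg h]
    push Not at h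
    obtain ⟨p, h1, h2, h3, h4⟩ := h
    refine prod_eq_zero (mem_PB'.2 ⟨h1, h3⟩) ?_
    unfold al
    rw [if_pos ⟨h2, h4⟩, sub_self]

open scoped Classical in
lemma prod_al_pf (w : ℝ) (δ : ℕ) (hs : Squarefree δ) (hw : ∀ p : ℕ, p.Prime → p ∣ δ → w < (p : ℝ))
    (n : Gi) : ∏ p ∈ δ.primeFactors, al w p n = if δ ∣ nm n then 1 else 0 := by
  by_cases h : δ ∣ nm n
  · rw [if_pos h]
    refine prod_eq_one fun p hp => ?_
    have h1 := Nat.prime_of_mem_primeFactors hp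
    have h2 := Nat.dvd_of_mem_primeFactors hp
    unfold al
    rw [if_pos ⟨hw p h1 h2, h2.trans h⟩]
  · rw [if_neg h]
    by_contra h0
    apply h
    rw [← Nat.prod_primeFactors_of_squarefree hs]
    refine Finset.prod_primes_dvd _ (fun p hp => (Nat.prime_of_mem_primeFactors hp).prime) ?_
    intro p hp
    by_contra h3
    apply h0
    refine prod_eq_zero hp ?_
    unfold al
    rw [if_neg]
    rintro ⟨-, h4⟩
    exact h3 h4

open scoped Classical in
/-- one modulus -/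
lemma rem_bd (w y y' K X : ℝ) (hw : 2 ≤ w) (hK : 0 ≤ K) (hMLT : SpecMLT) (om : Gi → ℝ)
    (H : ∀ d : Gi, d ≠ 0 → rgh w d →
      |(∑ m ∈ (ann (y / nm d) (y' / nm d)).filter (rgh w), om (d * m)) - X / nm d| ≤ K)
    (δ : ℕ) (hs : Squarefree δ) (hδ : 1 ≤ δ) :
    |(∑ n ∈ (ann y y').filter (rgh w), om n * ∏ p ∈ δ.primeFactors, al w p n) -
      X * ∏ p ∈ δ.primeFactors, gp w p| ≤ (δ : ℝ) ^ 2 * K := by
  by_cases hall : ∀ p : ℕ, p.Prime → p ∣ δ → w < (p : ℝ)
  · obtain ⟨ι, D, d, c, h1, h2, h3, h4⟩ := hMLT w δ hw hs hall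
    have e1 : ∑ n ∈ (ann y y').filter (rgh w), om n * ∏ p ∈ δ.primeFactors, al w p n =
        ∑ k ∈ D, c k * ∑ m ∈ (ann (y / nm (d k)) (y' / nm (d k))).filter (rgh w), om (d k * m) := by
      have e2 : ∀ n ∈ (ann y y').filter (rgh w), om n * ∏ p ∈ δ.primeFactors, al w p n =
          ∑ k ∈ D, c k * (if d k ∣ n then om n else 0) := by
        intro n hn
        rw [mem_filter, mem_ann] at hn
        rw [prod_al_pf w δ hs hall, ← h3 n hn.1.1, mul_sum]
        refine sum_congr rfl fun k _ => ?_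
        split_ifs
        · ring
        · ring
      rw [sum_congr rfl e2, sum_comm]
      refine sum_congr rfl fun k hk => ?_
      rw [← mul_sum, ← sum_filter, sum_dvd w y y' (d k) (h2 k hk).1 (h2 k hk).2.1]
    rw [e1, ← h4, mul_sum, ← sum_sub_distrib]
    refine (abs_sum_le_sum_abs _ _).trans ?_
    have e3 : ∀ k ∈ D, |c k * (∑ m ∈ (ann (y / nm (d k)) (y' / nm (d k))).filter (rgh w),
        om (d k * m)) - X * (c k / (nm (d k) : ℝ))| ≤ K := by
      intro k hk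
      obtain ⟨h5, h6, h7⟩ := h2 k hk
      have e4 : c k * (∑ m ∈ (ann (y / nm (d k)) (y' / nm (d k))).filter (rgh w),
          om (d k * m)) - X * (c k / (nm (d k) : ℝ)) =
          c k * ((∑ m ∈ (ann (y / nm (d k)) (y' / nm (d k))).filter (rgh w),
            om (d k * m)) - X / nm (d k)) := by ring
      rw [e4, abs_mul]
      calc |c k| * _ ≤ 1 * K := mul_le_mul h7 (H _ h5 h6) (abs_nonneg _) (by norm_num)
        _ = K := one_mul K
    refine (sum_le_sum e3).trans ?_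
    rw [sum_const, nsmul_eq_mul]
    exact mul_le_mul_of_nonneg_right h1 hK
  · push Not at hall
    obtain ⟨p, hp, hpd, hpw⟩ := hall
    have hpf : p ∈ δ.primeFactors := Nat.mem_primeFactors.2 ⟨hp, hpd, by omega⟩
    have e1 : ∏ p ∈ δ.primeFactors, gp w p = 0 := by
      refine prod_eq_zero hpf ?_
      unfold gp
      rw [if_neg (not_lt.2 hpw)]
    have e2 : ∑ n ∈ (ann y y').filter (rgh w), om n * ∏ p ∈ δ.primeFactors, al w p n = 0 := by
      refine sum_eq_zero fun n _ => ?_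
      have : ∏ p ∈ δ.primeFactors, al w p n = 0 := by
        refine prod_eq_zero hpf ?_
        unfold al
        rw [if_neg]
        rintro ⟨h, -⟩
        exact absurd h (not_lt.2 hpw)
      rw [this, mul_zero]
    rw [e1, e2, mul_zero, sub_zero, abs_zero]
    positivity

lemma nm_cast_nat (m : ℕ) : nm (m : Gi) = m ^ 2 := by
  unfold nm
  simp only [Zsqrtd.re_natCast, Zsqrtd.im_natCast]
  have : ((m : ℤ) ^ 2 + 0 ^ 2).natAbs = m ^ 2 := by
    rw [zero_pow two_ne_zero, add_zero, Int.natAbs_pow, Int.natAbs_natCast]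
  exact this

open scoped Classical in
/-- the `w`-rough multiples of `d`, for all `d` -/
theorem core (hGRM : SpecGRM) (hRG0 : SpecRG0) (hPSI : SpecPSI) (A : ℝ) (hA : 1 ≤ A) :
    ∃ c : ℝ, 0 < c ∧ c < 1 ∧ ∀ᶠ x : ℝ in atTop, ∀ U : Finset Ix,
      UOK (Real.log x ^ A) (x ^ A) (Real.log x ^ A) U → ∀ Y y y' : ℝ, x ^ (1 / 3 : ℝ) ≤ Y → 0 ≤ y →
      y ≤ y' → y' ≤ Y → ∀ (a : Ix → ℂ) (d : Gi), d ≠ 0 → rgh (ww A x) d →
      |(∑ m ∈ (ann (y / nm d) (y' / nm d)).filter (rgh (ww A x)),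
          ‖∑ i ∈ U, a i * psi i (d * m)‖ ^ 2) -
        Real.pi * (y' - y) * VP (ww A x) * (∑ i ∈ U, ‖a i‖ ^ 2) / nm d| ≤
      Y ^ (1 - c) * (Real.log x ^ A + 1) * ∑ i ∈ U, ‖a i‖ ^ 2 := by
  obtain ⟨c1, hc1, hc11, h1⟩ := hGRM (3 * A) (2 * A + 21) (by linarith) (by linarith)
  obtain ⟨c2, hc2, hc21, h2⟩ := hRG0 (2 * A + 21) (by linarith)
  refine ⟨min c1 c2, lt_min hc1 hc2, (min_le_left _ _).trans_lt hc11, ?_⟩
  obtain ⟨Y1, hY1⟩ := eventually_atTop.1 h1
  obtain ⟨Y2, hY2⟩ := eventually_atTop.1 h2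
  have t1 : Tendsto (fun x : ℝ => x ^ (1 / 3 : ℝ)) atTop atTop :=
    tendsto_rpow_atTop (by norm_num)
  filter_upwards [t1.eventually_ge_atTop Y1, t1.eventually_ge_atTop Y2,
    Real.tendsto_log_atTop.eventually_ge_atTop (3 * (3 : ℝ) ^ (2 * A + 20)),
    Real.tendsto_log_atTop.eventually_ge_atTop 1, eventually_ge_atTop (1 : ℝ)] with
    x g1 g2 g3 g4 g5 U hU Y y y' hY hy hyy hy' a d hd hdw
  have hx0 : 0 < x := by linarith
  have hl0 : 0 < Real.log x := by linarith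
  have hYp : 0 < Y := lt_of_lt_of_le (Real.rpow_pos_of_pos hx0 _) hY
  have hY1' : 1 ≤ Y := (Real.one_le_rpow g5 (by norm_num)).trans hY
  have hN : (1 : ℝ) ≤ nm d := one_le_nm hd
  have hN0 : (0 : ℝ) < nm d := by linarith
  -- logarithms
  have l1 : Real.log x / 3 ≤ Real.log Y := by
    have := Real.log_le_log (Real.rpow_pos_of_pos hx0 _) hY
    rw [Real.log_rpow hx0] at this
    linarith
  have l2 : (3 : ℝ) ^ (2 * A + 20) ≤ Real.log Y := by linarith
  have l0 : 0 < Real.log Y := lt_of_lt_of_le (Real.rpow_pos_of_pos (by norm_num) _) l2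
  have hw : ww A x ≤ Real.log Y ^ (2 * A + 21) := by
    unfold ww
    calc Real.log x ^ (2 * A + 20) ≤ (3 * Real.log Y) ^ (2 * A + 20) :=
          Real.rpow_le_rpow hl0.le (by linarith) (by linarith)
      _ = (3 : ℝ) ^ (2 * A + 20) * Real.log Y ^ (2 * A + 20) :=
          Real.mul_rpow (by norm_num) l0.le
      _ ≤ Real.log Y * Real.log Y ^ (2 * A + 20) :=
          mul_le_mul_of_nonneg_right l2 (Real.rpow_nonneg l0.le _)
      _ = Real.log Y ^ (1 + (2 * A + 20)) := by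
          rw [Real.rpow_add l0 1 (2 * A + 20), Real.rpow_one]
      _ = Real.log Y ^ (2 * A + 21) := by
          congr 1
          ring
  have hQw : Real.log x ^ A ≤ ww A x :=
    Real.rpow_le_rpow_of_exponent_le g4 (by linarith)
  have hQ2w : (Real.log x ^ A) ^ 2 ≤ ww A x := by
    rw [← Real.rpow_natCast, ← Real.rpow_mul hl0.le]
    refine Real.rpow_le_rpow_of_exponent_le g4 ?_
    push_cast
    linarith
  have hFam : Fam U (fun i : Ix => i.2.1) (fun i => i.2.2) (ww A x) (Y ^ (3 * A)) := by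
    refine ⟨fun i hi => ⟨(i.1 : Gi), ?_, (hU.ch i hi).2.2⟩, fun i hi => ?_, hU.dif⟩
    · rw [nm_cast_nat]
      push_cast
      refine le_trans ?_ hQ2w
      exact pow_le_pow_left₀ (by positivity) (hU.ch i hi).2.1 2
    · refine (hU.frq i hi).trans ?_
      calc x ^ A = (x ^ (1 / 3 : ℝ)) ^ (3 * A) := by
            rw [← Real.rpow_mul hx0.le]
            congr 1
            ring
        _ ≤ Y ^ (3 * A) := Real.rpow_le_rpow (Real.rpow_nonneg hx0.le _) hY (by linarith)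
  have hyd : 0 ≤ y / nm d := by positivity
  have hyd2 : y / nm d ≤ y' / nm d := div_le_div_of_nonneg_right hyy hN0.le
  have hyd3 : y' / nm d ≤ Y := by
    refine le_trans ?_ hy'
    exact div_le_self (by linarith) hN
  set S := (ann (y / nm d) (y' / nm d)).filter (rgh (ww A x)) with hS
  have hSm : ∀ z, z ∈ S ↔ z ∈ ann (y / nm d) (y' / nm d) ∧ rgh (ww A x) z := by
    intro z
    rw [hS, mem_filter]
  have r1 := hY1 Y (g1.trans hY) Ix U (fun i => i.2.1) (fun i => i.2.2) (ww A x) hw hFam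
    (y / nm d) (y' / nm d) (fun i => a i * psi i d) hyd hyd2 hyd3 S hSm
  have r2 := hY2 Y (g2.trans hY) (ww A x) (y / nm d) (y' / nm d) hw hyd hyd2 hyd3 S hSm
  have p1 : ∀ i ∈ U, ‖psi i d‖ = 1 := fun i hi =>
    (hPSI _ _ _ U hU i hi).2.2.2.2.2.2 (ww A x) d hQw hQ2w hd hdw
  have e1 : ∑ i ∈ U, ‖a i * psi i d‖ ^ 2 = ∑ i ∈ U, ‖a i‖ ^ 2 := by
    refine sum_congr rfl fun i hi => ?_
    rw [norm_mul, p1 i hi, mul_one]
  have e2 : ∑ z ∈ S, ‖∑ i ∈ U, a i * psi i d * hk i.2.1 i.2.2 z‖ ^ 2 =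
      ∑ m ∈ S, ‖∑ i ∈ U, a i * psi i (d * m)‖ ^ 2 := by
    refine sum_congr rfl fun m _ => ?_
    congr 2
    refine sum_congr rfl fun i hi => ?_
    rw [(hPSI _ _ _ U hU i hi).1 d m, ← mul_assoc]
    rfl
  rw [e1, e2] at r1
  set E := ∑ i ∈ U, ‖a i‖ ^ 2 with hE
  have hE0 : 0 ≤ E := sum_nonneg fun i _ => by positivity
  have k1 : Y ^ (1 - c1) ≤ Y ^ (1 - min c1 c2) :=
    Real.rpow_le_rpow_of_exponent_le hY1' (by linarith [min_le_left c1 c2])
  have k2 : Y ^ (1 - c2) ≤ Y ^ (1 - min c1 c2) :=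
    Real.rpow_le_rpow_of_exponent_le hY1' (by linarith [min_le_right c1 c2])
  set G := Y ^ (1 - min c1 c2) with hG
  have hG0 : 0 ≤ G := Real.rpow_nonneg hYp.le _
  have hUc : (U.card : ℝ) ≤ Real.log x ^ A := hU.card
  have r1' : |∑ m ∈ S, ‖∑ i ∈ U, a i * psi i (d * m)‖ ^ 2 - S.card * E| ≤
      G * (Real.log x ^ A * E) := by
    refine r1.trans ?_
    refine mul_le_mul k1 (mul_le_mul_of_nonneg_right hUc hE0) (by positivity) hG0
  have r2' : |(S.card : ℝ) * E - Real.pi * (y' - y) * VP (ww A x) * E / nm d| ≤ G * E := by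
    have e3 : (S.card : ℝ) * E - Real.pi * (y' - y) * VP (ww A x) * E / nm d =
        ((S.card : ℝ) - Real.pi * (y' / nm d - y / nm d) * VP (ww A x)) * E := by ring
    rw [e3, abs_mul, abs_of_nonneg hE0]
    exact mul_le_mul_of_nonneg_right (r2.trans k2) hE0
  calc _ = |(∑ m ∈ S, ‖∑ i ∈ U, a i * psi i (d * m)‖ ^ 2 - S.card * E) +
        ((S.card : ℝ) * E - Real.pi * (y' - y) * VP (ww A x) * E / nm d)| := by
        congr 1
        ring
    _ ≤ _ := abs_add_le _ _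
    _ ≤ G * (Real.log x ^ A * E) + G * E := add_le_add r1' r2'
    _ = G * (Real.log x ^ A + 1) * E := by ring

/-- the final comparison -/
theorem ev (C A c : ℝ) (hC : 0 < C) (hA : 1 ≤ A) (hc : 0 < c) : ∀ᶠ x : ℝ in atTop,
    C * (1 + Real.log x) * (x ^ (c / 20)) ^ 3 * (Real.log x ^ A + 1) ≤ x ^ ((c - c / 20) / 3) := by
  have h1 : Tendsto (fun x : ℝ => Real.log x ^ (A + 1) / x ^ (c / 6)) atTop (𝓝 0) :=
    (isLittleO_log_rpow_rpow_atTop (A + 1) (by positivity : (0 : ℝ) < c / 6)).tendsto_div_nhds_zero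
  have h2 : ∀ᶠ x : ℝ in atTop, Real.log x ^ (A + 1) / x ^ (c / 6) < 1 / (4 * C) :=
    h1.eventually_lt_const (by positivity)
  filter_upwards [h2, Real.tendsto_log_atTop.eventually_ge_atTop 1, eventually_ge_atTop (1 : ℝ)]
    with x h3 h4 h5
  have hx0 : 0 < x := by linarith
  have hl0 : 0 < Real.log x := by linarith
  rw [div_lt_div_iff₀ (Real.rpow_pos_of_pos hx0 _) (by positivity), one_mul] at h3
  have e1 : (x ^ (c / 20)) ^ 3 = x ^ (3 * c / 20) := by
    rw [← Real.rpow_natCast, ← Real.rpow_mul hx0.le]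
    congr 1
    push_cast
    ring
  have e2 : x ^ ((c - c / 20) / 3) = x ^ (3 * c / 20) * x ^ (c / 6) := by
    rw [← Real.rpow_add hx0]
    congr 1
    ring
  rw [e1, e2]
  have h6 : 1 ≤ Real.log x ^ A := Real.one_le_rpow h4 (by linarith)
  have h7 : (1 + Real.log x) * (Real.log x ^ A + 1) ≤ 4 * Real.log x ^ (A + 1) := by
    rw [Real.rpow_add hl0, Real.rpow_one]
    calc (1 + Real.log x) * (Real.log x ^ A + 1) ≤ (2 * Real.log x) * (2 * Real.log x ^ A) :=
          mul_le_mul (by linarith) (by linarith) (by positivity) (by positivity)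
      _ = _ := by ring
  have hp : 0 < x ^ (3 * c / 20) := Real.rpow_pos_of_pos hx0 _
  calc C * (1 + Real.log x) * x ^ (3 * c / 20) * (Real.log x ^ A + 1)
      = x ^ (3 * c / 20) * (C * ((1 + Real.log x) * (Real.log x ^ A + 1))) := by ring
    _ ≤ x ^ (3 * c / 20) * (C * (4 * Real.log x ^ (A + 1))) := by gcongr
    _ ≤ x ^ (3 * c / 20) * x ^ (c / 6) := by
        refine mul_le_mul_of_nonneg_left ?_ hp.le
        linarith

end GRZM

open GRZM in
/-- **GRZ**: the Gram matrix of the rough numbers. -/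
theorem specGRZ (hFLW : Pool.Agent.Lib.MP391708.QPA.SpecFLW) (hMLT : SpecMLT) (hGRM : SpecGRM)
    (hRG0 : SpecRG0) (hPSI : SpecPSI) : SpecGRZ := by
  classical
  obtain ⟨C, hC, hF⟩ := hFLW 2 (by norm_num)
  refine ⟨C, hC, fun A hA => ?_⟩
  obtain ⟨c0, hc0, hc01, hcore⟩ := core hGRM hRG0 hPSI A hA
  refine ⟨c0 / 20, by positivity, by linarith, fun b e he heb => ?_⟩
  have t1 : Tendsto (fun x : ℝ => x ^ e) atTop atTop := tendsto_rpow_atTop he
  filter_upwards [hcore, ev C A c0 hC hA hc0, t1.eventually_ge_atTop 2,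
    Real.tendsto_log_atTop.eventually_ge_atTop 2, eventually_ge_atTop (1 : ℝ)] with
    x g1 g2 g3 g4 g5 U hU Y y y' hY hY8 hy hyy hy' a
  have hx0 : 0 < x := by linarith
  have hl0 : 0 < Real.log x := by linarith
  have hYp : 0 < Y := lt_of_lt_of_le (Real.rpow_pos_of_pos hx0 _) hY
  have hY1' : 1 ≤ Y := (Real.one_le_rpow g5 (by norm_num)).trans hY
  have he1 : e ≤ 1 := by
    have h1 : 0 ≤ e * (8 * b) := by positivity
    have h2 : e * (8 * b + 16) = e * (8 * b) + 16 * e := by ring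
    linarith
  set w := ww A x with hw
  have hw2 : 2 ≤ w := by
    calc (2 : ℝ) ≤ Real.log x := g4
      _ = Real.log x ^ (1 : ℝ) := (Real.rpow_one _).symm
      _ ≤ w := Real.rpow_le_rpow_of_exponent_le (by linarith) (by linarith)
  set z := x ^ e with hz
  set E := ∑ i ∈ U, ‖a i‖ ^ 2 with hE
  have hE0 : 0 ≤ E := sum_nonneg fun i _ => by positivity
  set K := Y ^ (1 - c0) * (Real.log x ^ A + 1) * E with hK
  have hK0 : 0 ≤ K := by positivity
  set X := Real.pi * (y' - y) * VP w * E with hX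
  have hX0 : 0 ≤ X := by
    have h1 : 0 ≤ y' - y := by linarith
    have h2 := VP_nonneg w
    have h3 := Real.pi_pos
    positivity
  have H : ∀ d : Gi, d ≠ 0 → rgh w d →
      |(∑ m ∈ (ann (y / nm d) (y' / nm d)).filter (rgh w), ‖∑ i ∈ U, a i * psi i (d * m)‖ ^ 2) -
        X / nm d| ≤ K := fun d hd hdw => g1 U hU Y y y' hY hy hyy hy' a d hd hdw
  have flw := hF b z g3 Gi ((ann y y').filter (rgh w)) (al w)
    (fun n => ‖∑ i ∈ U, a i * psi i n‖ ^ 2) X (gp w) hX0 (fun n _ => by positivity)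
    (fun p _ n _ => by
      unfold al
      split_ifs
      · exact ⟨zero_le_one, le_rfl⟩
      · exact ⟨le_rfl, zero_le_one⟩)
    (fun p hp => gp_bd hw2 p hp)
  -- the left side
  have e1 : ∑ n ∈ (ann y y').filter (rgh w), ‖∑ i ∈ U, a i * psi i n‖ ^ 2 *
      ∏ p ∈ PB z, (1 - al w p n) = ∑ n ∈ RZ w z y y', ‖∑ i ∈ U, a i * psi i n‖ ^ 2 := by
    have e2 : RZ w z y y' = ((ann y y').filter (rgh w)).filter
        (fun n => ∀ p : ℕ, p.Prime → w < (p : ℝ) → (p : ℝ) < z → ¬ p ∣ nm n) := by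
      unfold RZ
      ext n
      simp only [mem_filter, rz]
      tauto
    rw [e2]
    refine Eq.trans (sum_congr rfl fun n _ => ?_) (sum_filter _ _).symm
    rw [prod_al]
    split_ifs
    · rw [mul_one]
    · rw [mul_zero]
  have e3 : X * ∏ p ∈ PB z, (1 - gp w p) = Real.pi * (y' - y) * VZ w z * E := by
    rw [hX]
    unfold VZ
    ring
  have e4 : C * Real.exp (-(b : ℝ)) * X * ∏ p ∈ PB z, (1 - gp w p) =
      C * Real.exp (-(b : ℝ)) * (Real.pi * (y' - y) * VZ w z) * E := by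
    rw [mul_assoc (C * Real.exp (-(b : ℝ))), e3]
    ring
  rw [e1, e3, e4] at flw
  refine flw.trans ?_
  rw [add_mul]
  refine add_le_add le_rfl ?_
  -- the remainders
  set X1 := x ^ (c0 / 20) with hX1
  have hX10 : 0 < X1 := Real.rpow_pos_of_pos hx0 _
  have hzb : z ^ (8 * b + 16) ≤ X1 := by
    rw [hz, hX1, ← Real.rpow_natCast, ← Real.rpow_mul hx0.le]
    refine Real.rpow_le_rpow_of_exponent_le g5 ?_
    push_cast
    exact heb
  have hD : ∀ δ ∈ Pool.Agent.Lib.MP391708.QPA.FLW.Dset z b,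
      |(∑ n ∈ (ann y y').filter (rgh w), ‖∑ i ∈ U, a i * psi i n‖ ^ 2 *
        ∏ p ∈ δ.primeFactors, al w p n) - X * ∏ p ∈ δ.primeFactors, gp w p| ≤ X1 ^ 2 * K := by
    intro δ hδ
    unfold Pool.Agent.Lib.MP391708.QPA.FLW.Dset at hδ
    rw [mem_filter, mem_Icc] at hδ
    obtain ⟨⟨hδ1, hδ2⟩, hs, -⟩ := hδ
    have hδ3 : (δ : ℝ) ≤ X1 := by
      refine le_trans ?_ hzb
      exact (Nat.le_floor_iff (by positivity)).1 hδ2
    refine (rem_bd w y y' K X hw2 hK0 hMLT (fun n => ‖∑ i ∈ U, a i * psi i n‖ ^ 2) H δ hs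
      hδ1).trans ?_
    exact mul_le_mul_of_nonneg_right (pow_le_pow_left₀ (by positivity) hδ3 2) hK0
  have hcard : ((Pool.Agent.Lib.MP391708.QPA.FLW.Dset z b).card : ℝ) ≤ X1 := by
    refine le_trans ?_ hzb
    have h1 : (Pool.Agent.Lib.MP391708.QPA.FLW.Dset z b).card ≤ ⌊z ^ (8 * b + 16)⌋₊ := by
      unfold Pool.Agent.Lib.MP391708.QPA.FLW.Dset
      refine (card_filter_le _ _).trans ?_
      rw [Nat.card_Icc, Nat.add_sub_cancel]
    calc ((Pool.Agent.Lib.MP391708.QPA.FLW.Dset z b).card : ℝ) ≤ (⌊z ^ (8 * b + 16)⌋₊ : ℝ) := by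
          exact_mod_cast h1
      _ ≤ z ^ (8 * b + 16) := Nat.floor_le (by positivity)
  have hsum := sum_le_sum hD
  rw [sum_const, nsmul_eq_mul] at hsum
  have hlz : 1 + Real.log z ≤ 1 + Real.log x := by
    rw [hz, Real.log_rpow hx0]
    nlinarith
  have hlz0 : 0 ≤ 1 + Real.log z := by
    rw [hz, Real.log_rpow hx0]
    positivity
  have hYY : x ^ ((c0 - c0 / 20) / 3) ≤ Y ^ (c0 - c0 / 20) := by
    calc x ^ ((c0 - c0 / 20) / 3) = (x ^ (1 / 3 : ℝ)) ^ (c0 - c0 / 20) := by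
          rw [← Real.rpow_mul hx0.le]
          congr 1
          ring
      _ ≤ Y ^ (c0 - c0 / 20) :=
          Real.rpow_le_rpow (Real.rpow_nonneg hx0.le _) hY (by linarith)
  calc C * (1 + Real.log z) * ∑ δ ∈ Pool.Agent.Lib.MP391708.QPA.FLW.Dset z b,
        |(∑ n ∈ (ann y y').filter (rgh w), ‖∑ i ∈ U, a i * psi i n‖ ^ 2 *
          ∏ p ∈ δ.primeFactors, al w p n) - X * ∏ p ∈ δ.primeFactors, gp w p|
      ≤ C * (1 + Real.log x) * (X1 * (X1 ^ 2 * K)) := by
        refine mul_le_mul (mul_le_mul_of_nonneg_left hlz hC.le) (hsum.trans ?_)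
          (sum_nonneg fun _ _ => abs_nonneg _) (by positivity)
        exact mul_le_mul_of_nonneg_right hcard (by positivity)
    _ = (C * (1 + Real.log x) * X1 ^ 3 * (Real.log x ^ A + 1)) * (Y ^ (1 - c0) * E) := by
        rw [hK]
        ring
    _ ≤ Y ^ (c0 - c0 / 20) * (Y ^ (1 - c0) * E) :=
        mul_le_mul_of_nonneg_right (g2.trans hYY) (by positivity)
    _ = Y ^ (1 - c0 / 20) * E := by
        rw [← mul_assoc, ← Real.rpow_add hYp]
        congr 2
        ring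

end Pool.Agent.Lib.MP391708.XD3
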