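import Pool.Agent.Lib.MP_391708_nt.X3.SpecD

/-!
# THEOREM X for `k = 3` (MP_391708), part D, HMZ: Halász–Montgomery over the rough numbers
-/

set_option autoImplicit false

namespace Pool.Agent.Lib.MP391708.XD3

open Finset Filter Topology Pool.Agent.Lib.MP391708.MR
open Pool.Agent.Lib.MP391708.X
open scoped ComplexConjugate

namespace HMZM

/-- duality -/
lemma dual {ι G : Type} (U : Finset ι) (R : Finset G) (ψ : ι → G → ℂ) (K : ℝ)
    (hK : 0 ≤ K)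
    (H : ∀ a : ι → ℂ, ∑ n ∈ R, ‖∑ i ∈ U, a i * ψ i n‖ ^ 2 ≤ K * ∑ i ∈ U, ‖a i‖ ^ 2)
    (S : Finset G) (hS : S ⊆ R) (a : G → ℂ) :
    ∑ i ∈ U, ‖∑ n ∈ S, a n * ψ i n‖ ^ 2 ≤ K * ∑ n ∈ S, ‖a n‖ ^ 2 := by
  set T : ι → ℂ := fun i => ∑ n ∈ S, a n * ψ i n with hT
  set F : G → ℂ := fun n => ∑ i ∈ U, conj (T i) * ψ i n with hF
  set Q : ℝ := ∑ i ∈ U, ‖T i‖ ^ 2 with hQ
  set N : ℝ := ∑ n ∈ S, ‖a n‖ ^ 2 with hN
  have hQ0 : 0 ≤ Q := sum_nonneg fun i _ => by positivity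
  have hN0 : 0 ≤ N := sum_nonneg fun i _ => by positivity
  have h1 : ((Q : ℝ) : ℂ) = ∑ n ∈ S, a n * F n := by
    calc ((Q : ℝ) : ℂ) = ∑ i ∈ U, conj (T i) * T i := by
          rw [hQ]; push_cast
          exact sum_congr rfl fun i _ => by rw [Complex.conj_mul']
      _ = ∑ i ∈ U, ∑ n ∈ S, a n * (conj (T i) * ψ i n) := by
          refine sum_congr rfl fun i _ => ?_
          conv_lhs => rw [show T i = ∑ n ∈ S, a n * ψ i n from rfl]
          rw [mul_sum]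
          exact sum_congr rfl fun n _ => by ring
      _ = ∑ n ∈ S, a n * F n := by
          rw [sum_comm]
          exact sum_congr rfl fun n _ => by rw [hF, mul_sum]
  have h2 : Q ≤ ∑ n ∈ S, ‖a n‖ * ‖F n‖ := by
    have : Q = ‖((Q : ℝ) : ℂ)‖ := by
      rw [Complex.norm_real, Real.norm_of_nonneg hQ0]
    rw [this, h1]
    refine (norm_sum_le _ _).trans (le_of_eq ?_)
    exact sum_congr rfl fun n _ => norm_mul _ _
  have h3 : (∑ n ∈ S, ‖a n‖ * ‖F n‖) ^ 2 ≤ N * ∑ n ∈ S, ‖F n‖ ^ 2 :=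
    sum_mul_sq_le_sq_mul_sq _ _ _
  have h4 : ∑ n ∈ S, ‖F n‖ ^ 2 ≤ K * Q := by
    refine (sum_le_sum_of_subset_of_nonneg hS fun _ _ _ => by positivity).trans ?_
    refine (H fun i => conj (T i)).trans (le_of_eq ?_)
    simp only [RCLike.norm_conj, hQ]
  have h5 : Q ^ 2 ≤ N * (K * Q) :=
    (pow_le_pow_left₀ hQ0 h2 2).trans (h3.trans (mul_le_mul_of_nonneg_left h4 hN0))
  rcases hQ0.eq_or_lt with h0 | h0
  · rw [← h0]; positivity
  · have : Q * Q ≤ (K * N) * Q := by nlinarith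
    exact le_of_mul_le_mul_right this h0

lemma norm_add_real (z : ℂ) (s : ℝ) : ‖z + s‖ ^ 2 = ‖z‖ ^ 2 + 2 * s * z.re + s ^ 2 := by
  rw [Complex.sq_norm, Complex.sq_norm, Complex.normSq_apply, Complex.normSq_apply]
  simp only [Complex.add_re, Complex.add_im, Complex.ofReal_re, Complex.ofReal_im]
  ring

/-- the row of the trivial character -/
lemma row {ι G : Type} [DecidableEq ι] (U : Finset ι) (R : Finset G) (ψ : ι → G → ℂ) (i₀ : ι)
    (hi : i₀ ∈ U) (h1 : ∀ n ∈ R, ψ i₀ n = 1) (M E : ℝ)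
    (H : ∀ a : ι → ℂ, |(∑ n ∈ R, ‖∑ i ∈ U, a i * ψ i n‖ ^ 2) - M * ∑ i ∈ U, ‖a i‖ ^ 2| ≤
      E * ∑ i ∈ U, ‖a i‖ ^ 2) :
    ∑ i ∈ U.filter (fun i => i ≠ i₀), ‖∑ n ∈ R, ψ i n‖ ^ 2 ≤ (2 * E) ^ 2 := by
  set r : ι → ℂ := fun i => ∑ n ∈ R, ψ i n with hr
  set B2 : ℝ := ∑ i ∈ U.filter (fun i => i ≠ i₀), ‖r i‖ ^ 2 with hB2
  have hB0 : 0 ≤ B2 := sum_nonneg fun i _ => by positivity
  rcases hB0.eq_or_lt with h0 | hpos
  · rw [← h0]; positivity
  set s : ℝ := Real.sqrt B2 with hs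
  have hs0 : 0 < s := Real.sqrt_pos.2 hpos
  have hs2 : s ^ 2 = B2 := Real.sq_sqrt hB0
  set b : ι → ℂ := fun i => if i = i₀ then 0 else conj (r i) with hb
  set d : ι → ℂ := fun i => if i = i₀ then (s : ℂ) else 0 with hd
  set G : G → ℂ := fun n => ∑ i ∈ U, b i * ψ i n with hG
  have hdn : ∀ n ∈ R, ∑ i ∈ U, d i * ψ i n = (s : ℂ) := by
    intro n hn
    rw [sum_eq_single_of_mem i₀ hi (fun j _ hj => by rw [hd]; simp [hj])]
    rw [hd]; simp [h1 n hn]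
  have han : ∀ n ∈ R, ∑ i ∈ U, (b i + d i) * ψ i n = G n + s := by
    intro n hn
    rw [← hdn n hn, hG]
    simp only [add_mul, sum_add_distrib]
  have hbs : ∑ i ∈ U, ‖b i‖ ^ 2 = B2 := by
    rw [hB2, sum_filter]
    refine sum_congr rfl fun i _ => ?_
    rw [hb]
    by_cases h : i = i₀ <;> simp [h]
  have hds : ∑ i ∈ U, ‖d i‖ ^ 2 = s ^ 2 := by
    rw [sum_eq_single_of_mem i₀ hi (fun j _ hj => by rw [hd]; simp [hj])]
    rw [hd]; simp
  have has : ∑ i ∈ U, ‖b i + d i‖ ^ 2 = B2 + s ^ 2 := by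
    rw [← hbs, ← hds, ← sum_add_distrib]
    refine sum_congr rfl fun i _ => ?_
    rw [hb, hd]
    by_cases h : i = i₀ <;> simp [h]
  have hGs : ∑ n ∈ R, G n = (B2 : ℂ) := by
    rw [hG, sum_comm, ← hbs]
    push_cast
    refine sum_congr rfl fun i _ => ?_
    rw [← mul_sum, show (∑ n ∈ R, ψ i n) = r i from rfl]
    rw [hb]
    by_cases h : i = i₀
    · simp [h]
    · simp only [h, if_false, RCLike.norm_conj]
      rw [Complex.conj_mul']
  have hGre : ∑ n ∈ R, (G n).re = B2 := by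
    have := congrArg Complex.re hGs
    rw [Complex.re_sum, Complex.ofReal_re] at this
    exact this
  have e1 : ∑ n ∈ R, ‖∑ i ∈ U, (b i + d i) * ψ i n‖ ^ 2 =
      (∑ n ∈ R, ‖G n‖ ^ 2) + 2 * s * B2 + R.card * s ^ 2 := by
    rw [sum_congr rfl fun n hn => by rw [han n hn, norm_add_real], sum_add_distrib,
      sum_add_distrib, ← mul_sum, hGre, sum_const, nsmul_eq_mul]
  have e2 : ∑ n ∈ R, ‖∑ i ∈ U, d i * ψ i n‖ ^ 2 = R.card * s ^ 2 := by
    rw [sum_congr rfl fun n hn => by rw [hdn n hn], sum_const, nsmul_eq_mul, Complex.norm_real,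
      Real.norm_eq_abs, sq_abs]
  have H1 := (abs_le.1 (H fun i => b i + d i)).2
  have H2 := (abs_le.1 (H b)).1
  have H3 := (abs_le.1 (H d)).1
  rw [e1, has] at H1
  rw [e2, hds] at H3
  rw [hbs] at H2
  rw [show (∑ n ∈ R, ‖∑ i ∈ U, b i * ψ i n‖ ^ 2) = ∑ n ∈ R, ‖G n‖ ^ 2 from rfl] at H2
  rw [hs2] at H1 H3
  have H4 : s * B2 ≤ (2 * E) * B2 := by nlinarith
  have H5 : s ≤ 2 * E := le_of_mul_le_mul_right H4 hpos
  rw [← hs2]
  exact pow_le_pow_left₀ hs0.le H5 2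

end HMZM

theorem specHMZ (hGRZ : SpecGRZ) (hVZB : SpecVZB) : SpecHMZ := by
  obtain ⟨C₁, hC₁, h1⟩ := hGRZ
  obtain ⟨C₂, hC₂, h2⟩ := hVZB
  have hpi := Real.pi_pos
  refine ⟨2 * Real.pi * (1 + C₁) * C₂, by positivity, fun A hA => ?_⟩
  obtain ⟨c, hc0, hc1, h1⟩ := h1 A hA
  refine ⟨c, hc0, hc1, fun b e he hec => ?_⟩
  have he1 : e ≤ 1 := by
    have : (0 : ℝ) ≤ (b : ℝ) := Nat.cast_nonneg b
    nlinarith
  filter_upwards [h1 b e he hec, h2 A e hA he he1, eventually_gt_atTop 1] with x hx1 hx2 hx3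
  intro U hU Y y y' hY1 hY2 hy hyy hyY
  obtain ⟨hV0, hV1⟩ := hx2
  have hlog : 0 < Real.log x := Real.log_pos hx3
  have hel : 0 < e * Real.log x := mul_pos he hlog
  have hx0 : 0 < x := by linarith
  have hY0 : 0 < Y := lt_of_lt_of_le (Real.rpow_pos_of_pos hx0 _) hY1
  have hYc : 0 < Y ^ (1 - c) := Real.rpow_pos_of_pos hY0 _
  have hd0 : 0 ≤ y' - y := by linarith
  have hG := hx1 U hU Y y y' hY1 hY2 hy hyy hyY
  set V := VZ (ww A x) (x ^ e) with hVdef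
  set R := RZ (ww A x) (x ^ e) y y' with hR
  set D : ℝ := (y' - y) / (e * Real.log x) with hD
  have hD0 : 0 ≤ D := div_nonneg hd0 hel.le
  have hVD : Real.pi * (y' - y) * V ≤ Real.pi * C₂ * D := by
    calc Real.pi * (y' - y) * V ≤ Real.pi * (y' - y) * (C₂ / (e * Real.log x)) :=
          mul_le_mul_of_nonneg_left hV1 (by positivity)
      _ = Real.pi * C₂ * D := by rw [hD]; ring
  have hM0 : 0 ≤ Real.pi * (y' - y) * V := by positivity
  have hb0 : 0 < Real.exp (-(b : ℝ)) := Real.exp_pos _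
  have hb1 : Real.exp (-(b : ℝ)) ≤ 1 := Real.exp_le_one_iff.2 (by simp)
  -- (1)
  have P1 : ∀ (S : Finset Gi) (a : Gi → ℂ), S ⊆ R →
      ∑ i ∈ U, ‖∑ n ∈ S, a n * psi i n‖ ^ 2 ≤
        (2 * Real.pi * (1 + C₁) * C₂ * D + Y ^ (1 - c)) * ∑ n ∈ S, ‖a n‖ ^ 2 := by
    intro S a hS
    refine HMZM.dual U R psi _ (by positivity) (fun a => ?_) S hS a
    have h3 := (abs_le.1 (hG a)).2
    have h4 : 0 ≤ ∑ i ∈ U, ‖a i‖ ^ 2 := sum_nonneg fun i _ => by positivity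
    have h5 : Real.pi * (y' - y) * V + (C₁ * Real.exp (-(b : ℝ)) * (Real.pi * (y' - y) * V) +
        Y ^ (1 - c)) ≤ 2 * Real.pi * (1 + C₁) * C₂ * D + Y ^ (1 - c) := by
      have h6 : C₁ * Real.exp (-(b : ℝ)) * (Real.pi * (y' - y) * V) ≤
          C₁ * (Real.pi * (y' - y) * V) := by
        refine mul_le_mul_of_nonneg_right ?_ hM0
        exact mul_le_of_le_one_right hC₁.le hb1
      have h7 : (1 + C₁) * (Real.pi * (y' - y) * V) ≤ (1 + C₁) * (Real.pi * C₂ * D) :=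
        mul_le_mul_of_nonneg_left hVD (by positivity)
      have h8 : 0 ≤ (1 + C₁) * (Real.pi * C₂ * D) := by positivity
      nlinarith
    nlinarith [mul_le_mul_of_nonneg_right h5 h4]
  refine ⟨P1, ?_, ?_⟩
  · -- (2)
    classical
    have h3 := HMZM.row U R psi ix1 hU.one (fun n hn => by simp [psi, ix1, hk, xi]) _ _ hG
    have h4 : ∑ i ∈ U.filter (fun i => i ≠ ix1), ‖∑ n ∈ R, psi i n‖ ^ 2 ≤
        (2 * Real.pi * (1 + C₁) * C₂ * Real.exp (-(b : ℝ)) * D + 2 * Y ^ (1 - c)) ^ 2 := by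
      refine (le_of_eq ?_).trans (h3.trans (pow_le_pow_left₀ (by positivity) ?_ 2))
      · refine sum_congr ?_ fun _ _ => rfl
        ext i; simp
      · have h5 : C₁ * Real.exp (-(b : ℝ)) * (Real.pi * (y' - y) * V) ≤
            C₁ * Real.exp (-(b : ℝ)) * (Real.pi * C₂ * D) :=
          mul_le_mul_of_nonneg_left hVD (by positivity)
        have h6 : 0 ≤ Real.exp (-(b : ℝ)) * (Real.pi * C₂ * D) := by positivity
        nlinarith
    refine (le_of_eq ?_).trans h4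
    refine sum_congr ?_ fun _ _ => rfl
    ext i; simp
  · -- (3)
    have h3 := P1 R (fun _ => 1) (Subset.refl _)
    have h4 : ((R.card : ℝ)) ^ 2 ≤ ∑ i ∈ U, ‖∑ n ∈ R, (fun _ => (1 : ℂ)) n * psi i n‖ ^ 2 := by
      refine le_trans (le_of_eq ?_) (single_le_sum (f := fun i =>
        ‖∑ n ∈ R, (fun _ => (1 : ℂ)) n * psi i n‖ ^ 2) (fun i _ => by positivity) hU.one)
      simp [psi, ix1, hk, xi]
    have h5 : ∑ n ∈ R, ‖(fun _ : Gi => (1 : ℂ)) n‖ ^ 2 = (R.card : ℝ) := by simp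
    rw [h5] at h3
    rcases (Nat.cast_nonneg (α := ℝ) R.card).eq_or_lt with h0 | h0
    · rw [← h0]; positivity
    · have h6 : (R.card : ℝ) * R.card ≤
          (2 * Real.pi * (1 + C₁) * C₂ * D + Y ^ (1 - c)) * R.card := by nlinarith
      exact le_of_mul_le_mul_right h6 h0

end Pool.Agent.Lib.MP391708.XD3
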