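import Pool.Agent.Lib.MP_391708_nt.X3.SpecD

/-!
# THEOREM X for `k = 3` (MP_391708), part D, module MLT: `{n : δ ∣ N(n)}` by Gaussian divisors
-/

set_option autoImplicit false

namespace Pool.Agent.Lib.MP391708.XD3

open Finset Filter Topology Pool.Agent.Lib.MP391708.MR
open Pool.Agent.Lib.MP391708.X
open Pool.Agent.Lib.MP391708.QPA (PB)
open scoped ComplexConjugate

namespace MLTM

/-- the statement, with a bound for the divisors which is stable under products -/
def Good (w : ℝ) (δ : ℕ) : Prop :=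
  ∃ (ι : Type) (D : Finset ι) (d : ι → Gi) (c : ι → ℝ), (D.card : ℝ) ≤ (δ : ℝ) ^ 2 ∧
    (∀ k ∈ D, nm (d k) ∣ δ ^ 2 ∧ |c k| ≤ 1) ∧
    (∀ n : Gi, n ≠ 0 → (∑ k ∈ D, (open scoped Classical in if d k ∣ n then c k else 0)) =
      if δ ∣ nm n then 1 else 0) ∧
    ∑ k ∈ D, c k / (nm (d k) : ℝ) = ∏ p ∈ δ.primeFactors, gp w p

theorem good_one (w : ℝ) : Good w 1 := by
  refine ⟨Unit, {()}, fun _ => 1, fun _ => 1, ?_, ?_, ?_, ?_⟩ <;> simp

theorem self_dvd_nm (x : Gi) : x ∣ ((nm x : ℕ) : Gi) := by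
  refine ⟨star x, ?_⟩
  rw [← Zsqrtd.norm_eq_mul_conj]
  rw [nm_norm]
  have h : 0 ≤ Zsqrtd.norm x := GaussianInt.norm_nonneg x
  have h2 : ((Zsqrtd.norm x).natAbs : ℤ) = Zsqrtd.norm x := Int.natAbs_of_nonneg h
  rw [← Int.cast_natCast, h2]

theorem coprime_of_nm {x y : Gi} (h : Nat.Coprime (nm x) (nm y)) : IsCoprime x y := by
  have h1 : IsCoprime ((nm x : ℕ) : ℤ) ((nm y : ℕ) : ℤ) := Nat.isCoprime_iff_coprime.2 h
  have h2 : IsCoprime ((nm x : ℕ) : Gi) ((nm y : ℕ) : Gi) := by
    have := h1.map (Int.castRingHom Gi)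
    simpa using this
  exact (h2.of_isCoprime_of_dvd_left (self_dvd_nm x)).of_isCoprime_of_dvd_right (self_dvd_nm y)

theorem good_mul {w : ℝ} {a b : ℕ} (hab : Nat.Coprime a b) (ha : Good w a) (hb : Good w b) :
    Good w (a * b) := by
  classical
  obtain ⟨ι, D, d, c, h1, h2, h3, h4⟩ := ha
  obtain ⟨ι', D', d', c', h1', h2', h3', h4'⟩ := hb
  refine ⟨ι × ι', D ×ˢ D', fun q => d q.1 * d' q.2, fun q => c q.1 * c' q.2, ?_, ?_, ?_, ?_⟩
  · rw [card_product]
    push_cast
    rw [mul_pow]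
    exact mul_le_mul h1 h1' (Nat.cast_nonneg _) (by positivity)
  · rintro ⟨i, j⟩ hq
    rw [mem_product] at hq
    refine ⟨?_, ?_⟩
    · rw [nm_mul, mul_pow]
      exact mul_dvd_mul (h2 i hq.1).1 (h2' j hq.2).1
    · change |c i * c' j| ≤ 1
      rw [abs_mul]
      exact mul_le_one₀ (h2 i hq.1).2 (abs_nonneg _) (h2' j hq.2).2
  · intro n hn
    have h5 : (if a * b ∣ nm n then (1 : ℝ) else 0) =
        (if a ∣ nm n then (1 : ℝ) else 0) * (if b ∣ nm n then 1 else 0) := by
      by_cases hA : a ∣ nm n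
      · by_cases hB : b ∣ nm n
        · rw [if_pos hA, if_pos hB, if_pos (hab.mul_dvd_of_dvd_of_dvd hA hB), one_mul]
        · rw [if_neg hB, if_neg (fun h => hB (dvd_trans (dvd_mul_left b a) h)), mul_zero]
      · rw [if_neg hA, if_neg (fun h => hA (dvd_trans (dvd_mul_right a b) h)), zero_mul]
    rw [h5, ← h3 n hn, ← h3' n hn, sum_mul_sum, sum_product]
    refine sum_congr rfl fun i hi => sum_congr rfl fun j hj => ?_
    have hc : IsCoprime (d i) (d' j) := by
      refine coprime_of_nm ?_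
      refine Nat.Coprime.of_dvd (h2 i hi).1 (h2' j hj).1 ?_
      exact Nat.Coprime.pow 2 2 hab
    change (if d i * d' j ∣ n then c i * c' j else 0) = _
    by_cases hA : d i ∣ n
    · by_cases hB : d' j ∣ n
      · rw [if_pos hA, if_pos hB, if_pos (hc.mul_dvd hA hB)]
      · rw [if_neg hB, if_neg (fun h => hB (dvd_trans (dvd_mul_left _ _) h)), mul_zero]
    · rw [if_neg hA, if_neg (fun h => hA (dvd_trans (dvd_mul_right _ _) h)), zero_mul]
  · rw [hab.primeFactors_mul, prod_union hab.disjoint_primeFactors, ← h4, ← h4', sum_mul_sum,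
      sum_product]
    refine sum_congr rfl fun i _ => sum_congr rfl fun j _ => ?_
    rw [nm_mul]
    push_cast
    rw [mul_div_mul_comm]

theorem nm_natCast (p : ℕ) : nm ((p : ℕ) : Gi) = p ^ 2 := by
  unfold nm
  simp [Int.natAbs_pow]

theorem nm_star (x : Gi) : nm (star x) = nm x := by
  unfold nm
  simp

theorem nm_cast_eq (x : Gi) : ((nm x : ℕ) : Gi) = x * star x := by
  rw [← Zsqrtd.norm_eq_mul_conj]
  rw [nm_norm]
  have h : 0 ≤ Zsqrtd.norm x := GaussianInt.norm_nonneg x
  have h2 : ((Zsqrtd.norm x).natAbs : ℤ) = Zsqrtd.norm x := Int.natAbs_of_nonneg h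
  rw [← Int.cast_natCast, h2]

theorem dvd_star {x y : Gi} (h : x ∣ star y) : star x ∣ y := by
  obtain ⟨z, hz⟩ := h
  refine ⟨star z, ?_⟩
  have := congrArg star hz
  rwa [star_star, star_mul'] at this

theorem natCast_dvd {a b : ℕ} (h : a ∣ b) : ((a : ℕ) : Gi) ∣ ((b : ℕ) : Gi) := by
  obtain ⟨c, rfl⟩ := h
  exact ⟨(c : Gi), by push_cast; rfl⟩

theorem good_three {w : ℝ} {p : ℕ} (hp : p.Prime) (hw : w < (p : ℝ)) (h3 : p % 4 = 3) :
    Good w p := by
  classical
  have := Fact.mk hp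
  have hpr : Prime ((p : ℕ) : Gi) := GaussianInt.prime_of_nat_prime_of_mod_four_eq_three p h3
  have hp1 : (1 : ℝ) ≤ p := by exact_mod_cast hp.one_lt.le
  refine ⟨Unit, {()}, fun _ => (p : Gi), fun _ => 1, ?_, ?_, ?_, ?_⟩
  · rw [card_singleton]
    push_cast
    nlinarith
  · intro k _
    exact ⟨by rw [nm_natCast], by simp⟩
  · intro n hn
    rw [sum_singleton]
    have h5 : ((p : ℕ) : Gi) ∣ n ↔ p ∣ nm n := by
      constructor
      · intro h
        have := nm_dvd h
        rw [nm_natCast] at this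
        exact dvd_trans (dvd_pow_self p two_ne_zero) this
      · intro h
        have h6 := natCast_dvd h
        rw [nm_cast_eq] at h6
        rcases hpr.dvd_or_dvd h6 with h7 | h7
        · exact h7
        · have h8 := dvd_star h7
          have h9 : star ((p : ℕ) : Gi) = (p : Gi) := by
            rw [star_natCast]
          rwa [h9] at h8
    by_cases h : p ∣ nm n
    · rw [if_pos h, if_pos (h5.2 h)]
    · rw [if_neg h, if_neg (fun h' => h (h5.1 h'))]
  · rw [sum_singleton, hp.primeFactors, prod_singleton, nm_natCast]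
    unfold gp
    rw [if_pos hw, if_neg (by omega)]
    push_cast
    rfl

theorem good_split {w : ℝ} {p : ℕ} (hp : p.Prime) (hw : w < (p : ℝ)) (h1 : p % 4 = 1) :
    Good w p := by
  classical
  have := Fact.mk hp
  obtain ⟨a, b, hab⟩ := Nat.Prime.sq_add_sq (p := p) (by omega)
  have hp2 : 2 < p := by
    rcases hp.two_le.lt_or_eq with h | h
    · exact h
    · omega
  set π : Gi := ⟨(a : ℤ), (b : ℤ)⟩ with hπ
  have hn : nm π = p := by
    unfold nm
    rw [hπ]
    change ((a : ℤ) ^ 2 + (b : ℤ) ^ 2).natAbs = p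
    rw [← hab]
    exact_mod_cast Int.natAbs_natCast (a ^ 2 + b ^ 2)
  have hn' : nm (star π) = p := by rw [nm_star, hn]
  have hpi : Prime π := prime_of_nm_prime (by rw [hn]; exact hp)
  have hpi' : Prime (star π) := prime_of_nm_prime (by rw [hn']; exact hp)
  have hpp : ((p : ℕ) : Gi) = π * star π := by
    rw [← nm_cast_eq, hn]
  have hnd : ¬ star π ∣ π := by
    intro h
    have h2 : star π ∣ ((2 * a : ℕ) : Gi) := by
      have h3 : ((2 * a : ℕ) : Gi) = π + star π := by
        rw [hπ]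
        refine Zsqrtd.ext ?_ ?_
        · simp
          ring
        · simp
      rw [h3]
      exact dvd_add h dvd_rfl
    have h4 := nm_dvd h2
    rw [hn', nm_natCast] at h4
    have h5 : p ∣ 2 * a := hp.dvd_of_dvd_pow h4
    have h6 : p ∣ a := by
      rcases (Nat.Prime.dvd_mul hp).1 h5 with h | h
      · exact absurd (Nat.le_of_dvd (by norm_num) h) (by omega)
      · exact h
    have h7 : a = 0 := by
      by_contra ha
      have h8 := Nat.le_of_dvd (Nat.pos_of_ne_zero ha) h6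
      nlinarith [Nat.zero_le (b ^ 2)]
    rw [h7] at hab
    have h9 : b ^ 2 = p := by
      rw [← hab]
      ring
    have h10 : ¬ Nat.Prime (b ^ 2) := by
      intro hq
      exact (Nat.Prime.prime hq).irreducible.not_isSquare ⟨b, by ring⟩
    rw [h9] at h10
    exact h10 hp
  have hA : ∀ n : Gi, p ∣ nm n ↔ (π ∣ n ∨ star π ∣ n) := by
    intro n
    constructor
    · intro h
      have h6 := natCast_dvd h
      rw [nm_cast_eq, hpp] at h6
      rcases hpi.dvd_or_dvd (dvd_trans (dvd_mul_right π (star π)) h6) with h7 | h7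
      · exact Or.inl h7
      · exact Or.inr (dvd_star h7)
    · rintro (h | h)
      · have := nm_dvd h
        rwa [hn] at this
      · have := nm_dvd h
        rwa [hn'] at this
  have hB : ∀ n : Gi, ((p : ℕ) : Gi) ∣ n ↔ (π ∣ n ∧ star π ∣ n) := by
    intro n
    rw [hpp]
    constructor
    · intro h
      exact ⟨dvd_trans (dvd_mul_right _ _) h, dvd_trans (dvd_mul_left _ _) h⟩
    · rintro ⟨⟨m, rfl⟩, h2⟩
      rcases hpi'.dvd_or_dvd h2 with h | h
      · exact absurd h hnd
      · exact mul_dvd_mul_left π h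
  have hp3 : (3 : ℝ) ≤ p := by exact_mod_cast hp2
  refine ⟨Fin 3, univ, ![π, star π, (p : Gi)], ![1, 1, -1], ?_, ?_, ?_, ?_⟩
  · rw [card_univ, Fintype.card_fin]
    push_cast
    nlinarith
  · intro k _
    fin_cases k
    · refine ⟨?_, by simp⟩
      change nm π ∣ p ^ 2
      rw [hn]
      exact dvd_pow_self p two_ne_zero
    · refine ⟨?_, by simp⟩
      change nm (star π) ∣ p ^ 2
      rw [hn']
      exact dvd_pow_self p two_ne_zero
    · refine ⟨?_, by simp⟩
      change nm (p : Gi) ∣ p ^ 2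
      rw [nm_natCast]
  · intro n _
    rw [Fin.sum_univ_three]
    change (if π ∣ n then (1 : ℝ) else 0) + (if star π ∣ n then (1 : ℝ) else 0) +
      (if ((p : ℕ) : Gi) ∣ n then (-1 : ℝ) else 0) = if p ∣ nm n then 1 else 0
    have hA' := hA n
    have hB' := hB n
    by_cases h1 : π ∣ n <;> by_cases h2 : star π ∣ n <;>
      simp [h1, h2, hA', hB']
  · rw [Fin.sum_univ_three, hp.primeFactors, prod_singleton]
    change (1 : ℝ) / (nm π : ℝ) + 1 / (nm (star π) : ℝ) + (-1) / (nm ((p : ℕ) : Gi) : ℝ) = gp w p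
    rw [hn, hn', nm_natCast]
    unfold gp
    rw [if_pos hw, if_pos h1]
    push_cast
    ring

theorem good (w : ℝ) (hw : 2 ≤ w) (δ : ℕ) : Squarefree δ →
    (∀ p : ℕ, p.Prime → p ∣ δ → w < (p : ℝ)) → Good w δ := by
  induction δ using induction_on_primes with
  | zero =>
    intro h
    exact absurd h not_squarefree_zero
  | one =>
    intro _ _
    exact good_one w
  | prime_mul p a hp ih =>
    intro hs hd
    rw [Nat.squarefree_mul_iff] at hs
    have hwp := hd p hp (dvd_mul_right p a)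
    refine good_mul hs.1 ?_ (ih hs.2.2 fun q hq hqa => hd q hq (dvd_trans hqa (dvd_mul_left a p)))
    have hp2 : 2 < p := by
      have : (2 : ℝ) < p := lt_of_le_of_lt hw hwp
      exact_mod_cast this
    have hodd : p % 2 = 1 := by
      rcases hp.eq_two_or_odd with h | h
      · omega
      · exact h
    rcases (by omega : p % 4 = 1 ∨ p % 4 = 3) with h | h
    · exact good_split hp hwp h
    · exact good_three hp hwp h

end MLTM

theorem specMLT : SpecMLT := by
  intro w δ hw hs hd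
  obtain ⟨ι, D, d, c, h1, h2, h3, h4⟩ := MLTM.good w hw δ hs hd
  have hδ : δ ≠ 0 := fun h => by
    rw [h] at hs
    exact not_squarefree_zero hs
  refine ⟨ι, D, d, c, h1, ?_, h3, h4⟩
  intro k hk
  obtain ⟨h5, h6⟩ := h2 k hk
  refine ⟨?_, ?_, h6⟩
  · intro h0
    rw [h0, nm_zero, zero_dvd_iff] at h5
    exact hδ (pow_eq_zero_iff two_ne_zero |>.1 h5)
  · intro π hπ hπd
    have h7 : nm π ∣ δ ^ 2 := dvd_trans (nm_dvd hπd) h5
    have h8 : nm π ≠ 1 := fun h => hπ.not_unit (isUnit_iff_nm.2 h)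
    obtain ⟨q, hq, hqd⟩ := Nat.exists_prime_and_dvd h8
    have h9 : q ∣ δ := hq.dvd_of_dvd_pow (dvd_trans hqd h7)
    have h10 := hd q hq h9
    have h11 : q ≤ nm π := Nat.le_of_dvd (nm_pos hπ.ne_zero) hqd
    exact lt_of_lt_of_le h10 (by exact_mod_cast h11)

end Pool.Agent.Lib.MP391708.XD3
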