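import Pool.Agent.Lib.MP_391708_nt.X3.SpecD

/-!
# THEOREM X for `k = 3` (MP_391708), part D, module RLE: the number of representations
-/

set_option autoImplicit false

namespace Pool.Agent.Lib.MP391708.XD3

open Finset Filter Topology Pool.Agent.Lib.MP391708.MR
open Pool.Agent.Lib.MP391708.X
open Pool.Agent.Lib.MP391708.QPA (PB)

namespace RLEM

theorem self_dvd_nm (x : Gi) : x ∣ ((nm x : ℕ) : Gi) := by
  refine ⟨star x, ?_⟩
  rw [← Zsqrtd.norm_eq_mul_conj]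
  rw [nm_norm]
  have h : 0 ≤ Zsqrtd.norm x := GaussianInt.norm_nonneg x
  have h2 : ((Zsqrtd.norm x).natAbs : ℤ) = Zsqrtd.norm x := Int.natAbs_of_nonneg h
  rw [← Int.cast_natCast, h2]

theorem nm_natCast (n : ℕ) : nm (n : Gi) = n ^ 2 := by
  have h : ((nm (n : Gi) : ℕ) : ℤ) = (n : ℤ) ^ 2 := by
    rw [nm_cast]
    simp
  exact_mod_cast h

/-- a Gaussian prime divides a rational prime -/
theorem exists_rat {π : Gi} (hπ : Prime π) : ∃ p : ℕ, p.Prime ∧ π ∣ (p : Gi) := by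
  have key : ∀ n : ℕ, n ≠ 0 → π ∣ (n : Gi) → ∃ p : ℕ, p.Prime ∧ π ∣ (p : Gi) := by
    intro n
    induction n using Nat.strong_induction_on with
    | _ n ih =>
      intro hn hd
      by_cases h1 : n = 1
      · subst h1
        exact absurd (isUnit_of_dvd_one (by simpa using hd)) hπ.not_isUnit
      · obtain ⟨q, hq, k, hk⟩ := Nat.exists_prime_and_dvd h1
        rw [hk] at hd
        push_cast at hd
        rcases hπ.dvd_or_dvd hd with h2 | h2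
        · exact ⟨q, hq, h2⟩
        · have hk0 : k ≠ 0 := by
            rintro rfl
            exact hn (by rw [hk, mul_zero])
          refine ih k ?_ hk0 h2
          rw [hk]
          have := hq.two_le
          have hk1 : 0 < k := Nat.pos_of_ne_zero hk0
          nlinarith
  exact key (nm π) (nm_pos hπ.ne_zero).ne' (self_dvd_nm π)

/-- classification of the Gaussian primes -/
theorem classify {π : Gi} (hπ : Prime π) :
    (nm π).Prime ∨ ∃ q : ℕ, q.Prime ∧ q % 4 = 3 ∧ (q : Gi) ∣ π := by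
  obtain ⟨p, hp, hd⟩ := exists_rat hπ
  have h1 : nm π ∣ p ^ 2 := by
    rw [← nm_natCast]
    exact nm_dvd hd
  have h0 : nm π ≠ 1 := fun h => hπ.not_isUnit (isUnit_iff_nm.2 h)
  obtain ⟨k, hk, hk'⟩ := (Nat.dvd_prime_pow hp).1 h1
  interval_cases k
  · exact absurd (by simpa using hk') h0
  · left
    rw [hk', pow_one]
    exact hp
  · right
    obtain ⟨t, ht⟩ := hd
    have h2 : nm t = 1 := by
      have h3 : nm (p : Gi) = nm π * nm t := by rw [ht, nm_mul]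
      rw [nm_natCast, hk'] at h3
      have h4 : 0 < p ^ 2 := by have := hp.pos; positivity
      exact Nat.eq_of_mul_eq_mul_left h4 (h3.symm.trans (mul_one _).symm)
    have h3 : Associated π (p : Gi) := by
      rw [ht]
      exact associated_mul_unit_right π t (isUnit_iff_nm.2 h2)
    have : Fact p.Prime := ⟨hp⟩
    exact ⟨p, hp, (GaussianInt.prime_iff_mod_four_eq_three_of_nat_prime p).1
      (h3.prime hπ), h3.symm.dvd⟩

theorem mod_four {π : Gi} (h : (nm π).Prime) (h2 : 2 < nm π) : nm π % 4 = 1 := by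
  have h1 : nm π % 2 = 1 := by
    rcases h.eq_two_or_odd with h3 | h3
    · omega
    · exact h3
  have h3 := nm_cast π
  rcases Int.even_or_odd' π.re with ⟨a, ha | ha⟩ <;>
    rcases Int.even_or_odd' π.im with ⟨b, hb | hb⟩
  · rw [ha, hb] at h3
    have h4 : ((nm π : ℕ) : ℤ) = 2 * (2 * a ^ 2 + 2 * b ^ 2) := by rw [h3]; ring
    omega
  · rw [ha, hb] at h3
    have h4 : ((nm π : ℕ) : ℤ) = 4 * (a ^ 2 + b ^ 2 + b) + 1 := by rw [h3]; ring
    omega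
  · rw [ha, hb] at h3
    have h4 : ((nm π : ℕ) : ℤ) = 4 * (a ^ 2 + b ^ 2 + a) + 1 := by rw [h3]; ring
    omega
  · rw [ha, hb] at h3
    have h4 : ((nm π : ℕ) : ℤ) = 2 * (2 * a ^ 2 + 2 * a + 2 * b ^ 2 + 2 * b + 1) := by
      rw [h3]; ring
    omega

/-- Every nonzero Gaussian integer has an associate in the half open first quadrant. -/
theorem exists_assoc (z : Gi) (hz : z ≠ 0) :
    ∃ z' : Gi, Associated z z' ∧ nm z' = nm z ∧ 0 < z'.re ∧ 0 ≤ z'.im := by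
  have hI : IsUnit (⟨0, 1⟩ : Gi) := by
    refine IsUnit.of_mul_eq_one (⟨0, -1⟩ : Gi) ?_
    refine Zsqrtd.ext ?_ ?_
    · simp [Zsqrtd.re_mul]
    · simp [Zsqrtd.im_mul]
  have hnI : nm (⟨0, 1⟩ : Gi) = 1 := nm_I
  have hrot : ∀ w : Gi, Associated w (w * ⟨0, 1⟩) ∧ nm (w * ⟨0, 1⟩) = nm w ∧
      (w * ⟨0, 1⟩).re = -w.im ∧ (w * ⟨0, 1⟩).im = w.re := by
    intro w
    refine ⟨associated_mul_unit_right w _ hI, by rw [nm_mul, hnI, mul_one], ?_, ?_⟩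
    · rw [Zsqrtd.re_mul]
      simp
    · rw [Zsqrtd.im_mul]
      simp
  have hz2 : z.re ≠ 0 ∨ z.im ≠ 0 := by
    by_contra h
    push Not at h
    exact hz (Zsqrtd.ext h.1 h.2)
  obtain ⟨a1, n1, r1, i1⟩ := hrot z
  obtain ⟨a2, n2, r2, i2⟩ := hrot (z * ⟨0, 1⟩)
  obtain ⟨a3, n3, r3, i3⟩ := hrot (z * ⟨0, 1⟩ * ⟨0, 1⟩)
  by_cases h0 : 0 < z.re ∧ 0 ≤ z.im
  · exact ⟨z, Associated.refl z, rfl, h0.1, h0.2⟩
  by_cases h1 : z.im < 0 ∧ 0 ≤ z.re
  · exact ⟨_, a1, n1, by rw [r1]; omega, by rw [i1]; omega⟩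
  by_cases h2 : z.re < 0 ∧ z.im ≤ 0
  · exact ⟨_, a1.trans a2, n2.trans n1, by rw [r2, i1]; omega, by rw [i2, r1]; omega⟩
  · exact ⟨_, (a1.trans a2).trans a3, (n3.trans n2).trans n1, by rw [r3, i2, r1]; omega,
      by rw [i3, r2, i1]; omega⟩

/-- a split prime of norm in `(P, Q]` has an associate in `GP P Q` -/
theorem to_GP {π : Gi} {P Q : ℝ} (h : (nm π).Prime) (h2 : 2 < nm π) (hP : P < (nm π : ℝ))
    (hQ : (nm π : ℝ) ≤ Q) : ∃ π' : Gi, Associated π π' ∧ nm π' = nm π ∧ π' ∈ GP P Q := by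
  have hne : π ≠ 0 := by
    rintro rfl
    rw [nm_eq_zero.2 rfl] at h
    exact Nat.not_prime_zero h
  obtain ⟨π', h3, h4, h5, h6⟩ := exists_assoc π hne
  refine ⟨π', h3, h4, mem_GP.2 ⟨h5, ?_, by rw [h4]; exact h, by rw [h4]; exact mod_four h h2,
    by rw [h4]; exact hP, by rw [h4]; exact hQ⟩⟩
  rcases lt_or_eq_of_le h6 with h7 | h7
  · exact h7
  · exfalso
    have h8 := nm_cast π'
    rw [← h7] at h8
    have h9 : nm π' = π'.re.natAbs * π'.re.natAbs := by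
      have : ((nm π' : ℕ) : ℤ) = ((π'.re.natAbs * π'.re.natAbs : ℕ) : ℤ) := by
        push_cast
        rw [h8, abs_mul_abs_self]
        ring
      exact_mod_cast this
    rw [← h4, h9] at h
    have h10 : π'.re.natAbs ≠ 1 := by
      intro h11
      rw [h11] at h
      exact Nat.not_prime_one (by simpa using h)
    exact Nat.not_prime_mul h10 h10 h

section tt

variable {z κ : ℝ} (hz : 4 ≤ z) (hκ : 0 < κ)
include hz hκ

omit hκ in
theorem c_pos : 0 < (⌈z⌉₊ : ℝ) - 1 := by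
  have := Nat.le_ceil z
  linarith

omit hκ in
theorem tt_pos (v : ℕ) : 0 < tt z κ v := mul_pos (c_pos hz) (Real.exp_pos _)

omit hz hκ in
theorem tt_succ (v : ℕ) : tt z κ (v + 1) = tt z κ v * Real.exp κ := by
  unfold tt
  rw [mul_assoc, ← Real.exp_add]
  congr 2
  push_cast
  ring

theorem tt_mono {v v' : ℕ} (h : v ≤ v') : tt z κ v ≤ tt z κ v' := by
  unfold tt
  have h1 := c_pos hz
  have h2 : (v : ℝ) ≤ v' := by exact_mod_cast h
  gcongr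

omit hz hκ in
theorem tt_zero : tt z κ 0 = (⌈z⌉₊ : ℝ) - 1 := by
  unfold tt
  simp

theorem ge_z {v : ℕ} {n : ℕ} (h : tt z κ v < (n : ℝ)) : z ≤ n := by
  have h1 : tt z κ 0 < (n : ℝ) := lt_of_le_of_lt (tt_mono hz hκ (Nat.zero_le v)) h
  rw [tt_zero] at h1
  have h2 : ((⌈z⌉₊ : ℕ) : ℝ) < (n : ℝ) + 1 := by linarith
  have h3 : ⌈z⌉₊ < n + 1 := by exact_mod_cast h2
  have h4 : ⌈z⌉₊ ≤ n := by omega
  exact (Nat.le_ceil z).trans (by exact_mod_cast h4)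

end tt

open scoped Classical in
/-- the set of the representations -/
noncomputable def RS (w z κ y y' : ℝ) (V : ℕ) (n : Gi) : Finset (Σ _ : ℕ, Gi × Gi) :=
  (range V).sigma (fun v => (cl z κ v ×ˢ MS w z κ y y' v).filter (fun q => q.1 * q.2 = n))

theorem rr_eq (w z κ y y' : ℝ) (V : ℕ) (n : Gi) :
    rr w z κ y y' V n = (RS w z κ y y' V n).card := by
  unfold rr RS
  rw [card_sigma]

theorem mem_RS {w z κ y y' : ℝ} {V : ℕ} {n : Gi} {q : Σ _ : ℕ, Gi × Gi} :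
    q ∈ RS w z κ y y' V n ↔ q.1 < V ∧ q.2.1 ∈ cl z κ q.1 ∧ q.2.2 ∈ MS w z κ y y' q.1 ∧
      q.2.1 * q.2.2 = n := by
  unfold RS
  rw [mem_sigma, mem_range, mem_filter, mem_product]
  tauto

open scoped Classical in
theorem mem_MS {w z κ y y' : ℝ} {v : ℕ} {m : Gi} : m ∈ MS w z κ y y' v ↔
    m ∈ RZ w z (y / tt z κ v) (y' / tt z κ v) ∧
      (¬ IsUnit m ∧ ∀ π : Gi, Prime π → π ∣ m → (nm π).Prime ∧ tt z κ (v + 1) < (nm π : ℝ)) := by
  unfold MS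
  rw [mem_filter]

open scoped Classical in
theorem mem_RZ {w z y y' : ℝ} {n : Gi} : n ∈ RZ w z y y' ↔
    (n ≠ 0 ∧ y < (nm n : ℝ) ∧ (nm n : ℝ) ≤ y') ∧ rz w z n := by
  unfold RZ
  rw [mem_filter, mem_ann]

/-- one half of the uniqueness -/
theorem uniq {w z κ y y' : ℝ} (hz : 4 ≤ z) (hκ : 0 < κ) {v v' : ℕ} {π m π' m' : Gi}
    (h : π * m = π' * m') (h1 : π ∈ cl z κ v) (h2 : π' ∈ cl z κ v')
    (h3 : m' ∈ MS w z κ y y' v') (hv : v ≤ v') : v = v' ∧ π = π' ∧ m = m' := by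
  have hp : Prime π := GP_prime h1
  have hn1 := (mem_GP.1 h1).2.2.2.2
  have hn2 := (mem_GP.1 h2).2.2.2.2
  have hd : π ∣ π' * m' := ⟨m, h.symm⟩
  rcases hp.dvd_or_dvd hd with h4 | h4
  · have h5 : π' = π := GP_eq_of_dvd h1 h2 h4
    rcases lt_or_eq_of_le hv with h6 | h6
    · exfalso
      have h7 := tt_mono (z := z) (κ := κ) hz hκ (Nat.succ_le_of_lt h6)
      rw [h5] at hn2
      have h8 := hn2.1
      have h9 := hn1.2
      simp only [Nat.succ_eq_add_one] at h7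
      linarith
    · refine ⟨h6, h5.symm, ?_⟩
      rw [h5] at h
      exact mul_left_cancel₀ hp.ne_zero h
  · exfalso
    have h5 := ((mem_MS.1 h3).2.2 π hp h4).2
    have h6 := tt_mono (z := z) (κ := κ) hz hκ (Nat.succ_le_succ hv)
    simp only [Nat.succ_eq_add_one] at h6
    have h7 := hn1.2
    linarith

theorem card_le {w z κ y y' : ℝ} (hz : 4 ≤ z) (hκ : 0 < κ) (V : ℕ) (n : Gi) :
    (RS w z κ y y' V n).card ≤ 1 := by
  rw [card_le_one]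
  intro a ha b hb
  obtain ⟨v, π, m⟩ := a
  obtain ⟨v', π', m'⟩ := b
  rw [mem_RS] at ha hb
  simp only at ha hb
  rcases le_total v v' with h | h
  · obtain ⟨h1, h2, h3⟩ := uniq hz hκ (ha.2.2.2.trans hb.2.2.2.symm) ha.2.1 hb.2.1 hb.2.2.1 h
    subst h1 h2 h3
    rfl
  · obtain ⟨h1, h2, h3⟩ := uniq hz hκ (hb.2.2.2.trans ha.2.2.2.symm) hb.2.1 ha.2.1 ha.2.2.1 h
    subst h1 h2 h3
    rfl

theorem partB {w z κ y y' : ℝ} (_hw : 2 ≤ w) (hwz : w < z) (hz : 4 ≤ z) (hκ : 0 < κ)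
    {v : ℕ} {π m n : Gi} (h1 : π ∈ cl z κ v) (h2 : m ∈ MS w z κ y y' v) (hn : π * m = n) :
    n ∈ RZ w z y (y' * Real.exp κ) ∧ ¬ (nm n).Prime := by
  have hp : Prime π := GP_prime h1
  obtain ⟨_, _, hpp, _, hn1, hn2⟩ := mem_GP.1 h1
  obtain ⟨h3, h4, h5⟩ := mem_MS.1 h2
  obtain ⟨⟨hm0, hm1, hm2⟩, hm3⟩ := mem_RZ.1 h3
  have ht := tt_pos (κ := κ) hz v
  have hnn : (nm n : ℝ) = nm π * nm m := by
    rw [← hn, nm_mul]
    push_cast
    rfl
  have hpz : z ≤ nm π := ge_z hz hκ hn1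
  rw [div_lt_iff₀ ht] at hm1
  rw [le_div_iff₀ ht] at hm2
  have hmp : (0 : ℝ) < nm m := nm_posR hm0
  refine ⟨mem_RZ.2 ⟨⟨?_, ?_, ?_⟩, ?_, ?_⟩, ?_⟩
  · rw [← hn]
    exact mul_ne_zero hp.ne_zero hm0
  · rw [hnn]
    nlinarith
  · rw [hnn]
    rw [tt_succ] at hn2
    have he := Real.exp_pos κ
    calc (nm π : ℝ) * nm m ≤ (tt z κ v * Real.exp κ) * nm m := by gcongr
      _ = (nm m * tt z κ v) * Real.exp κ := by ring
      _ ≤ y' * Real.exp κ := by gcongr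
  · intro ρ hρ hd
    rw [← hn] at hd
    rcases hρ.dvd_or_dvd hd with h6 | h6
    · have h7 : Associated ρ π := (hρ.dvd_prime_iff_associated hp).1 h6
      have h8 : nm π ∣ nm ρ := nm_dvd h7.symm.dvd
      have h9 : nm π ≤ nm ρ := Nat.le_of_dvd (nm_pos hρ.ne_zero) h8
      have h10 : (nm π : ℝ) ≤ nm ρ := by exact_mod_cast h9
      linarith
    · exact hm3.1 ρ hρ h6
  · intro q hq hq1 hq2 hd
    rw [← hn, nm_mul] at hd
    rcases (Nat.Prime.dvd_mul hq).1 hd with h6 | h6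
    · have h7 := (Nat.prime_dvd_prime_iff_eq hq hpp).1 h6
      rw [← h7] at hpz
      linarith
    · exact hm3.2 q hq hq1 hq2 h6
  · rw [← hn, nm_mul]
    refine Nat.not_prime_mul hpp.one_lt.ne' ?_
    intro h6
    exact h4 (isUnit_iff_nm.2 h6)

/-- a prime factor of least norm -/
theorem least {n : Gi} (h0 : n ≠ 0) (hu : ¬ IsUnit n) : ∃ π : Gi, Prime π ∧ π ∣ n ∧
    ∀ ρ : Gi, Prime ρ → ρ ∣ n → nm π ≤ nm ρ := by
  classical
  obtain ⟨π0, hπ0, hd0⟩ := WfDvdMonoid.exists_irreducible_factor hu h0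
  have hex : ∃ k : ℕ, ∃ π : Gi, Prime π ∧ π ∣ n ∧ nm π = k := ⟨nm π0, π0, hπ0.prime, hd0, rfl⟩
  obtain ⟨π, h1, h2, h3⟩ := Nat.find_spec hex
  refine ⟨π, h1, h2, fun ρ hρ hd => ?_⟩
  rw [h3]
  exact Nat.find_min' hex ⟨ρ, hρ, hd, rfl⟩

theorem partC {w z κ y y' : ℝ} {V : ℕ} (hw : 2 ≤ w) (hz : 4 ≤ z)
    (hy : 1 ≤ y) (hV : y' ≤ (tt z κ V) ^ 2) {n : Gi} (hn : n ∈ RZ w z y y')
    (hnp : ¬ (nm n).Prime) (hexc : ¬ exc z κ y y' n) :
    ∃ q, q ∈ RS w z κ y y' V n := by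
  obtain ⟨⟨hn0, hn1, hn2⟩, hrg, hrz⟩ := mem_RZ.1 hn
  unfold exc at hexc
  push Not at hexc
  obtain ⟨he1, _, he3, he4⟩ := hexc
  have hu : ¬ IsUnit n := by
    intro h
    rw [isUnit_iff_nm] at h
    rw [h] at hn1
    push_cast at hn1
    linarith
  have hcl : ∀ ρ : Gi, Prime ρ → ρ ∣ n → (nm ρ).Prime ∧ 2 < nm ρ := by
    intro ρ hρ hd
    have h2 : w < (nm ρ : ℝ) := hrg ρ hρ hd
    have h3 : (2 : ℝ) < (nm ρ : ℝ) := by linarith
    refine ⟨?_, by exact_mod_cast h3⟩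
    rcases classify hρ with h | ⟨q, hq, hq4, hqd⟩
    · exact h
    · exact absurd (dvd_trans hqd hd) (he3 q hq hq4)
  obtain ⟨π0, hπ0, hd0, hmin⟩ := least hn0 hu
  obtain ⟨hpp, hp2⟩ := hcl π0 hπ0 hd0
  have hwp : w < (nm π0 : ℝ) := hrg π0 hπ0 hd0
  have hpz : z ≤ (nm π0 : ℝ) := by
    by_contra h
    push Not at h
    exact hrz (nm π0) hpp hwp h (nm_dvd hd0)
  obtain ⟨m0, hm0⟩ := hd0
  have hm0u : ¬ IsUnit m0 := by
    intro h
    rw [isUnit_iff_nm] at h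
    apply hnp
    rw [hm0, nm_mul, h, mul_one]
    exact hpp
  have hm00 : m0 ≠ 0 := by
    rintro rfl
    exact hn0 (by rw [hm0, mul_zero])
  have hmn : nm π0 ≤ nm m0 := by
    obtain ⟨ρ, hρ, hρd, _⟩ := least hm00 hm0u
    have h1 : ρ ∣ n := by
      rw [hm0]
      exact hρd.mul_left _
    exact (hmin ρ hρ h1).trans (Nat.le_of_dvd (nm_pos hm00) (nm_dvd hρd))
  have hnn : (nm n : ℝ) = nm π0 * nm m0 := by
    rw [hm0, nm_mul]
    push_cast
    rfl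
  have hmnR : (nm π0 : ℝ) ≤ nm m0 := by exact_mod_cast hmn
  have hπpos : (0 : ℝ) < nm π0 := by linarith
  have hPV : (nm π0 : ℝ) ≤ tt z κ V := by
    have h1 : (nm π0 : ℝ) ^ 2 ≤ (tt z κ V) ^ 2 := by
      calc (nm π0 : ℝ) ^ 2 = nm π0 * nm π0 := by ring
        _ ≤ nm π0 * nm m0 := by gcongr
        _ = nm n := hnn.symm
        _ ≤ y' := hn2
        _ ≤ _ := hV
    exact le_of_sq_le_sq h1 (tt_pos hz V).le
  obtain ⟨v, hvV, hv1, hv2⟩ : ∃ v : ℕ, v < V ∧ tt z κ v < (nm π0 : ℝ) ∧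
      (nm π0 : ℝ) ≤ tt z κ (v + 1) := by
    classical
    have hex : ∃ k : ℕ, (nm π0 : ℝ) ≤ tt z κ k := ⟨V, hPV⟩
    have h0 : Nat.find hex ≠ 0 := by
      intro h
      have h1 := Nat.find_spec hex
      rw [h, tt_zero] at h1
      have h2 : (⌈z⌉₊ : ℝ) ≤ nm π0 := by
        have : ⌈z⌉₊ ≤ nm π0 := Nat.ceil_le.2 hpz
        exact_mod_cast this
      linarith
    obtain ⟨k, hk⟩ := Nat.exists_eq_succ_of_ne_zero h0
    refine ⟨k, ?_, ?_, ?_⟩
    · have := Nat.find_min' hex hPV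
      omega
    · have h1 := Nat.find_min hex (m := k) (by omega)
      exact not_le.1 h1
    · have h1 := Nat.find_spec hex
      rw [hk] at h1
      exact h1
  obtain ⟨π, hass, hnmπ, hπG⟩ := to_GP hpp hp2 hv1 hv2
  obtain ⟨m, hm⟩ : π ∣ n := dvd_trans hass.symm.dvd ⟨m0, hm0⟩
  have hmne : m ≠ 0 := by
    rintro rfl
    exact hn0 (by rw [hm, mul_zero])
  have hnmm : nm m = nm m0 := by
    have h1 : nm π * nm m = nm π0 * nm m0 := by
      rw [← nm_mul, ← nm_mul, ← hm, ← hm0]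
    rw [hnmπ] at h1
    exact Nat.eq_of_mul_eq_mul_left (nm_pos hπ0.ne_zero) h1
  have hmd : m ∣ n := ⟨π, by rw [hm]; ring⟩
  have htp := tt_pos (κ := κ) hz v
  refine ⟨⟨v, π, m⟩, mem_RS.2 ⟨hvV, hπG, mem_MS.2 ⟨mem_RZ.2 ⟨⟨hmne, ?_, ?_⟩, ?_, ?_⟩, ?_, ?_⟩,
    hm.symm⟩⟩
  · change y / tt z κ v < (nm m : ℝ)
    rw [div_lt_iff₀ htp, hnmm]
    have h1 : y * Real.exp κ < (nm m0 * tt z κ v) * Real.exp κ := by
      calc y * Real.exp κ < nm n := he1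
        _ = nm π0 * nm m0 := hnn
        _ ≤ tt z κ (v + 1) * nm m0 := by gcongr
        _ = _ := by rw [tt_succ]; ring
    exact lt_of_mul_lt_mul_right h1 (Real.exp_pos κ).le
  · change (nm m : ℝ) ≤ y' / tt z κ v
    rw [le_div_iff₀ htp, hnmm]
    calc (nm m0 : ℝ) * tt z κ v ≤ nm m0 * nm π0 := by gcongr
      _ = nm n := by rw [hnn]; ring
      _ ≤ y' := hn2
  · intro ρ hρ hd
    exact hrg ρ hρ (dvd_trans hd hmd)
  · intro q hq hq1 hq2 hd
    exact hrz q hq hq1 hq2 (dvd_trans hd (nm_dvd hmd))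
  · change ¬ IsUnit m
    rw [isUnit_iff_nm, hnmm, ← isUnit_iff_nm]
    exact hm0u
  · change ∀ ρ : Gi, Prime ρ → ρ ∣ m → (nm ρ).Prime ∧ tt z κ (v + 1) < (nm ρ : ℝ)
    intro ρ hρ hd
    obtain ⟨h1, h2⟩ := hcl ρ hρ (dvd_trans hd hmd)
    refine ⟨h1, ?_⟩
    by_contra h3
    push Not at h3
    have h4 : (nm π0 : ℝ) ≤ nm ρ := by exact_mod_cast hmin ρ hρ (dvd_trans hd hmd)
    obtain ⟨ρ', h5, _, h6⟩ := to_GP (P := tt z κ v) h1 h2 (lt_of_lt_of_le hv1 h4) h3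
    refine he4 v π ρ' hπG h6 ?_
    rw [hm]
    exact mul_dvd_mul_left π (dvd_trans h5.symm.dvd hd)

end RLEM

theorem specRLE : SpecRLE := by
  intro w z κ y y' V hw hwz hz hκ _ hy _ hV n
  have h1 : rr w z κ y y' V n ≤ 1 := by
    rw [RLEM.rr_eq]
    exact RLEM.card_le hz hκ V n
  refine ⟨h1, ?_, ?_⟩
  · intro h
    rw [RLEM.rr_eq] at h
    obtain ⟨q, hq⟩ := card_pos.1 (Nat.pos_of_ne_zero h)
    rw [RLEM.mem_RS] at hq
    exact RLEM.partB hw hwz hz hκ hq.2.1 hq.2.2.1 hq.2.2.2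
  · intro hn hnp hexc
    obtain ⟨q, hq⟩ := RLEM.partC hw hz hy hV hn hnp hexc
    have h2 : 0 < rr w z κ y y' V n := by
      rw [RLEM.rr_eq]
      exact card_pos.2 ⟨q, hq⟩
    omega

end Pool.Agent.Lib.MP391708.XD3
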