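import Pool.Agent.Lib.MP_391708_nt.X3.SpecD
import Pool.Agent.Lib.MP_391708_nt.MR.Basic

/-!
# THEOREM X for `k = 3` (MP_391708), part D, module SMV: the main sum of the decomposition
-/

set_option autoImplicit false

namespace Pool.Agent.Lib.MP391708.XD3

open Finset Filter Topology Pool.Agent.Lib.MP391708.MR
open Pool.Agent.Lib.MP391708.X
open Pool.Agent.Lib.MP391708.QPA (PB)
open scoped ComplexConjugate

namespace SMVM

theorem tt_ge {z κ : ℝ} (hz : 1 < z) (hκ : 0 ≤ κ) (v : ℕ) : z - 1 ≤ tt z κ v := by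
  unfold tt
  have h1 : z ≤ (⌈z⌉₊ : ℝ) := Nat.le_ceil z
  have h3 : 1 ≤ Real.exp (κ * v) := Real.one_le_exp (by positivity)
  calc z - 1 ≤ ((⌈z⌉₊ : ℝ) - 1) * 1 := by linarith
    _ ≤ _ := mul_le_mul_of_nonneg_left h3 (by linarith)

theorem tt_succ (z κ : ℝ) (v : ℕ) : tt z κ (v + 1) = tt z κ v * Real.exp κ := by
  unfold tt
  rw [mul_assoc, ← Real.exp_add]
  congr 2
  push_cast
  ring

theorem MS_empty {w z κ y y' : ℝ} {v : ℕ} (hT : 0 < tt z κ v) (hκ : 0 ≤ κ)
    (h : y' ≤ tt z κ v ^ 2) : MS w z κ y y' v = ∅ := by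
  classical
  rw [Finset.eq_empty_iff_forall_notMem]
  intro m hm
  unfold MS at hm
  rw [mem_filter] at hm
  obtain ⟨hm1, hm2, hm3⟩ := hm
  unfold RZ at hm1
  rw [mem_filter] at hm1
  obtain ⟨hm4, -⟩ := hm1
  rw [mem_ann] at hm4
  obtain ⟨h0, -, h1⟩ := hm4
  obtain ⟨π, hπ, hd⟩ := WfDvdMonoid.exists_irreducible_factor hm2 h0
  have hπ' : Prime π := hπ.prime
  obtain ⟨-, h2⟩ := hm3 π hπ' hd
  have h3 : nm π ≤ nm m := Nat.le_of_dvd (nm_pos h0) (nm_dvd hd)
  have h4 : tt z κ v ≤ tt z κ (v + 1) := by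
    rw [tt_succ]
    exact le_mul_of_one_le_right hT.le (Real.one_le_exp hκ)
  have h5 : y' / tt z κ v ≤ tt z κ v := by
    rw [div_le_iff₀ hT]
    nlinarith
  have h6 : (nm π : ℝ) ≤ nm m := by exact_mod_cast h3
  linarith

/-- A product of a small sup norm and a mean square. -/
theorem prod_bd {ι : Type} (U : Finset ι) (A B : ι → ℂ) (a b : ℝ)
    (hA : ∀ i ∈ U, ‖A i‖ ≤ a) (hB : ∑ i ∈ U, ‖B i‖ ^ 2 ≤ b ^ 2) :
    ∑ i ∈ U, ‖A i * B i‖ ^ 2 ≤ (a * b) ^ 2 := by
  calc ∑ i ∈ U, ‖A i * B i‖ ^ 2 ≤ ∑ i ∈ U, a ^ 2 * ‖B i‖ ^ 2 := by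
        refine sum_le_sum fun i hi => ?_
        rw [norm_mul, mul_pow]
        exact mul_le_mul_of_nonneg_right (pow_le_pow_left₀ (norm_nonneg _) (hA i hi) 2)
          (sq_nonneg _)
    _ = a ^ 2 * ∑ i ∈ U, ‖B i‖ ^ 2 := by rw [mul_sum]
    _ ≤ a ^ 2 * b ^ 2 := mul_le_mul_of_nonneg_left hB (sq_nonneg _)
    _ = (a * b) ^ 2 := by ring

/-- The sum over the cells. -/
theorem sum_bd {ι : Type} (U : Finset ι) (V : ℕ) (f : ι → ℕ → ℂ) (D : ℝ)
    (h : ∀ v ∈ range V, ∑ i ∈ U, ‖f i v‖ ^ 2 ≤ D ^ 2) :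
    ∑ i ∈ U, ‖∑ v ∈ range V, f i v‖ ^ 2 ≤ ((V : ℝ) * D) ^ 2 := by
  calc ∑ i ∈ U, ‖∑ v ∈ range V, f i v‖ ^ 2
      ≤ ∑ i ∈ U, (V : ℝ) * ∑ v ∈ range V, ‖f i v‖ ^ 2 := by
        refine sum_le_sum fun i _ => ?_
        refine (pow_le_pow_left₀ (norm_nonneg _) (norm_sum_le _ _) 2).trans ?_
        have h1 := sq_sum_le_card_mul_sum_sq (s := range V) (f := fun v => ‖f i v‖)
        rw [card_range] at h1
        exact h1
    _ = (V : ℝ) * ∑ v ∈ range V, ∑ i ∈ U, ‖f i v‖ ^ 2 := by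
        rw [← mul_sum, sum_comm]
    _ ≤ (V : ℝ) * ∑ v ∈ range V, D ^ 2 :=
        mul_le_mul_of_nonneg_left (sum_le_sum h) (Nat.cast_nonneg _)
    _ = ((V : ℝ) * D) ^ 2 := by
        rw [sum_const, card_range, nsmul_eq_mul]
        ring

end SMVM

open SMVM

/-- SMV, from HMZ, PHC and X.SpecPSI. -/
theorem specSMV (hHMZ : SpecHMZ) (hPHC : SpecPHC) (hPSI : X.SpecPSI) : SpecSMV := by
  classical
  obtain ⟨C, hC, H⟩ := hHMZ
  refine ⟨24 * C, by positivity, fun A hA => ?_⟩
  obtain ⟨c, hc0, hc1, H⟩ := H A hA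
  refine ⟨c, hc0, hc1, fun e κ η he hec hκ hκ1 hη => ?_⟩
  have he1 : e ≤ 1 := by linarith
  have E1 := H 0 e he (by push_cast; linarith)
  have E2 := hPHC A e η hA he he1 hη
  have E3 : ∀ᶠ x : ℝ in atTop, 2 ≤ x ^ (e / 2) :=
    (tendsto_rpow_atTop (by positivity)).eventually_ge_atTop 2
  have E4 : ∀ᶠ x : ℝ in atTop, 2 * (e * Real.log x) ≤ C * x ^ (c / 3) := by
    have h1 := (isLittleO_log_rpow_atTop (show 0 < c / 3 by positivity)).bound
      (show 0 < C / (2 * e) by positivity)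
    filter_upwards [h1, eventually_ge_atTop 1] with x hx hx1
    have h2 : 0 ≤ x ^ (c / 3) := Real.rpow_nonneg (by linarith) _
    rw [Real.norm_of_nonneg (Real.log_nonneg hx1), Real.norm_of_nonneg h2] at hx
    have h3 : 2 * (e * Real.log x) ≤ 2 * (e * (C / (2 * e) * x ^ (c / 3))) := by
      gcongr
    refine h3.trans (le_of_eq ?_)
    field_simp
  have E5 : ∀ᶠ x : ℝ in atTop, (18 : ℝ) ≤ x := eventually_ge_atTop 18
  filter_upwards [E1, E2, E3, E4, E5] with x h1 h2 h3 h4 h5 U hU x' V hx hx' hV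
  have hx0 : 0 < x := by linarith
  have hx'0 : 0 < x' := by linarith
  set L := Real.log x with hLd
  have hL : 0 < L := Real.log_pos (by linarith)
  set z := x ^ e with hzd
  have hz : z = x ^ (e / 2) * x ^ (e / 2) := by
    rw [hzd, ← Real.rpow_add hx0]
    congr 1
    ring
  have hz1 : x ^ (e / 2) ≤ z - 1 := by nlinarith
  have hz2 : 1 < z := by nlinarith
  have hT0 : ∀ v, x ^ (e / 2) ≤ tt z κ v := fun v => hz1.trans (tt_ge hz2 hκ.le v)
  have key : ∀ v ∈ range V, ∑ i ∈ U.filter (fun i => i ≠ ix1),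
      ‖∑ π ∈ cl z κ v, ∑ m ∈ MS (ww A x) z κ x x' v, psi i (π * m)‖ ^ 2 ≤
        (12 * C * (η * x / (e * L) ^ 2)) ^ 2 := by
    intro v _
    have hTv : 0 < tt z κ v := lt_of_lt_of_le (by linarith) (hT0 v)
    by_cases hT : x' ≤ tt z κ v ^ 2
    · rw [MS_empty hTv hκ.le hT]
      simp only [sum_empty, sum_const_zero, norm_zero]
      rw [zero_pow two_ne_zero, sum_const_zero]
      positivity
    push Not at hT
    set T := tt z κ v with hTd
    have hT1 : 1 ≤ T := by
      have := hT0 v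
      linarith
    have hTx : T ≤ x' / T := by
      rw [le_div_iff₀ hTv]
      nlinarith
    have hYx : Real.sqrt x ≤ x' / T := by
      rw [Real.sqrt_le_left (by positivity)]
      rw [div_pow, le_div_iff₀ (by positivity)]
      nlinarith
    have hY : x ^ (1 / 3 : ℝ) ≤ x' / T := by
      refine le_trans ?_ hYx
      rw [Real.sqrt_eq_rpow]
      exact Real.rpow_le_rpow_of_exponent_le (by linarith) (by norm_num)
    have hY8 : x' / T ≤ 8 * x := by
      refine (div_le_self hx'0.le hT1).trans ?_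
      linarith
    obtain ⟨P1, -, P3⟩ := h1 U hU (x' / T) (x / T) (x' / T) hY hY8 (by positivity)
      ((div_le_div_iff_of_pos_right hTv).2 hx) le_rfl
    have hMS : MS (ww A x) z κ x x' v ⊆ RZ (ww A x) z (x / T) (x' / T) := filter_subset _ _
    have P := P1 (MS (ww A x) z κ x x' v) (fun _ => 1) hMS
    simp only [one_mul, norm_one, one_pow, sum_const, nsmul_eq_mul, mul_one] at P
    set K := C * ((x' / T - x / T) / (e * L)) + (x' / T) ^ (1 - c) with hKd
    have hK0 : 0 ≤ K := by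
      have : 0 ≤ x' / T - x / T := sub_nonneg.2 ((div_le_div_iff_of_pos_right hTv).2 hx)
      positivity
    have hK : K ≤ 2 * C * (x / (T * (e * L))) := by
      have k1 : C * ((x' / T - x / T) / (e * L)) ≤ C * (x / (T * (e * L))) := by
        have k2 : x' / T - x / T ≤ x / T := by
          rw [← sub_div]
          exact (div_le_div_iff_of_pos_right hTv).2 (by linarith)
        calc C * ((x' / T - x / T) / (e * L)) ≤ C * ((x / T) / (e * L)) := by gcongr
          _ = C * (x / (T * (e * L))) := by rw [div_div]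
      have k3 : (x' / T) ^ (1 - c) ≤ C * (x / (T * (e * L))) := by
        have k4 : (x' / T) ^ (1 - c) = (x' / T) / (x' / T) ^ c := by
          rw [Real.rpow_sub (by positivity), Real.rpow_one]
        have k5 : x ^ (c / 3) ≤ (x' / T) ^ c := by
          have := Real.rpow_le_rpow (Real.rpow_nonneg hx0.le _) hY hc0.le
          rw [← Real.rpow_mul hx0.le] at this
          refine le_trans (le_of_eq ?_) this
          congr 1
          ring
        have k6 : 0 < x ^ (c / 3) := Real.rpow_pos_of_pos hx0 _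
        rw [k4, div_le_iff₀ (by positivity)]
        calc x' / T ≤ 2 * x / T := by gcongr
          _ = (x / (T * (e * L))) * (2 * (e * L)) := by field_simp
          _ ≤ (x / (T * (e * L))) * (C * x ^ (c / 3)) := by gcongr
          _ ≤ (x / (T * (e * L))) * (C * (x' / T) ^ c) := by gcongr
          _ = C * (x / (T * (e * L))) * (x' / T) ^ c := by ring
      calc K ≤ C * (x / (T * (e * L))) + C * (x / (T * (e * L))) := add_le_add k1 k3
        _ = 2 * C * (x / (T * (e * L))) := by ring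
    have hcard : ((MS (ww A x) z κ x x' v).card : ℝ) ≤ K :=
      le_trans (by exact_mod_cast card_le_card hMS) P3
    have hB : ∑ i ∈ U.filter (fun i => i ≠ ix1), ‖∑ m ∈ MS (ww A x) z κ x x' v, psi i m‖ ^ 2 ≤
        (2 * C * (x / (T * (e * L)))) ^ 2 := by
      calc ∑ i ∈ U.filter (fun i => i ≠ ix1), ‖∑ m ∈ MS (ww A x) z κ x x' v, psi i m‖ ^ 2
          ≤ ∑ i ∈ U, ‖∑ m ∈ MS (ww A x) z κ x x' v, psi i m‖ ^ 2 :=
            sum_le_sum_of_subset_of_nonneg (filter_subset _ _) (fun _ _ _ => sq_nonneg _)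
        _ ≤ K * (MS (ww A x) z κ x x' v).card := P
        _ ≤ K * K := mul_le_mul_of_nonneg_left hcard hK0
        _ = K ^ 2 := by ring
        _ ≤ _ := pow_le_pow_left₀ hK0 hK 2
    -- the prime sums
    have hexp : Real.exp κ ≤ 3 := by
      refine (Real.exp_le_exp.2 hκ1).trans ?_
      have := Real.exp_one_lt_d9
      linarith
    have hT' : tt z κ (v + 1) ≤ 3 * T := by
      rw [tt_succ, ← hTd, mul_comm]
      exact mul_le_mul_of_nonneg_right hexp hTv.le
    have hT'1 : T ≤ tt z κ (v + 1) := by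
      rw [tt_succ, ← hTd]
      exact le_mul_of_one_le_right hTv.le (Real.one_le_exp hκ.le)
    have hT'x : tt z κ (v + 1) ≤ x := by
      refine hT'.trans ?_
      nlinarith
    have hA : ∀ i ∈ U.filter (fun i => i ≠ ix1), ‖∑ π ∈ cl z κ v, psi i π‖ ≤
        6 * (η * T / (e * L)) := by
      intro i hi
      rw [mem_filter] at hi
      have q1 := h2 U hU i hi.1 hi.2 T (tt z κ (v + 1)) (hT0 v) hT'1 hT'x
      have q2 : e / 2 * L ≤ Real.log (tt z κ (v + 1)) := by
        rw [hLd, ← Real.log_rpow hx0]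
        exact Real.log_le_log (by linarith) ((hT0 v).trans hT'1)
      have q3 : 0 < e / 2 * L := by positivity
      refine q1.trans ?_
      calc η * tt z κ (v + 1) / Real.log (tt z κ (v + 1)) ≤ η * (3 * T) / (e / 2 * L) := by
            gcongr
        _ = 6 * (η * T / (e * L)) := by
            field_simp
            ring
    have hfin := prod_bd (U.filter (fun i => i ≠ ix1)) (fun i => ∑ π ∈ cl z κ v, psi i π)
      (fun i => ∑ m ∈ MS (ww A x) z κ x x' v, psi i m) _ _ hA hB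
    refine (le_of_eq ?_).trans (hfin.trans (le_of_eq ?_))
    · refine sum_congr rfl fun i hi => ?_
      rw [mem_filter] at hi
      have hmul := (hPSI _ _ _ U hU i hi.1).1
      rw [sum_mul_sum]
      congr 2
      refine sum_congr rfl fun π _ => sum_congr rfl fun m _ => ?_
      rw [hmul]
    · congr 1
      field_simp
      ring
  have hsum := sum_bd (U.filter (fun i => i ≠ ix1)) V
    (fun i v => ∑ π ∈ cl z κ v, ∑ m ∈ MS (ww A x) z κ x x' v, psi i (π * m)) _ key
  refine hsum.trans (pow_le_pow_left₀ (by positivity) ?_ 2)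
  have hV' : (V : ℝ) ≤ 2 * L / κ := by
    rw [le_div_iff₀ hκ]
    linarith
  calc (V : ℝ) * (12 * C * (η * x / (e * L) ^ 2))
      ≤ (2 * L / κ) * (12 * C * (η * x / (e * L) ^ 2)) := by gcongr
    _ = 24 * C * (η / (κ * e ^ 2)) * (x / L) := by
        field_simp
        ring

end Pool.Agent.Lib.MP391708.XD3
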