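import Pool.Agent.Lib.MP_391708_nt.X3.SpecD
import Pool.Agent.Lib.MP_391708_nt.MR.Basic

/-!
# THEOREM X for `k = 3` (MP_391708), part D: module SPL (helper92): the elements of prime norm
-/

set_option autoImplicit false

namespace Pool.Agent.Lib.MP391708.XD3

open Finset Filter Topology Pool.Agent.Lib.MP391708.MR
open Pool.Agent.Lib.MP391708.X

namespace SPLM

/-- the four units -/
def U4 : Finset Gi := {1, -1, ⟨0, 1⟩, ⟨0, -1⟩}

lemma mem_U4 {u : Gi} : u ∈ U4 ↔ nm u = 1 := by
  constructor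
  · intro h
    unfold U4 at h
    rw [mem_insert, mem_insert, mem_insert, mem_singleton] at h
    rcases h with rfl | rfl | rfl | rfl <;> simp [nm]
  · intro h
    unfold U4
    rw [mem_insert, mem_insert, mem_insert, mem_singleton]
    exact unit_cases h

lemma card_U4 : U4.card = 4 := by
  unfold U4
  decide

/-- an element of odd prime norm is a unit times an element of the open first quadrant -/
lemma exists_quadrant {n : Gi} (hp : (nm n).Prime) (h2 : nm n ≠ 2) :
    (nm n) % 4 = 1 ∧ ∃ u π : Gi, nm u = 1 ∧ 0 < π.re ∧ 0 < π.im ∧ u * π = n := by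
  have hc := nm_cast n
  have hsq : ∀ a : ℤ, (nm n : ℤ) ≠ a ^ 2 := by
    intro a ha
    have h3 : nm n = a.natAbs ^ 2 := by
      have h4 : ((nm n : ℕ) : ℤ) = ((a.natAbs ^ 2 : ℕ) : ℤ) := by
        push_cast
        rw [sq_abs]
        exact ha
      exact_mod_cast h4
    exact (Nat.Prime.prime hp).irreducible.not_isSquare ⟨a.natAbs, by rw [h3, sq]⟩
  have hre : n.re ≠ 0 := by
    intro h
    rw [h] at hc
    exact hsq n.im (by rw [hc]; ring)
  have him : n.im ≠ 0 := by
    intro h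
    rw [h] at hc
    exact hsq n.re (by rw [hc]; ring)
  constructor
  · have hodd : (nm n) % 2 = 1 := by
      rcases hp.eq_two_or_odd with h | h
      · exact absurd h h2
      · exact h
    have e1 : n.re ^ 2 % 4 = 0 ∨ n.re ^ 2 % 4 = 1 := by
      rcases Int.even_or_odd n.re with ⟨t, ht⟩ | ⟨t, ht⟩
      · left
        rw [ht, show (t + t) ^ 2 = 4 * t ^ 2 by ring]
        omega
      · right
        rw [ht, show (2 * t + 1) ^ 2 = 4 * (t ^ 2 + t) + 1 by ring]
        omega
    have e2 : n.im ^ 2 % 4 = 0 ∨ n.im ^ 2 % 4 = 1 := by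
      rcases Int.even_or_odd n.im with ⟨t, ht⟩ | ⟨t, ht⟩
      · left
        rw [ht, show (t + t) ^ 2 = 4 * t ^ 2 by ring]
        omega
      · right
        rw [ht, show (2 * t + 1) ^ 2 = 4 * (t ^ 2 + t) + 1 by ring]
        omega
    omega
  · rcases lt_or_gt_of_ne hre with h1 | h1 <;> rcases lt_or_gt_of_ne him with h3 | h3
    · refine ⟨-1, -n, by simp [nm], ?_, ?_, by ring⟩
      · rw [Zsqrtd.re_neg]
        omega
      · rw [Zsqrtd.im_neg]
        omega
    · refine ⟨⟨0, 1⟩, ⟨n.im, -n.re⟩, by simp [nm], h3, ?_, ?_⟩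
      · show 0 < -n.re
        omega
      · apply Zsqrtd.ext
        · rw [Zsqrtd.re_mul]
          ring
        · rw [Zsqrtd.im_mul]
          ring
    · refine ⟨⟨0, -1⟩, ⟨-n.im, n.re⟩, by simp [nm], ?_, h1, ?_⟩
      · show 0 < -n.im
        omega
      · apply Zsqrtd.ext
        · rw [Zsqrtd.re_mul]
          ring
        · rw [Zsqrtd.im_mul]
          ring
    · exact ⟨1, n, by simp, h1, h3, by rw [one_mul]⟩

end SPLM

open SPLM in
theorem specSPL : SpecSPL := by
  classical
  intro w z y y' hw hwy hzy hyy f hf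
  have h1 : ∑ q ∈ GP y y' ×ˢ U4, f (q.2 * q.1) =
      ∑ n ∈ (RZ w z y y').filter (fun n => (nm n).Prime), f n := by
    refine Finset.sum_nbij (fun q => q.2 * q.1) ?_ ?_ ?_ (fun _ _ => rfl)
    · rintro ⟨π, u⟩ hq
      rw [mem_product, mem_GP, mem_U4] at hq
      obtain ⟨⟨g1, g2, g3, g4, g5, g6⟩, g7⟩ := hq
      simp only at g1 g2 g3 g4 g5 g6 g7
      have hnm : nm (u * π) = nm π := by rw [nm_mul, g7, one_mul]
      have hu : IsUnit u := isUnit_iff_nm.2 g7
      show u * π ∈ _
      rw [mem_filter, hnm]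
      refine ⟨?_, g3⟩
      unfold RZ
      rw [mem_filter, mem_ann, hnm]
      have hπ : Prime π := prime_of_nm_prime g3
      refine ⟨⟨mul_ne_zero hu.ne_zero hπ.ne_zero, g5, g6⟩, ?_, ?_⟩
      · intro ρ hρ hd
        have h3 : ρ ∣ π := by
          rcases hρ.dvd_or_dvd hd with h | h
          · exact absurd (isUnit_of_dvd_unit h hu) hρ.not_isUnit
          · exact h
        have h4 : nm ρ ∣ nm π := nm_dvd h3
        rcases (Nat.dvd_prime g3).1 h4 with h5 | h5
        · exact absurd (isUnit_iff_nm.2 h5) hρ.not_isUnit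
        · rw [h5]
          linarith
      · intro p hp _ hpz hd
        rw [hnm] at hd
        have h5 := (Nat.prime_dvd_prime_iff_eq hp g3).1 hd
        rw [h5] at hpz
        linarith
    · rintro ⟨π, u⟩ hq ⟨π', u'⟩ hq' he
      simp only [Finset.coe_product, Set.mem_prod, Finset.mem_coe] at hq hq'
      rw [mem_GP, mem_U4] at hq hq'
      obtain ⟨⟨g1, g2, g3, -⟩, g7⟩ := hq
      obtain ⟨⟨g1', g2', g3', -⟩, g7'⟩ := hq'
      simp only at he
      have hu' : IsUnit u' := isUnit_iff_nm.2 g7'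
      obtain ⟨v, hv⟩ := hu'
      have h3 : π' = π * (((v⁻¹ : Giˣ) : Gi) * u) := by
        have h4 : ((v⁻¹ : Giˣ) : Gi) * (u * π) = ((v⁻¹ : Giˣ) : Gi) * (u' * π') := by rw [he]
        rw [← hv, ← mul_assoc ((v⁻¹ : Giˣ) : Gi) (v : Gi) π', Units.inv_mul, one_mul] at h4
        rw [← h4]
        ring
      have h4 : nm (((v⁻¹ : Giˣ) : Gi) * u) = 1 := by
        rw [nm_mul, g7, mul_one]
        exact isUnit_iff_nm.1 (v⁻¹).isUnit
      have h5 : π' = π := eq_of_quadrant g1 g2 g1' g2' h4 h3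
      have hπ0 : π ≠ 0 := (prime_of_nm_prime g3).ne_zero
      rw [h5] at he
      have h6 : u = u' := mul_right_cancel₀ hπ0 he
      rw [h5, h6]
    · intro n hn
      rw [Finset.mem_coe, mem_filter] at hn
      obtain ⟨hn1, hn2⟩ := hn
      unfold RZ at hn1
      rw [mem_filter, mem_ann] at hn1
      obtain ⟨⟨k0, k1, k2⟩, -⟩ := hn1
      have hne : nm n ≠ 2 := by
        intro h
        rw [h] at k1
        push_cast at k1
        linarith
      obtain ⟨hmod, u, π, hu, p1, p2, hup⟩ := exists_quadrant hn2 hne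
      have hnm : nm n = nm π := by rw [← hup, nm_mul, hu, one_mul]
      refine ⟨(π, u), ?_, hup⟩
      rw [Finset.mem_coe, mem_product, mem_GP, mem_U4]
      rw [hnm] at hn2 hmod k1 k2
      exact ⟨⟨p1, p2, hn2, hmod, k1, k2⟩, hu⟩
  rw [← h1, Finset.sum_product, Finset.mul_sum]
  refine Finset.sum_congr rfl fun π _ => ?_
  have h2 : ∀ u ∈ U4, f (u * π) = f π := fun u hu => hf u π (isUnit_iff_nm.2 (mem_U4.1 hu))
  rw [Finset.sum_congr rfl h2, Finset.sum_const, card_U4, nsmul_eq_mul]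
  norm_num

end Pool.Agent.Lib.MP391708.XD3
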