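import Pool.Agent.Lib.MP_391708_nt.X3.SpecD

/-!
# THEOREM X for `k = 3` (MP_391708), part D, module THD: Theorem D in terms of `N`
-/

set_option autoImplicit false

namespace Pool.Agent.Lib.MP391708.XD3

open Finset Filter Topology Pool.Agent.Lib.MP391708.MR
open Pool.Agent.Lib.MP391708.X
open Pool.Agent.Lib.MP391708.QPA (PB)
open scoped ComplexConjugate

namespace THDM

theorem mono {Q F W Q' F' W' : ℝ} {U : Finset Ix} (h : UOK Q F W U) (hQ : Q ≤ Q') (hF : F ≤ F')
    (hW : W ≤ W') : UOK Q' F' W' U where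
  ch i hi := ⟨(h.ch i hi).1, (h.ch i hi).2.1.trans hQ, (h.ch i hi).2.2⟩
  frq i hi := (h.frq i hi).trans hF
  adm := h.adm
  dif := h.dif
  one := h.one
  card := h.card.trans hW

/-- the comparison of the powers of the logarithms -/
theorem logs {a d A N y : ℝ} (ha : 1 ≤ a) (hd : 0 < d) (hA : a + 1 ≤ A) (hN : 0 ≤ Real.log N)
    (h : d * Real.log N ≤ Real.log y) (h1 : 1 ≤ Real.log y) (h2 : d ^ (-a) ≤ Real.log y) :
    Real.log N ^ a ≤ Real.log y ^ A := by
  have hy0 : 0 < Real.log y := by linarith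
  have e1 : Real.log N ≤ Real.log y / d := by
    rw [le_div_iff₀ hd]
    linarith
  calc Real.log N ^ a ≤ (Real.log y / d) ^ a := Real.rpow_le_rpow hN e1 (by linarith)
    _ = Real.log y ^ a * d ^ (-a) := by
        rw [Real.div_rpow hy0.le hd.le, Real.rpow_neg hd.le, div_eq_mul_inv]
    _ ≤ Real.log y ^ a * Real.log y :=
        mul_le_mul_of_nonneg_left h2 (Real.rpow_nonneg hy0.le _)
    _ = Real.log y ^ (a + 1) := by rw [Real.rpow_add hy0, Real.rpow_one]
    _ ≤ Real.log y ^ A := Real.rpow_le_rpow_of_exponent_le h1 hA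

/-- the comparison of the bounds -/
theorem fin {ε d N y : ℝ} (hε : 0 < ε) (hd : 0 < d) (hN : 0 < Real.log N) (hy : 0 ≤ y)
    (h : d * Real.log N ≤ Real.log y) :
    ε * d ^ 2 * (y / Real.log y) ^ 2 ≤ ε * (y / Real.log N) ^ 2 := by
  have h0 : 0 < d * Real.log N := by positivity
  have h1 : d * (y / Real.log y) ≤ y / Real.log N := by
    have h2 : y / Real.log y ≤ y / (d * Real.log N) := div_le_div_of_nonneg_left hy h0 h
    have h3 : d * (y / (d * Real.log N)) = y / Real.log N := by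
      field_simp
    rw [← h3]
    exact mul_le_mul_of_nonneg_left h2 hd.le
  have h4 : 0 ≤ d * (y / Real.log y) := by
    have : 0 < Real.log y := h0.trans_le h
    positivity
  have h5 : (d * (y / Real.log y)) ^ 2 ≤ (y / Real.log N) ^ 2 := pow_le_pow_left₀ h4 h1 2
  calc ε * d ^ 2 * (y / Real.log y) ^ 2 = ε * (d * (y / Real.log y)) ^ 2 := by ring
    _ ≤ ε * (y / Real.log N) ^ 2 := mul_le_mul_of_nonneg_left h5 hε.le

end THDM

open THDM

theorem specTHD (hTHX : SpecTHX) : SpecTHD := by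
  intro a d ε ha hd hd1 hε
  have hA1 : a + 1 ≤ max (a + 1) (2 / d) := le_max_left _ _
  have hA2 : 2 / d ≤ max (a + 1) (2 / d) := le_max_right _ _
  set A : ℝ := max (a + 1) (2 / d) with hA
  have hX := hTHX A (ε * d ^ 2) (by linarith) (by positivity)
  obtain ⟨x0, hx0⟩ := eventually_atTop.1 hX
  have t1 : Tendsto (fun N : ℝ => N ^ d) atTop atTop := tendsto_rpow_atTop hd
  have t2 : Tendsto (fun N : ℝ => Real.log (N ^ d)) atTop atTop :=
    Real.tendsto_log_atTop.comp t1
  filter_upwards [t1.eventually_ge_atTop x0, t2.eventually_ge_atTop 1,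
    t2.eventually_ge_atTop (d ^ (-a)), eventually_gt_atTop 1,
    t1.eventually_gt_atTop 0] with N h1 h2 h3 h4 h5
  intro U hU y y' hy hyy hyy2 _
  have hN0 : 0 < N := by linarith
  have hlN : 0 < Real.log N := Real.log_pos h4
  have hy0 : 0 < y := h5.trans_le hy
  have hlog : Real.log (N ^ d) ≤ Real.log y := Real.log_le_log h5 hy
  have hl : d * Real.log N ≤ Real.log y := by
    rw [← Real.log_rpow hN0]
    exact hlog
  have hly1 : 1 ≤ Real.log y := h2.trans hlog
  have hy1 : 1 ≤ y := by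
    by_contra h
    push Not at h
    have : Real.log y ≤ 0 := Real.log_nonpos hy0.le h.le
    linarith
  have hQ := logs ha hd hA1 hlN.le hl hly1 (h3.trans hlog)
  have hF : N ^ (2 : ℝ) ≤ y ^ A := by
    have e1 : N ^ (2 : ℝ) = (N ^ d) ^ (2 / d) := by
      rw [← Real.rpow_mul hN0.le]
      congr 1
      field_simp
    rw [e1]
    calc (N ^ d) ^ (2 / d) ≤ y ^ (2 / d) := Real.rpow_le_rpow h5.le hy (by positivity)
      _ ≤ y ^ A := Real.rpow_le_rpow_of_exponent_le hy1 hA2
  exact (hx0 y (h1.trans hy) U (mono hU hQ hF hQ) y' hyy hyy2).trans (fin hε hd hlN hy0.le hl)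

end Pool.Agent.Lib.MP391708.XD3
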