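import Pool.Agent.Lib.MP_391708_nt.X3.SpecD
import Pool.Agent.Lib.MP_391708_nt.MR.Basic

/-!
# THEOREM X for `k = 3` (MP_391708), part D, module THX: Theorem D
-/

set_option autoImplicit false

namespace Pool.Agent.Lib.MP391708.XD3

open Finset Filter Topology Pool.Agent.Lib.MP391708.MR
open Pool.Agent.Lib.MP391708.X
open Pool.Agent.Lib.MP391708.QPA (PB)
open scoped ComplexConjugate

namespace THXM

/-- a power saving beats the logarithm -/
theorem ev_pow (c s : ℝ) (hc0 : 0 < c) (hc1 : c < 1) (hs : 0 < s) :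
    ∀ᶠ x : ℝ in atTop, (8 * x) ^ (1 - c) ≤ s * (x / Real.log x) := by
  have h1 := (isLittleO_log_rpow_atTop hc0).bound (show (0 : ℝ) < s / 8 by positivity)
  filter_upwards [h1, eventually_gt_atTop 1, Real.tendsto_log_atTop.eventually_gt_atTop 0] with x hx h2 h3
  have hx0 : (0 : ℝ) < x := by linarith
  rw [Real.norm_of_nonneg h3.le, Real.norm_of_nonneg (Real.rpow_nonneg hx0.le _)] at hx
  rw [Real.mul_rpow (by norm_num) hx0.le, Real.rpow_sub hx0, Real.rpow_one]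
  have h4 : (8 : ℝ) ^ (1 - c) ≤ 8 := by
    calc (8 : ℝ) ^ (1 - c) ≤ (8 : ℝ) ^ (1 : ℝ) := Real.rpow_le_rpow_of_exponent_le (by norm_num) (by linarith)
      _ = 8 := Real.rpow_one 8
  have h5 : 0 < x ^ c := Real.rpow_pos_of_pos hx0 c
  have h6 : x / x ^ c ≤ (s / 8) * (x / Real.log x) := by
    rw [div_le_iff₀ h5]
    have h7 : s / 8 * (x / Real.log x) * x ^ c = x * ((s / 8 * x ^ c) / Real.log x) := by ring
    rw [h7]
    have h8 : 1 ≤ (s / 8 * x ^ c) / Real.log x := by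
      rw [le_div_iff₀ h3]
      linarith
    nlinarith
  have h9 : 0 ≤ x / x ^ c := by positivity
  calc (8 : ℝ) ^ (1 - c) * (x / x ^ c) ≤ 8 * ((s / 8) * (x / Real.log x)) :=
        mul_le_mul h4 h6 h9 (by norm_num)
    _ = s * (x / Real.log x) := by ring

theorem ev_ww (A e : ℝ) (he : 0 < e) : ∀ᶠ x : ℝ in atTop, ww A x < x ^ e := by
  have h1 := (isLittleO_log_rpow_rpow_atTop (2 * A + 20) he).bound (show (0 : ℝ) < 1 / 2 by norm_num)
  filter_upwards [h1, eventually_gt_atTop 1, Real.tendsto_log_atTop.eventually_gt_atTop 0] with x hx h2 h3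
  have hx0 : (0 : ℝ) < x := by linarith
  have h5 : 0 < x ^ e := Real.rpow_pos_of_pos hx0 e
  rw [Real.norm_of_nonneg (Real.rpow_nonneg h3.le _), Real.norm_of_nonneg h5.le] at hx
  unfold ww
  linarith

theorem choose_b (C c s : ℝ) (hc : 0 < c) (hs : 0 < s) :
    ∃ b : ℕ, C * Real.exp (-(b : ℝ)) * (8 * b + 16) / c ≤ s := by
  have h1 := (Real.tendsto_pow_mul_exp_neg_atTop_nhds_zero 1).comp (tendsto_natCast_atTop_atTop (R := ℝ))
  have h2 := (Real.tendsto_pow_mul_exp_neg_atTop_nhds_zero 0).comp (tendsto_natCast_atTop_atTop (R := ℝ))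
  have h3 := ((h1.const_mul (8 * C / c)).add (h2.const_mul (16 * C / c)))
  rw [mul_zero, mul_zero, add_zero] at h3
  have h4 := h3.eventually (gt_mem_nhds hs)
  obtain ⟨b, hb⟩ := h4.exists
  refine ⟨b, le_of_lt ?_⟩
  refine lt_of_eq_of_lt ?_ hb
  simp only [Function.comp_apply]
  ring

theorem sq3 (z R M E : ℂ) (h : R = 4 * z + M + E) : 16 * ‖z‖ ^ 2 ≤ 3 * (‖R‖ ^ 2 + ‖M‖ ^ 2 + ‖E‖ ^ 2) := by
  have h1 : 4 * z = R - M - E := by rw [h]; ring
  have h2 : 4 * ‖z‖ ≤ ‖R‖ + ‖M‖ + ‖E‖ := by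
    calc 4 * ‖z‖ = ‖(4 : ℂ) * z‖ := by rw [norm_mul]; norm_num
      _ = ‖R - M - E‖ := by rw [h1]
      _ ≤ ‖R - M‖ + ‖E‖ := norm_sub_le _ _
      _ ≤ ‖R‖ + ‖M‖ + ‖E‖ := by linarith [norm_sub_le R M]
  have h3 := norm_nonneg z
  have h4 := norm_nonneg R
  have h5 := norm_nonneg M
  have h6 := norm_nonneg E
  have h7 : (4 * ‖z‖) ^ 2 ≤ (‖R‖ + ‖M‖ + ‖E‖) ^ 2 := pow_le_pow_left₀ (by positivity) h2 2
  nlinarith [sq_nonneg (‖R‖ - ‖M‖), sq_nonneg (‖R‖ - ‖E‖), sq_nonneg (‖M‖ - ‖E‖)]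

theorem ev_tt (e κ : ℝ) (he : 0 < e) (hκ : 0 < κ) :
    ∀ᶠ x : ℝ in atTop, 2 * x ≤ (tt (x ^ e) κ ⌈Real.log x / κ⌉₊) ^ 2 := by
  filter_upwards [(tendsto_rpow_atTop he).eventually_ge_atTop 4, eventually_ge_atTop 1] with x h1 h2
  have hx0 : (0 : ℝ) < x := by linarith
  have h3 : x ^ e ≤ (⌈x ^ e⌉₊ : ℝ) := Nat.le_ceil _
  have h4 : Real.log x / κ ≤ (⌈Real.log x / κ⌉₊ : ℝ) := Nat.le_ceil _
  have h5 : x ≤ Real.exp (κ * ⌈Real.log x / κ⌉₊) := by
    have h6 : Real.log x ≤ κ * ⌈Real.log x / κ⌉₊ := by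
      rw [div_le_iff₀ hκ] at h4
      linarith
    calc x = Real.exp (Real.log x) := (Real.exp_log hx0).symm
      _ ≤ _ := Real.exp_le_exp.mpr h6
  have h7 : 3 * x ≤ tt (x ^ e) κ ⌈Real.log x / κ⌉₊ := by
    unfold tt
    exact mul_le_mul (by linarith) h5 hx0.le (by linarith)
  nlinarith

end THXM

open THXM in
theorem specTHX (hHMZ : SpecHMZ) (hDCP : SpecDCP) (hCNE : SpecCNE) (hSMV : SpecSMV)
    (hPSI : X.SpecPSI) : SpecTHX := by
  classical
  intro A ε hA hε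
  obtain ⟨C1, hC1, H1⟩ := hHMZ
  obtain ⟨C2, hC2, H2⟩ := hCNE
  obtain ⟨C3, hC3, H3⟩ := hSMV
  obtain ⟨c1, hc1, hc1', H1⟩ := H1 A hA
  obtain ⟨c2, hc2, hc2', H2⟩ := H2 A hA
  obtain ⟨c3, hc3, hc3', H3⟩ := H3 A hA
  set c : ℝ := min c1 (min c2 c3) with hc
  have hc0 : 0 < c := lt_min hc1 (lt_min hc2 hc3)
  have hcc1 : c ≤ c1 := min_le_left _ _
  have hcc2 : c ≤ c2 := (min_le_right _ _).trans (min_le_left _ _)
  have hcc3 : c ≤ c3 := (min_le_right _ _).trans (min_le_right _ _)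
  set s : ℝ := min 1 (ε / 2) with hs
  have hs0 : 0 < s := lt_min one_pos (by positivity)
  have hs1 : s ≤ 1 := min_le_left _ _
  have hs2 : s ≤ ε / 2 := min_le_right _ _
  obtain ⟨b, hb⟩ := choose_b C1 c s hc0 hs0
  set e : ℝ := c / (8 * b + 16) with he
  have hb0 : (0 : ℝ) ≤ b := Nat.cast_nonneg b
  have hd : (0 : ℝ) < 8 * b + 16 := by positivity
  have he0 : 0 < e := by positivity
  have heb : e * (8 * b + 16) = c := by rw [he]; field_simp
  have he16 : 16 * e ≤ c := by nlinarith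
  have he1 : e ≤ 1 := by nlinarith
  have hC1e : C1 * Real.exp (-(b : ℝ)) / e ≤ s := by
    refine le_of_eq_of_le ?_ hb
    rw [he]
    field_simp
  -- κ
  set Q : ℝ := (6 * C1 / e + 1) * C2 / e ^ 2 with hQ
  have hQ0 : 0 < Q := by positivity
  set κ : ℝ := min 1 (s / Q) with hκ
  have hκ0 : 0 < κ := lt_min one_pos (by positivity)
  have hκ1 : κ ≤ 1 := min_le_left _ _
  have hκQ : Q * κ ≤ s := by
    have : κ ≤ s / Q := min_le_right _ _
    rw [le_div_iff₀ hQ0] at this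
    linarith
  set η : ℝ := s * (κ * e ^ 2) / C3 with hη
  have hη0 : 0 < η := by positivity
  have hηC : C3 * (η / (κ * e ^ 2)) = s := by
    rw [hη]
    field_simp
  filter_upwards [H1 b e he0 (by rw [heb]; exact hcc1), H2 e κ he0 (he16.trans hcc2) hκ0 hκ1,
    H3 e κ η he0 (he16.trans hcc3) hκ0 hκ1 hη0, ev_pow c1 (s / 2) hc1 hc1' (by positivity),
    ev_ww A e he0, ev_tt e κ he0 hκ0, (tendsto_rpow_atTop he0).eventually_ge_atTop 4,
    eventually_ge_atTop (4 : ℝ), Real.tendsto_log_atTop.eventually_ge_atTop 2] with x G1 G2 G3 G4 G5 G6 G7 G8 G9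
  intro U hU x' hx' hx2
  have hx0 : (0 : ℝ) < x := by linarith
  have hl0 : 0 < Real.log x := by linarith
  set L : ℝ := x / Real.log x with hL
  have hL0 : 0 < L := by positivity
  -- the parameters
  have hw2 : 2 ≤ ww A x := by
    unfold ww
    calc (2 : ℝ) = 2 ^ (1 : ℝ) := (Real.rpow_one 2).symm
      _ ≤ Real.log x ^ (1 : ℝ) := Real.rpow_le_rpow (by norm_num) G9 (by norm_num)
      _ ≤ Real.log x ^ (2 * A + 20) := Real.rpow_le_rpow_of_exponent_le (by linarith) (by linarith)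
  have hzx : x ^ e ≤ x := by
    calc x ^ e ≤ x ^ (1 : ℝ) := Real.rpow_le_rpow_of_exponent_le (by linarith) he1
      _ = x := Real.rpow_one x
  set V : ℕ := ⌈Real.log x / κ⌉₊ with hV
  have hV2 : κ * V ≤ 2 * Real.log x := by
    have h1 : (V : ℝ) < Real.log x / κ + 1 := Nat.ceil_lt_add_one (by positivity)
    have h2 : κ * V ≤ κ * (Real.log x / κ + 1) := mul_le_mul_of_nonneg_left h1.le hκ0.le
    have h3 : κ * (Real.log x / κ + 1) = Real.log x + κ := by field_simp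
    linarith
  obtain ⟨a, ha1, ha2⟩ := hDCP (ww A x) (x ^ e) κ x x' V hw2 G5 G7 hκ0 hκ1 hzx hx' (by linarith)
  -- the three sums
  have hR : ∑ i ∈ U.filter (fun i => i ≠ ix1), ‖∑ n ∈ RZ (ww A x) (x ^ e) x x', psi i n‖ ^ 2 ≤ 4 * s * L ^ 2 := by
    have h1 := (G1 U hU (8 * x) x x' (by
      calc x ^ (1 / 3 : ℝ) ≤ x ^ (1 : ℝ) := Real.rpow_le_rpow_of_exponent_le (by linarith) (by norm_num)
        _ = x := Real.rpow_one x
        _ ≤ 8 * x := by linarith) le_rfl hx0.le hx' (by linarith)).2.1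
    have h2 : C1 * Real.exp (-(b : ℝ)) * ((x' - x) / (e * Real.log x)) ≤ s * L := by
      have h3 : (x' - x) / (e * Real.log x) ≤ (1 / e) * L := by
        rw [hL]
        have : (1 / e) * (x / Real.log x) = x / (e * Real.log x) := by field_simp
        rw [this]
        exact div_le_div_of_nonneg_right (by linarith) (by positivity)
      calc C1 * Real.exp (-(b : ℝ)) * ((x' - x) / (e * Real.log x))
          ≤ C1 * Real.exp (-(b : ℝ)) * ((1 / e) * L) := mul_le_mul_of_nonneg_left h3 (by positivity)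
        _ = C1 * Real.exp (-(b : ℝ)) / e * L := by ring
        _ ≤ s * L := mul_le_mul_of_nonneg_right hC1e hL0.le
    have h4 : C1 * Real.exp (-(b : ℝ)) * ((x' - x) / (e * Real.log x)) + 2 * (8 * x) ^ (1 - c1) ≤ 2 * s * L := by
      linarith
    have h5 : 0 ≤ C1 * Real.exp (-(b : ℝ)) * ((x' - x) / (e * Real.log x)) + 2 * (8 * x) ^ (1 - c1) := by
      have : 0 ≤ x' - x := by linarith
      positivity
    have h6 := pow_le_pow_left₀ h5 h4 2
    have h7 : (2 * s * L) ^ 2 ≤ 4 * s * L ^ 2 := by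
      have : (2 * s * L) ^ 2 = 4 * (s * s) * L ^ 2 := by ring
      rw [this]
      have h8 : s * s ≤ s * 1 := mul_le_mul_of_nonneg_left hs1 hs0.le
      nlinarith [sq_nonneg L]
    exact (h1.trans h6).trans h7
  have hM : ∑ i ∈ U.filter (fun i => i ≠ ix1), ‖∑ v ∈ range V, ∑ π ∈ cl (x ^ e) κ v,
      ∑ m ∈ MS (ww A x) (x ^ e) κ x x' v, psi i (π * m)‖ ^ 2 ≤ s * L ^ 2 := by
    have h1 := G3 U hU x' V hx' hx2 hV2
    have h2 : (C3 * (η / (κ * e ^ 2)) * (x / Real.log x)) ^ 2 ≤ s * L ^ 2 := by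
      rw [hηC, ← hL]
      have : (s * L) ^ 2 = (s * s) * L ^ 2 := by ring
      rw [this]
      have h8 : s * s ≤ s * 1 := mul_le_mul_of_nonneg_left hs1 hs0.le
      nlinarith [sq_nonneg L]
    exact h1.trans h2
  have hE : ∑ i ∈ U.filter (fun i => i ≠ ix1), ‖∑ n ∈ EE (ww A x) (x ^ e) κ x x', (a n : ℂ) * psi i n‖ ^ 2 ≤
      s * L ^ 2 := by
    have hexp : Real.exp κ ≤ 2.7182818286 := by
      calc Real.exp κ ≤ Real.exp 1 := Real.exp_le_exp.mpr hκ1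
        _ ≤ _ := Real.exp_one_lt_d9.le
    have hexp1 : 1 ≤ Real.exp κ := Real.one_le_exp hκ0.le
    have h0 : x' * Real.exp κ ≤ 6 * x := by nlinarith
    have h0' : x ≤ x' * Real.exp κ := by nlinarith
    have h1 := (G1 U hU (8 * x) x (x' * Real.exp κ) (by
      calc x ^ (1 / 3 : ℝ) ≤ x ^ (1 : ℝ) := Real.rpow_le_rpow_of_exponent_le (by linarith) (by norm_num)
        _ = x := Real.rpow_one x
        _ ≤ 8 * x := by linarith) le_rfl hx0.le h0' (by linarith)).1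
      (EE (ww A x) (x ^ e) κ x x') (fun n => (a n : ℂ)) (by
        intro n hn
        unfold EE at hn
        exact (mem_filter.mp hn).1)
    have h2 : ∑ n ∈ EE (ww A x) (x ^ e) κ x x', ‖(a n : ℂ)‖ ^ 2 ≤ ((EE (ww A x) (x ^ e) κ x x').card : ℝ) := by
      calc ∑ n ∈ EE (ww A x) (x ^ e) κ x x', ‖(a n : ℂ)‖ ^ 2
          ≤ ∑ n ∈ EE (ww A x) (x ^ e) κ x x', (1 : ℝ) := by
            refine sum_le_sum fun n _ => ?_
            rw [Complex.norm_real]
            have := ha1 n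
            have h3 : ‖a n‖ ≤ 1 := by rw [Real.norm_eq_abs]; exact this
            have h4 := norm_nonneg (a n)
            nlinarith
        _ = _ := by simp
    have h3 := G2 x' hx' hx2
    have h4 : C1 * ((x' * Real.exp κ - x) / (e * Real.log x)) + (8 * x) ^ (1 - c1) ≤ (6 * C1 / e + 1) * L := by
      have h5 : (x' * Real.exp κ - x) / (e * Real.log x) ≤ 6 / e * L := by
        rw [hL]
        have : (6 / e) * (x / Real.log x) = 6 * x / (e * Real.log x) := by field_simp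
        rw [this]
        exact div_le_div_of_nonneg_right (by linarith) (by positivity)
      have h6 : C1 * ((x' * Real.exp κ - x) / (e * Real.log x)) ≤ C1 * (6 / e * L) :=
        mul_le_mul_of_nonneg_left h5 hC1.le
      have h7 : (6 * C1 / e + 1) * L = C1 * (6 / e * L) + L := by ring
      rw [h7]
      have h8 : s / 2 * L ≤ L := by nlinarith
      linarith
    have h5 : 0 ≤ C1 * ((x' * Real.exp κ - x) / (e * Real.log x)) + (8 * x) ^ (1 - c1) := by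
      have : 0 ≤ x' * Real.exp κ - x := by linarith
      positivity
    have hcard0 : (0 : ℝ) ≤ ((EE (ww A x) (x ^ e) κ x x').card : ℝ) := Nat.cast_nonneg _
    have h6 : ∑ i ∈ U.filter (fun i => i ≠ ix1), ‖∑ n ∈ EE (ww A x) (x ^ e) κ x x', (a n : ℂ) * psi i n‖ ^ 2 ≤
        ∑ i ∈ U, ‖∑ n ∈ EE (ww A x) (x ^ e) κ x x', (a n : ℂ) * psi i n‖ ^ 2 :=
      sum_le_sum_of_subset_of_nonneg (filter_subset _ _) (fun _ _ _ => by positivity)
    calc _ ≤ _ := h6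
      _ ≤ _ := h1
      _ ≤ ((6 * C1 / e + 1) * L) * (C2 * (κ / e ^ 2) * (x / Real.log x)) :=
          mul_le_mul h4 (h2.trans h3) (sum_nonneg fun _ _ => by positivity) (by positivity)
      _ = (Q * κ) * L ^ 2 := by rw [hQ, ← hL]; ring
      _ ≤ s * L ^ 2 := mul_le_mul_of_nonneg_right hκQ (by positivity)
  -- assembly
  have key : ∀ i ∈ U.filter (fun i => i ≠ ix1), 16 * ‖∑ π ∈ GP x x', psi i π‖ ^ 2 ≤
      3 * (‖∑ n ∈ RZ (ww A x) (x ^ e) x x', psi i n‖ ^ 2 +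
        ‖∑ v ∈ range V, ∑ π ∈ cl (x ^ e) κ v, ∑ m ∈ MS (ww A x) (x ^ e) κ x x' v, psi i (π * m)‖ ^ 2 +
        ‖∑ n ∈ EE (ww A x) (x ^ e) κ x x', (a n : ℂ) * psi i n‖ ^ 2) := by
    intro i hi
    have hiU : i ∈ U := (mem_filter.mp hi).1
    obtain ⟨p1, -, -, p4, -⟩ := hPSI _ _ _ U hU i hiU
    refine sq3 _ _ _ _ (ha2 (psi i) ?_)
    intro u n hu
    rw [p1, p4 u hu, one_mul]
  have tot : 16 * ∑ i ∈ U.filter (fun i => i ≠ ix1), ‖∑ π ∈ GP x x', psi i π‖ ^ 2 ≤ 18 * s * L ^ 2 := by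
    calc 16 * ∑ i ∈ U.filter (fun i => i ≠ ix1), ‖∑ π ∈ GP x x', psi i π‖ ^ 2
        = ∑ i ∈ U.filter (fun i => i ≠ ix1), 16 * ‖∑ π ∈ GP x x', psi i π‖ ^ 2 := mul_sum _ _ _
      _ ≤ ∑ i ∈ U.filter (fun i => i ≠ ix1), 3 * (‖∑ n ∈ RZ (ww A x) (x ^ e) x x', psi i n‖ ^ 2 +
        ‖∑ v ∈ range V, ∑ π ∈ cl (x ^ e) κ v, ∑ m ∈ MS (ww A x) (x ^ e) κ x x' v, psi i (π * m)‖ ^ 2 +
        ‖∑ n ∈ EE (ww A x) (x ^ e) κ x x', (a n : ℂ) * psi i n‖ ^ 2) := sum_le_sum key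
      _ = 3 * (∑ i ∈ U.filter (fun i => i ≠ ix1), ‖∑ n ∈ RZ (ww A x) (x ^ e) x x', psi i n‖ ^ 2 +
        ∑ i ∈ U.filter (fun i => i ≠ ix1), ‖∑ v ∈ range V, ∑ π ∈ cl (x ^ e) κ v,
          ∑ m ∈ MS (ww A x) (x ^ e) κ x x' v, psi i (π * m)‖ ^ 2 +
        ∑ i ∈ U.filter (fun i => i ≠ ix1), ‖∑ n ∈ EE (ww A x) (x ^ e) κ x x', (a n : ℂ) * psi i n‖ ^ 2) := by
          rw [← mul_sum, sum_add_distrib, sum_add_distrib]
      _ ≤ 18 * s * L ^ 2 := by linarith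
  have fin : 18 * s * L ^ 2 ≤ 16 * (ε * L ^ 2) := by
    have : 0 ≤ L ^ 2 := by positivity
    nlinarith
  linarith

end Pool.Agent.Lib.MP391708.XD3
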