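import Pool.Agent.Lib.MP_391708_nt.X3.SpecD
import Pool.Agent.Lib.MP_391708_nt.X.SpecHML

/-!
# TWO: elements with two prime factors in one cell, or with an inert factor
-/

set_option autoImplicit false

namespace Pool.Agent.Lib.MP391708.XD3

open Finset Filter Topology Pool.Agent.Lib.MP391708.MR
open Pool.Agent.Lib.MP391708.X
open Pool.Agent.Lib.MP391708.QPA (PB)
open scoped ComplexConjugate

namespace TWOM

open Classical in
/-- multiples in a disc -/
lemma card_mult {Y : ℝ} (hY : 0 ≤ Y) {d : Gi} (hd : d ≠ 0) :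
    (((disc Y).filter (fun n => d ∣ n)).card : ℝ) ≤ 9 * Y / nm d := by
  have hd' := nm_posR hd
  have h : (disc Y).filter (fun n => d ∣ n) ⊆ (disc (Y / nm d)).image (fun m => d * m) := by
    intro n hn
    rw [mem_filter, mem_disc] at hn
    obtain ⟨⟨hn0, hnY⟩, m, rfl⟩ := hn
    rw [mem_image]
    refine ⟨m, mem_disc.2 ⟨?_, ?_⟩, rfl⟩
    · rintro rfl
      simp at hn0
    · rw [nm_mul] at hnY
      push_cast at hnY
      rw [le_div_iff₀ hd']
      linarith
  have h1 : (((disc Y).filter (fun n => d ∣ n)).card : ℝ) ≤ ((disc (Y / nm d)).card : ℝ) := by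
    exact_mod_cast (card_le_card h).trans card_image_le
  have h2 := card_disc_le (x := Y / nm d) (by positivity)
  calc (((disc Y).filter (fun n => d ∣ n)).card : ℝ) ≤ 9 * (Y / nm d) := h1.trans h2
    _ = 9 * Y / nm d := by ring

lemma nm_nat (q : ℕ) : nm ((q : ℕ) : Gi) = q ^ 2 := by
  unfold nm
  rw [Zsqrtd.re_natCast, Zsqrtd.im_natCast]
  simp [Int.natAbs_pow]

lemma inert {x w : ℝ} (hx : 1 ≤ x) (hw : 4 ≤ w) (S : Finset Gi)
    (hS : ∀ n ∈ S, n ≠ 0 ∧ (nm n : ℝ) ≤ 6 * x ∧ rgh w n ∧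
      ∃ q : ℕ, q.Prime ∧ q % 4 = 3 ∧ (q : Gi) ∣ n) :
    (S.card : ℝ) ≤ 108 * x / Real.sqrt w := by
  classical
  set m := ⌊Real.sqrt w⌋₊ with hm
  set N := max m ⌊6 * x⌋₊ with hN
  have hsw : 2 ≤ Real.sqrt w := by
    rw [show (2 : ℝ) = Real.sqrt 4 by
      rw [show (4 : ℝ) = 2 ^ 2 by norm_num, Real.sqrt_sq (by norm_num)]]
    exact Real.sqrt_le_sqrt hw
  have hm1 : Real.sqrt w < m + 1 := Nat.lt_floor_add_one _
  have hm2 : Real.sqrt w / 2 ≤ m := by linarith
  have hm0 : m ≠ 0 := by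
    intro h
    rw [h] at hm1
    norm_num at hm1
    linarith
  have hsub : S ⊆ (Ioc m N).biUnion (fun q => (disc (6 * x)).filter (fun n => (q : Gi) ∣ n)) := by
    intro n hn
    obtain ⟨hn0, hnx, hr, q, hq, hq3, hqn⟩ := hS n hn
    rw [mem_biUnion]
    have h1 : w < (nm ((q : ℕ) : Gi) : ℝ) := by
      apply hr _ _ hqn
      have := Fact.mk hq
      exact GaussianInt.prime_of_nat_prime_of_mod_four_eq_three q hq3
    rw [nm_nat] at h1
    push_cast at h1
    have h2 : Real.sqrt w < q := by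
      rw [Real.sqrt_lt' (by exact_mod_cast hq.pos)]
      exact h1
    refine ⟨q, ?_, ?_⟩
    · rw [mem_Ioc]
      refine ⟨(Nat.floor_lt (Real.sqrt_nonneg w)).2 h2, le_trans ?_ (le_max_right _ _)⟩
      apply Nat.le_floor
      have h3 : nm ((q : ℕ) : Gi) ≤ nm n := Nat.le_of_dvd (nm_pos hn0) (nm_dvd hqn)
      rw [nm_nat] at h3
      have h4 : q ≤ q ^ 2 := Nat.le_self_pow (by norm_num) q
      have h5 : (q : ℝ) ≤ nm n := by exact_mod_cast h4.trans h3
      linarith
    · rw [mem_filter, mem_disc]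
      exact ⟨⟨hn0, hnx⟩, hqn⟩
  have h1 : (S.card : ℝ) ≤ ∑ q ∈ Ioc m N, 54 * x * ((q : ℝ) ^ 2)⁻¹ := by
    have h2 : (S.card : ℝ) ≤
        ∑ q ∈ Ioc m N, (((disc (6 * x)).filter (fun n => (q : Gi) ∣ n)).card : ℝ) := by
      exact_mod_cast (card_le_card hsub).trans card_biUnion_le
    refine h2.trans (sum_le_sum fun q hq => ?_)
    rw [mem_Ioc] at hq
    have hq0 : ((q : ℕ) : Gi) ≠ 0 := by
      intro h
      have := congrArg nm h
      rw [nm_nat, nm_zero] at this
      have h3 : q = 0 := by simpa using this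
      omega
    refine (card_mult (by positivity) hq0).trans (le_of_eq ?_)
    rw [nm_nat]
    push_cast
    ring
  rw [← mul_sum] at h1
  have h2 := sum_Ioc_inv_sq_le_sub (α := ℝ) hm0 (le_max_left m ⌊6 * x⌋₊)
  have h3 : ((m : ℝ))⁻¹ ≤ 2 / Real.sqrt w := by
    rw [inv_eq_one_div, div_le_div_iff₀ (by positivity) (by positivity)]
    linarith
  have h4 : (0 : ℝ) ≤ ((max m ⌊6 * x⌋₊ : ℕ) : ℝ)⁻¹ := by positivity
  calc (S.card : ℝ) ≤ 54 * x * ∑ q ∈ Ioc m N, ((q : ℝ) ^ 2)⁻¹ := h1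
    _ ≤ 54 * x * (2 / Real.sqrt w) := by
        apply mul_le_mul_of_nonneg_left _ (by positivity)
        linarith
    _ = 108 * x / Real.sqrt w := by ring

lemma cells {x z κ B : ℝ} {V : ℕ} (hx : 1 ≤ x) (ht : ∀ v, 1 ≤ tt z κ v)
    (hV : ∀ v : ℕ, (tt z κ v) ^ 2 < 6 * x → v < V)
    (hB : ∀ v, ((cl z κ v).card : ℝ) ≤ B * tt z κ v) (S : Finset Gi)
    (hS : ∀ n ∈ S, n ≠ 0 ∧ (nm n : ℝ) ≤ 6 * x ∧
      ∃ (v : ℕ) (π π' : Gi), π ∈ cl z κ v ∧ π' ∈ cl z κ v ∧ π * π' ∣ n) :
    (S.card : ℝ) ≤ V * (B ^ 2 * (54 * x)) := by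
  classical
  have hsub : S ⊆ (range V).biUnion (fun v => (cl z κ v ×ˢ cl z κ v).biUnion
      (fun q => (disc (6 * x)).filter (fun n => q.1 * q.2 ∣ n))) := by
    intro n hn
    obtain ⟨hn0, hnx, v, π, π', hπ, hπ', hd⟩ := hS n hn
    have h1 : nm (π * π') ≤ nm n := Nat.le_of_dvd (nm_pos hn0) (nm_dvd hd)
    rw [nm_mul] at h1
    have h2 : (nm π : ℝ) * nm π' ≤ nm n := by exact_mod_cast h1
    have h3 := (mem_GP.1 hπ).2.2.2.2.1
    have h4 := (mem_GP.1 hπ').2.2.2.2.1
    have h5 := ht v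
    have h6 : (tt z κ v) ^ 2 < 6 * x := by nlinarith
    rw [mem_biUnion]
    refine ⟨v, mem_range.2 (hV v h6), ?_⟩
    rw [mem_biUnion]
    refine ⟨(π, π'), mem_product.2 ⟨hπ, hπ'⟩, ?_⟩
    rw [mem_filter, mem_disc]
    exact ⟨⟨hn0, hnx⟩, hd⟩
  have h1 : (S.card : ℝ) ≤ ∑ v ∈ range V, ∑ q ∈ cl z κ v ×ˢ cl z κ v,
      (((disc (6 * x)).filter (fun n => q.1 * q.2 ∣ n)).card : ℝ) := by
    have h2 := (card_le_card hsub).trans card_biUnion_le
    have h3 : (S.card : ℝ) ≤ ∑ v ∈ range V, (((cl z κ v ×ˢ cl z κ v).biUnion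
      (fun q => (disc (6 * x)).filter (fun n => q.1 * q.2 ∣ n))).card : ℝ) := by
      exact_mod_cast h2
    refine h3.trans (sum_le_sum fun v _ => ?_)
    exact_mod_cast card_biUnion_le
  refine h1.trans ?_
  calc ∑ v ∈ range V, ∑ q ∈ cl z κ v ×ˢ cl z κ v,
      (((disc (6 * x)).filter (fun n => q.1 * q.2 ∣ n)).card : ℝ)
      ≤ ∑ _v ∈ range V, (B ^ 2 * (54 * x)) := by
        refine sum_le_sum fun v _ => ?_
        have ht0 : 0 < tt z κ v := by linarith [ht v]
        have h2 : ∀ q ∈ cl z κ v ×ˢ cl z κ v,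
            (((disc (6 * x)).filter (fun n => q.1 * q.2 ∣ n)).card : ℝ) ≤
              54 * x / (tt z κ v) ^ 2 := by
          intro q hq
          rw [mem_product] at hq
          have h3 := (mem_GP.1 hq.1).2.2.2.2.1
          have h4 := (mem_GP.1 hq.2).2.2.2.2.1
          refine (card_mult (by positivity)
            (mul_ne_zero (GP_ne_zero hq.1) (GP_ne_zero hq.2))).trans ?_
          rw [nm_mul]
          push_cast
          rw [show (9 : ℝ) * (6 * x) = 54 * x by ring]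
          apply div_le_div_of_nonneg_left (by positivity) (by positivity)
          nlinarith
        have h3 := sum_le_card_nsmul _ _ _ h2
        refine h3.trans ?_
        rw [nsmul_eq_mul, card_product]
        push_cast
        have h4 := hB v
        have h5 : (0 : ℝ) ≤ ((cl z κ v).card : ℝ) := Nat.cast_nonneg _
        have h6 : ((cl z κ v).card : ℝ) * ((cl z κ v).card : ℝ) ≤
            (B * tt z κ v) * (B * tt z κ v) := mul_le_mul h4 h4 h5 (h5.trans h4)
        calc ((cl z κ v).card : ℝ) * ((cl z κ v).card : ℝ) * (54 * x / (tt z κ v) ^ 2)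
            ≤ (B * tt z κ v) * (B * tt z κ v) * (54 * x / (tt z κ v) ^ 2) :=
              mul_le_mul_of_nonneg_right h6 (by positivity)
          _ = B ^ 2 * (54 * x) := by field_simp
    _ = V * (B ^ 2 * (54 * x)) := by
        rw [sum_const, card_range, nsmul_eq_mul]

end TWOM

open TWOM in
theorem specTWO (hBTG : XH.SpecBTG) : SpecTWO := by
  classical
  obtain ⟨C0, hC0, hB0⟩ := hBTG
  refine ⟨1 + 432 * C0 ^ 2, by positivity, ?_⟩
  intro A e κ hA he he1 hκ hκ1
  -- a threshold for BTG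
  have hlarge : ∀ᶠ X : ℝ in atTop, (((GP X (X * Real.exp κ)).card : ℝ) ≤ C0 * κ * X / Real.log X)
      ∧ 1 ≤ X := by
    have h1 : Tendsto (fun X : ℝ => X ^ (-(1 / 10) : ℝ)) atTop (𝓝 0) :=
      tendsto_rpow_neg_atTop (by norm_num)
    filter_upwards [hB0, h1.eventually (gt_mem_nhds hκ), eventually_ge_atTop 1] with X h2 h3 h4
    exact ⟨h2 κ h3.le hκ1, h4⟩
  obtain ⟨X1, hX1⟩ := eventually_atTop.1 hlarge
  have hxe : Tendsto (fun x : ℝ => x ^ e) atTop atTop := tendsto_rpow_atTop he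
  filter_upwards [hxe.eventually_ge_atTop (2 * X1), hxe.eventually_ge_atTop 4,
    eventually_gt_atTop 1, Real.tendsto_log_atTop.eventually_ge_atTop (4 / e),
    Real.tendsto_log_atTop.eventually_ge_atTop 4,
    Real.tendsto_log_atTop.eventually_ge_atTop (108 / κ)] with x hx1 hx2 hx3 hx4 hx5 hx6
  intro S hS
  set l := Real.log x with hl
  have hl0 : 0 < l := by linarith
  -- the cells
  have htt0 : ∀ v : ℕ, x ^ e / 2 ≤ tt (x ^ e) κ v := by
    intro v
    unfold tt
    have h1 : x ^ e ≤ (⌈x ^ e⌉₊ : ℝ) := Nat.le_ceil _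
    have h2 : (1 : ℝ) ≤ Real.exp (κ * v) := Real.one_le_exp (by positivity)
    nlinarith
  have htt1 : ∀ v : ℕ, 1 ≤ tt (x ^ e) κ v := fun v => by linarith [htt0 v]
  have htts : ∀ v : ℕ, tt (x ^ e) κ (v + 1) = tt (x ^ e) κ v * Real.exp κ := by
    intro v
    unfold tt
    rw [mul_assoc, ← Real.exp_add]
    congr 2
    push_cast
    ring
  have hlog : ∀ v : ℕ, e * l / 2 ≤ Real.log (tt (x ^ e) κ v) := by
    intro v
    have h1 : Real.log (x ^ e / 2) ≤ Real.log (tt (x ^ e) κ v) :=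
      Real.log_le_log (by linarith) (htt0 v)
    have h2 : Real.log (x ^ e / 2) = e * l - Real.log 2 := by
      rw [Real.log_div (by linarith) (by norm_num), Real.log_rpow (by linarith)]
    have h3 : Real.log 2 < 1 := by
      have := Real.log_two_lt_d9
      linarith
    have h4 : 4 ≤ e * l := by
      rw [div_le_iff₀ he] at hx4
      linarith
    linarith
  have hB : ∀ v : ℕ, ((cl (x ^ e) κ v).card : ℝ) ≤ (2 * C0 * κ / (e * l)) * tt (x ^ e) κ v := by
    intro v
    have h1 := (hX1 (tt (x ^ e) κ v) (by linarith [htt0 v])).1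
    unfold cl
    rw [htts v]
    refine h1.trans ?_
    have h2 := hlog v
    have h3 : 0 < e * l / 2 := by positivity
    calc C0 * κ * tt (x ^ e) κ v / Real.log (tt (x ^ e) κ v)
        ≤ C0 * κ * tt (x ^ e) κ v / (e * l / 2) := by
          apply div_le_div_of_nonneg_left _ h3 h2
          have := htt1 v
          positivity
      _ = (2 * C0 * κ / (e * l)) * tt (x ^ e) κ v := by
          field_simp
  have hV : ∀ v : ℕ, (tt (x ^ e) κ v) ^ 2 < 6 * x → v < ⌊l / κ⌋₊ + 1 := by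
    intro v hv
    have h1 : Real.exp (κ * v) ≤ tt (x ^ e) κ v := by
      unfold tt
      have h1 : x ^ e ≤ (⌈x ^ e⌉₊ : ℝ) := Nat.le_ceil _
      have h2 : (0 : ℝ) < Real.exp (κ * v) := Real.exp_pos _
      nlinarith
    have h2 : Real.exp (2 * (κ * v)) < 6 * x := by
      have h3 : Real.exp (2 * (κ * v)) = Real.exp (κ * v) ^ 2 := by
        rw [← Real.exp_nat_mul]
        norm_num
      rw [h3]
      have h4 : (0 : ℝ) < Real.exp (κ * v) := Real.exp_pos _
      nlinarith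
    have h3 : 2 * (κ * v) < Real.log (6 * x) := by
      rw [Real.lt_log_iff_exp_lt (by linarith)]
      exact h2
    have h4 : Real.log (6 * x) ≤ 2 * l := by
      rw [Real.log_mul (by norm_num) (by linarith)]
      have h5 : Real.log 6 ≤ 6 - 1 := Real.log_le_sub_one_of_pos (by norm_num)
      have h6 : Real.log 6 ≤ 4 := by
        have h7 : Real.log 6 ≤ Real.log 8 := Real.log_le_log (by norm_num) (by norm_num)
        have h8 : Real.log 8 = 3 * Real.log 2 := by
          rw [show (8 : ℝ) = 2 ^ 3 by norm_num, Real.log_pow]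
          norm_num
        have := Real.log_two_lt_d9
        linarith
      linarith
    have h5 : (v : ℝ) ≤ l / κ := by
      rw [le_div_iff₀ hκ]
      linarith
    exact Nat.lt_succ_of_le (Nat.le_floor h5)
  set S1 := S.filter (fun n => ∃ q : ℕ, q.Prime ∧ q % 4 = 3 ∧ (q : Gi) ∣ n) with hS1
  set S2 := S.filter (fun n => ∃ (v : ℕ) (π π' : Gi), π ∈ cl (x ^ e) κ v ∧
    π' ∈ cl (x ^ e) κ v ∧ π * π' ∣ n) with hS2
  have hsub : S ⊆ S1 ∪ S2 := by
    intro n hn
    rw [mem_union, hS1, hS2, mem_filter, mem_filter]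
    rcases (hS n hn).2.2.2 with h | h
    · exact Or.inl ⟨hn, h⟩
    · exact Or.inr ⟨hn, h⟩
  have hw : l ^ 4 ≤ ww A x := by
    unfold ww
    rw [← hl, ← Real.rpow_natCast]
    apply Real.rpow_le_rpow_of_exponent_le (by linarith)
    push_cast
    linarith
  have hl4 : (4 : ℝ) ≤ l ^ 4 := hx5.trans (le_self_pow₀ (by linarith) (by norm_num))
  have c1 : (S1.card : ℝ) ≤ κ / e ^ 2 * (x / l) := by
    have h1 := inert (x := x) (w := ww A x) hx3.le (by linarith) S1 (fun n hn => by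
      rw [hS1, mem_filter] at hn
      exact ⟨(hS n hn.1).1, (hS n hn.1).2.1, (hS n hn.1).2.2.1, hn.2⟩)
    have h2 : l ^ 2 ≤ Real.sqrt (ww A x) := by
      apply Real.le_sqrt_of_sq_le
      calc (l ^ 2) ^ 2 = l ^ 4 := by ring
        _ ≤ ww A x := hw
    have h3 : 108 * x / Real.sqrt (ww A x) ≤ 108 * x / l ^ 2 := by
      apply div_le_div_of_nonneg_left (by linarith) (by positivity) h2
    have h4 : 108 * x / l ^ 2 ≤ κ * (x / l) := by
      rw [div_le_iff₀ (by positivity)]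
      rw [div_le_iff₀ hκ] at hx6
      calc 108 * x ≤ (l * κ) * x := by nlinarith
        _ = κ * (x / l) * l ^ 2 := by field_simp
    have h5 : κ * (x / l) ≤ κ / e ^ 2 * (x / l) := by
      apply mul_le_mul_of_nonneg_right _ (by positivity)
      rw [le_div_iff₀ (by positivity)]
      have h6 : e ^ 2 ≤ 1 := by nlinarith
      nlinarith
    linarith
  have c2 : (S2.card : ℝ) ≤ 432 * C0 ^ 2 * (κ / e ^ 2) * (x / l) := by
    have h1 := cells (x := x) (z := x ^ e) (κ := κ) hx3.le htt1 hV hB S2 (fun n hn => by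
      rw [hS2, mem_filter] at hn
      exact ⟨(hS n hn.1).1, (hS n hn.1).2.1, hn.2⟩)
    refine h1.trans ?_
    have h2 : ((⌊l / κ⌋₊ + 1 : ℕ) : ℝ) ≤ 2 * (l / κ) := by
      push_cast
      have h3 : (⌊l / κ⌋₊ : ℝ) ≤ l / κ := Nat.floor_le (by positivity)
      have h4 : 1 ≤ l / κ := by
        rw [le_div_iff₀ hκ]
        linarith
      linarith
    calc ((⌊l / κ⌋₊ + 1 : ℕ) : ℝ) * ((2 * C0 * κ / (e * l)) ^ 2 * (54 * x))
        ≤ 2 * (l / κ) * ((2 * C0 * κ / (e * l)) ^ 2 * (54 * x)) :=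
          mul_le_mul_of_nonneg_right h2 (by positivity)
      _ = 432 * C0 ^ 2 * (κ / e ^ 2) * (x / l) := by
          field_simp
          ring
  have h1 : (S.card : ℝ) ≤ S1.card + S2.card := by
    exact_mod_cast (card_le_card hsub).trans (card_union_le _ _)
  calc (S.card : ℝ) ≤ S1.card + S2.card := h1
    _ ≤ κ / e ^ 2 * (x / l) + 432 * C0 ^ 2 * (κ / e ^ 2) * (x / l) := add_le_add c1 c2
    _ = (1 + 432 * C0 ^ 2) * (κ / e ^ 2) * (x / l) := by ring

end Pool.Agent.Lib.MP391708.XD3
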