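import Pool.Agent.Lib.MP_391708_nt.X3.SpecD
import Pool.Agent.Lib.MP_391708_nt.MR.PG

/-!
# THEOREM X for `k = 3` (MP_391708), part D, module VZB: the size of the density `VZ`
-/

set_option autoImplicit false

namespace Pool.Agent.Lib.MP391708.XD3

open Finset Filter Topology Pool.Agent.Lib.MP391708.MR
open Pool.Agent.Lib.MP391708.X
open Pool.Agent.Lib.MP391708.QPA (PB)
open scoped ComplexConjugate

namespace VZBM

lemma mem_PB {z : ℝ} {p : ℕ} : p ∈ PB z ↔ (p : ℝ) < z ∧ p.Prime := by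
  unfold PB
  rw [mem_filter, mem_range, Nat.lt_ceil]

/-- every factor is in `(0, 1]` -/
lemma factor {w : ℝ} (hw : 2 ≤ w) {p : ℕ} (hp : p.Prime) : 0 < 1 - gp w p ∧ 1 - gp w p ≤ 1 := by
  classical
  unfold gp
  split_ifs with h1 h2
  · have h3 : (2 : ℝ) < p := by linarith
    have h4 : 1 - (2 / (p : ℝ) - 1 / (p : ℝ) ^ 2) = (1 - 1 / (p : ℝ)) ^ 2 := by
      field_simp
      ring
    have h5 : 1 / (p : ℝ) < 1 := by
      rw [div_lt_one (by linarith)]
      linarith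
    have h6 : 0 < 1 / (p : ℝ) := by positivity
    rw [h4]
    constructor
    · have : 0 < 1 - 1 / (p : ℝ) := by linarith
      positivity
    · nlinarith
  · have h3 : (2 : ℝ) < p := by linarith
    have h5 : 1 / (p : ℝ) ^ 2 < 1 := by
      rw [div_lt_one (by positivity)]
      nlinarith
    have h6 : 0 < 1 / (p : ℝ) ^ 2 := by positivity
    constructor <;> linarith
  · norm_num

lemma factor_le {w : ℝ} (hw : 2 ≤ w) {p : ℕ} (h1 : w < (p : ℝ)) (h2 : p % 4 = 1) :
    1 - gp w p ≤ Real.exp (-(2 * (1 / (p : ℝ)))) := by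
  classical
  have h3 : (2 : ℝ) < p := by linarith
  have h4 : 1 - gp w p = (1 - 1 / (p : ℝ)) ^ 2 := by
    unfold gp
    rw [if_pos h1, if_pos h2]
    field_simp
    ring
  have h5 : 1 / (p : ℝ) < 1 := by
    rw [div_lt_one (by linarith)]
    linarith
  have h6 : 1 - 1 / (p : ℝ) ≤ Real.exp (-(1 / (p : ℝ))) := by
    have := Real.add_one_le_exp (-(1 / (p : ℝ)))
    linarith
  rw [h4]
  calc (1 - 1 / (p : ℝ)) ^ 2 ≤ Real.exp (-(1 / (p : ℝ))) ^ 2 :=
        pow_le_pow_left₀ (by linarith) h6 2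
    _ = Real.exp (-(2 * (1 / (p : ℝ)))) := by
        rw [← Real.exp_nat_mul]
        congr 1
        push_cast
        ring

lemma prod_le {w z : ℝ} (hw : 2 ≤ w) (hz : 0 < z) :
    ∏ p ∈ PB z, (1 - gp w p) ≤ Real.exp (-WW w (z / 2)) := by
  classical
  have hsub : PG.Pm ⌊w⌋₊ ⌊z / 2⌋₊ ⊆ PB z := by
    intro p hp
    rw [PG.Pm, mem_filter, mem_Ioc] at hp
    rw [mem_PB]
    refine ⟨?_, hp.2.1⟩
    have h1 : (p : ℝ) ≤ z / 2 := (Nat.le_floor_iff (by linarith)).1 hp.1.2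
    linarith
  have h1 : ∏ p ∈ PB z, (1 - gp w p) ≤ ∏ p ∈ PG.Pm ⌊w⌋₊ ⌊z / 2⌋₊, (1 - gp w p) := by
    rw [← prod_sdiff hsub]
    have h2 : ∏ p ∈ PB z \ PG.Pm ⌊w⌋₊ ⌊z / 2⌋₊, (1 - gp w p) ≤ 1 :=
      prod_le_one (fun p h => (factor hw (mem_PB.1 (Finset.mem_sdiff.1 h).1).2).1.le)
        (fun p h => (factor hw (mem_PB.1 (Finset.mem_sdiff.1 h).1).2).2)
    have h3 : 0 ≤ ∏ p ∈ PG.Pm ⌊w⌋₊ ⌊z / 2⌋₊, (1 - gp w p) :=
      prod_nonneg (fun p h => (factor hw (mem_PB.1 (hsub h)).2).1.le)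
    nlinarith
  refine h1.trans ?_
  have e1 : WW w (z / 2) = ∑ p ∈ PG.Pm ⌊w⌋₊ ⌊z / 2⌋₊, 2 * (1 / (p : ℝ)) := by
    unfold WW
    rw [PG.gp_sum (by linarith : (0 : ℝ) ≤ w) (fun n => 1 / (n : ℝ))]
    refine sum_congr rfl fun p _ => ?_
    rw [nsmul_eq_mul]
    norm_num
  rw [e1, ← sum_neg_distrib, Real.exp_sum]
  apply Finset.prod_le_prod
  · intro p h
    exact (factor hw (mem_PB.1 (hsub h)).2).1.le
  · intro p h
    rw [PG.Pm, mem_filter, mem_Ioc] at h
    exact factor_le hw ((Nat.floor_lt (by linarith)).1 h.1.1) h.2.2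

/-- the bound in terms of `z` -/
lemma core {c₁ C₁ C₂ : ℝ} (hc₁ : 0 < c₁) (hC₁ : 0 < C₁)
    (hV : ∀ w : ℝ, 2 ≤ w → c₁ / Real.log w ≤ VP w ∧ VP w ≤ C₁ / Real.log w)
    (hP : ∀ P Q : ℝ, 3 ≤ P → P ≤ Q →
      |WW P Q - (Real.log (Real.log Q) - Real.log (Real.log P))| ≤ C₂)
    {w z : ℝ} (hw : 3 ≤ w) (hz : 2 * w ≤ z) :
    0 < VZ w z ∧ VZ w z ≤ 2 * C₁ * Real.exp C₂ / Real.log z := by
  classical
  obtain ⟨h1, h2⟩ := hV w (by linarith)
  have hlw : 0 < Real.log w := Real.log_pos (by linarith)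
  have hVP : 0 < VP w := lt_of_lt_of_le (by positivity) h1
  have hz0 : 0 < z := by linarith
  have hlz : 0 < Real.log (z / 2) := Real.log_pos (by linarith)
  constructor
  · unfold VZ
    exact mul_pos hVP (prod_pos fun p h => (factor (by linarith) (mem_PB.1 h).2).1)
  · have h3 := prod_le (w := w) (by linarith) hz0
    have h4 := (abs_le.1 (hP w (z / 2) hw (by linarith))).1
    have h5 : Real.exp (-WW w (z / 2)) ≤ Real.exp C₂ * Real.log w / Real.log (z / 2) := by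
      have e : Real.exp C₂ * Real.log w / Real.log (z / 2) =
          Real.exp (C₂ + Real.log (Real.log w) - Real.log (Real.log (z / 2))) := by
        rw [Real.exp_sub, Real.exp_add, Real.exp_log hlw, Real.exp_log hlz]
      rw [e]
      apply Real.exp_le_exp.2
      linarith
    have h6 : Real.log z / 2 ≤ Real.log (z / 2) := by
      have h7 : Real.log z ≤ Real.log ((z / 2) ^ 2) := Real.log_le_log hz0 (by nlinarith)
      rw [Real.log_pow] at h7
      push_cast at h7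
      linarith
    have hlz0 : 0 < Real.log z := Real.log_pos (by linarith)
    unfold VZ
    calc VP w * ∏ p ∈ PB z, (1 - gp w p)
        ≤ C₁ / Real.log w * (Real.exp C₂ * Real.log w / Real.log (z / 2)) :=
          mul_le_mul h2 (h3.trans h5)
            (prod_nonneg fun p h => (factor (by linarith) (mem_PB.1 h).2).1.le) (by positivity)
      _ = C₁ * Real.exp C₂ / Real.log (z / 2) := by
          field_simp
      _ ≤ C₁ * Real.exp C₂ / (Real.log z / 2) :=
          div_le_div_of_nonneg_left (by positivity) (by positivity) h6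
      _ = 2 * C₁ * Real.exp C₂ / Real.log z := by
          field_simp

end VZBM

/-- **Module VZB**. -/
theorem specVZB (hVPL : SpecVPL) (hPG : SpecPG) : SpecVZB := by
  obtain ⟨c₁, C₁, hc₁, hC₁, hV⟩ := hVPL
  obtain ⟨-, ⟨C₂, hC₂⟩, -, -⟩ := hPG
  refine ⟨2 * C₁ * Real.exp C₂, by positivity, ?_⟩
  intro A e hA he he1
  have hw3 : ∀ᶠ x : ℝ in atTop, 3 ≤ Real.log x :=
    Real.tendsto_log_atTop.eventually (eventually_ge_atTop 3)
  have hL : ∀ᶠ x : ℝ in atTop, Real.log x ^ (2 * A + 21) ≤ x ^ e := by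
    have h := (isLittleO_log_rpow_rpow_atTop (2 * A + 21) he).bound
      (by norm_num : (0 : ℝ) < 1)
    filter_upwards [h, eventually_ge_atTop 1] with N h1 h2
    rw [one_mul, Real.norm_of_nonneg (Real.rpow_nonneg (Real.log_nonneg h2) _),
      Real.norm_of_nonneg (Real.rpow_nonneg (by linarith) _)] at h1
    exact h1
  filter_upwards [hw3, hL, eventually_gt_atTop 0] with x hx hLx hx0
  have hl0 : 0 < Real.log x := by linarith
  have h1 : 3 ≤ ww A x := by
    unfold ww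
    calc (3 : ℝ) ≤ Real.log x ^ (1 : ℝ) := by rw [Real.rpow_one]; exact hx
      _ ≤ Real.log x ^ (2 * A + 20) :=
          Real.rpow_le_rpow_of_exponent_le (by linarith) (by linarith)
  have h2 : 2 * ww A x ≤ x ^ e := by
    refine le_trans ?_ hLx
    unfold ww
    have h3 : Real.log x ^ (2 * A + 21) = Real.log x * Real.log x ^ (2 * A + 20) := by
      rw [show 2 * A + 21 = 1 + (2 * A + 20) by ring, Real.rpow_add hl0, Real.rpow_one]
    rw [h3]
    exact mul_le_mul_of_nonneg_right (by linarith) (Real.rpow_nonneg hl0.le _)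
  have h4 := VZBM.core hc₁ hC₁ hV hC₂ h1 h2
  rw [Real.log_rpow hx0] at h4
  exact h4

end Pool.Agent.Lib.MP391708.XD3
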