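import Pool.Agent.Lib.MP_391708_nt.X.CELAll
import Pool.Agent.Lib.MP_391708_nt.X3.D.MLT
import Pool.Agent.Lib.MP_391708_nt.X3.D.GRZ
import Pool.Agent.Lib.MP_391708_nt.X3.D.VZB
import Pool.Agent.Lib.MP_391708_nt.X3.D.HMZ
import Pool.Agent.Lib.MP_391708_nt.X3.D.RLE
import Pool.Agent.Lib.MP_391708_nt.X3.D.SPL
import Pool.Agent.Lib.MP_391708_nt.X3.D.DCP
import Pool.Agent.Lib.MP_391708_nt.X3.D.TWO
import Pool.Agent.Lib.MP_391708_nt.X3.D.CNE
import Pool.Agent.Lib.MP_391708_nt.X3.D.PHC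
import Pool.Agent.Lib.MP_391708_nt.X3.D.SMV
import Pool.Agent.Lib.MP_391708_nt.X3.D.THX
import Pool.Agent.Lib.MP_391708_nt.X3.D.THD

/-!
# THEOREM X for `k = 3` (MP_391708), part D: assembly

THEOREM D from `X.PH.SpecPHX` (the prime sums are small for every nontrivial character).
-/

set_option autoImplicit false

namespace Pool.Agent.Lib.MP391708.XD3

open Pool.Agent.Lib.MP391708

theorem d_mlt : SpecMLT := specMLT
theorem d_grz : SpecGRZ := specGRZ QPA.specFLW d_mlt X.hm_grm X.hm_rg0 X.ce_psi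
theorem d_vzb : SpecVZB := specVZB X.ce_vpl MR.specPG
theorem d_hmz : SpecHMZ := specHMZ d_grz d_vzb
theorem d_rle : SpecRLE := specRLE
theorem d_spl : SpecSPL := specSPL
theorem d_dcp : SpecDCP := specDCP d_rle d_spl
theorem d_two : SpecTWO := specTWO X.ce_btg
theorem d_cne : SpecCNE := specCNE d_hmz d_two

theorem d_phc (hPHX : X.PH.SpecPHX) : SpecPHC := specPHC hPHX
theorem d_smv (hPHX : X.PH.SpecPHX) : SpecSMV := specSMV d_hmz (d_phc hPHX) X.ce_psi
theorem d_thx (hPHX : X.PH.SpecPHX) : SpecTHX := specTHX d_hmz d_dcp d_cne (d_smv hPHX) X.ce_psi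

/-- THEOREM D -/
theorem d_thd (hPHX : X.PH.SpecPHX) : SpecTHD := specTHD (d_thx hPHX)

end Pool.Agent.Lib.MP391708.XD3
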