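import Pool.Agent.Lib.MP_391708_nt.X3.SpecD

/-!
# THEOREM D (MP_391708), module PHC: the prime sums are small for every nontrivial character (helper1)
-/

set_option autoImplicit false

namespace Pool.Agent.Lib.MP391708.XD3

open Finset Filter Topology Pool.Agent.Lib.MP391708.MR
open Pool.Agent.Lib.MP391708.X
open scoped ComplexConjugate

theorem specPHC (hPHX : X.PH.SpecPHX) : SpecPHC := by
  intro A e η hA he he1 hη
  obtain ⟨N0, h⟩ := hPHX η A (e / 2) hη hA (by linarith) (by linarith)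
  filter_upwards [eventually_ge_atTop N0] with x hx U hU i hi hne y y' h1 h2 h3
  obtain ⟨c1, c2, c3⟩ := hU.ch i hi
  have hd : i.2.2 ≠ 0 ∨ ∃ z, i.2.1 z ≠ 0 ∧ i.2.1 z ≠ 1 := by
    rcases hU.dif i hi ix1 hU.one hne with h4 | ⟨z, h4, -, h5⟩
    · exact Or.inl h4
    · exact Or.inr ⟨z, h4, h5⟩
  exact h x hx i.1 i.2.1 i.2.2 (by omega) c2 c3 (hU.frq i hi) hd (hU.adm i hi) y y' h1 h2 h3

end Pool.Agent.Lib.MP391708.XD3
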